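import Pool.Agent.Work.MP_b989b4_co.Fam

/-!
Assembly: minimal bad restrictions are excluded minors.
-/

namespace Pool.Agent.Work.MP_b989b4_co

open Finset
open scoped Classical

section transport

variable {k : ℕ} {Z : Type*} [AddCommGroup Z]

/-- bases transported to `Fin k` -/
def IB (φ : Fin k ↪ El Z) (B : Set (Fin k)) : Prop :=
  ∃ F : Finset (Fin k), (F : Set (Fin k)) = B ∧ BaseM (F.map φ)

theorem IB_exchange (φ : Fin k ↪ El Z) : Matroid.ExchangeProperty (IB φ) := by
  rintro X Y ⟨F, rfl, hF⟩ ⟨F', rfl, hF'⟩ a ⟨haX, haY⟩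
  have h1 : φ a ∈ F.map φ := mem_map_of_mem φ haX
  have h2 : φ a ∉ F'.map φ := by rw [mem_map' φ]; exact haY
  obtain ⟨b', hb', hb⟩ := baseM_exchange hF hF' h1 h2
  rw [mem_sdiff] at hb'
  obtain ⟨b, hbF', rfl⟩ := mem_map.1 hb'.1
  have hbF : b ∉ F := fun h => hb'.2 (mem_map_of_mem φ h)
  refine ⟨b, ⟨hbF', hbF⟩, insert b (F.erase a), ?_, ?_⟩
  · rw [coe_insert, coe_erase]
  · rw [map_insert, map_erase]; exact hb

/-- the matroid on `Fin k` -/
noncomputable def Mat (φ : Fin k ↪ El Z) (h : ∃ B, IB φ B) : Matroid (Fin k) :=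
  Matroid.ofIsBaseOfFinite (E := Set.univ) (Set.toFinite _) (IB φ) h (IB_exchange φ)
    (fun _ _ => Set.subset_univ _)

theorem Mat_base (φ : Fin k ↪ El Z) (h : ∃ B, IB φ B) (B : Finset (Fin k)) :
    (Mat φ h).IsBase (B : Set (Fin k)) ↔ BaseM (B.map φ) := by
  constructor
  · rintro ⟨F, hF, h⟩
    rw [Finset.coe_inj] at hF
    rwa [← hF]
  · intro h
    exact ⟨B, rfl, h⟩

theorem baseM_card {B : Finset (El Z)} (h : BaseM B) : #B = 4 := by
  rw [← card_split]; exact h.1.1

/-- a set on which some pair violates the inequality -/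
def Bad (R : Finset (El Z)) : Prop :=
  ∃ Q e f, e ∉ Q ∧ f ∉ Q ∧ e ≠ f ∧ insert e (insert f Q) = R ∧ ¬ Pair Q e f

theorem bM_mono {Q R : Finset (El Z)} (h : Q ⊆ R) : bM Q ≤ bM R := by
  unfold bM
  apply card_le_card
  intro B hB
  rw [mem_filter, mem_powerset] at hB ⊢
  exact ⟨hB.1.trans h, hB.2⟩

theorem bad_pos {R : Finset (El Z)} (h : Bad R) : ∃ B ⊆ R, BaseM B := by
  by_contra hcon
  have h0 : bM R = 0 := by
    unfold bM
    rw [card_eq_zero, eq_empty_iff_forall_notMem]
    intro B hB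
    rw [mem_filter, mem_powerset] at hB
    exact hcon ⟨B, hB⟩
  obtain ⟨Q, e, f, _, _, _, rfl, hP⟩ := h
  apply hP
  have h1 : bM (insert e Q) = 0 := by
    have := bM_mono (Z := Z) (Q := insert e Q) (R := insert e (insert f Q))
      (insert_subset_insert _ (subset_insert _ _))
    omega
  have h2 : bM (insert f Q) = 0 := by
    have := bM_mono (Z := Z) (Q := insert f Q) (R := insert e (insert f Q)) (subset_insert _ _)
    omega
  have h3 : bM Q = 0 := by
    have := bM_mono (Z := Z) (Q := Q) (R := insert f Q) (subset_insert _ _)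
    omega
  unfold Pair
  rw [h0, h1, h2, h3]
  simp

theorem transport (R : Finset (El Z)) (hR : Bad R) (hmin : ∀ R' ⊂ R, ¬ Bad R') :
    ∃ M : Matroid (Fin #R), M.E = Set.univ ∧ (∃ e f, e ≠ f ∧ ¬ Four M e f) ∧
      ∀ N : Matroid (Fin #R), N.IsStrictMinor M → ∀ e ∈ N.E, ∀ f ∈ N.E, e ≠ f → Four N e f := by
  set φ : Fin #R ↪ El Z := R.equivFin.symm.toEmbedding.trans (Function.Embedding.subtype _) with hφ
  have hmem : ∀ i, φ i ∈ R := fun i => (R.equivFin.symm i).2
  have hsurj : ∀ x ∈ R, ∃ i, φ i = x := fun x hx => ⟨R.equivFin ⟨x, hx⟩, by simp [hφ]⟩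
  have huniv : (univ : Finset (Fin #R)).map φ = R := by
    ext x
    rw [mem_map]
    constructor
    · rintro ⟨i, _, rfl⟩; exact hmem i
    · intro hx
      obtain ⟨i, hi⟩ := hsurj x hx
      exact ⟨i, mem_univ _, hi⟩
  have hpre : ∀ Q ⊆ R, ∃ W : Finset (Fin #R), W.map φ = Q := by
    intro Q hQ
    refine ⟨univ.filter (fun i => φ i ∈ Q), ?_⟩
    ext x
    rw [mem_map]
    constructor
    · rintro ⟨i, hi, rfl⟩; exact (mem_filter.1 hi).2
    · intro hx
      obtain ⟨i, rfl⟩ := hsurj x (hQ hx)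
      exact ⟨i, mem_filter.2 ⟨mem_univ _, hx⟩, rfl⟩
  have hex : ∃ B, IB φ B := by
    obtain ⟨B, hB, hBM⟩ := bad_pos hR
    obtain ⟨W, rfl⟩ := hpre B hB
    exact ⟨W, W, rfl, hBM⟩
  have hM := Mat_base φ hex
  have hME : (Mat φ hex).E = Set.univ := rfl
  have hM4 : ∀ B, (Mat φ hex).IsBase B → B.ncard = 4 := by
    rintro B ⟨F, rfl, hF⟩
    rw [Set.ncard_coe_finset, ← card_map φ]
    exact baseM_card hF
  refine ⟨Mat φ hex, hME, ?_, ?_⟩
  · obtain ⟨Q, e, f, he, hf, hne, hQR, hP⟩ := hR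
    have hQ : Q ⊆ R := by
      rw [← hQR]; exact (subset_insert _ _).trans (subset_insert _ _)
    have heR : e ∈ R := by rw [← hQR]; exact mem_insert_self _ _
    have hfR : f ∈ R := by rw [← hQR]; exact mem_insert_of_mem (mem_insert_self _ _)
    obtain ⟨W, rfl⟩ := hpre Q hQ
    obtain ⟨e', rfl⟩ := hsurj e heR
    obtain ⟨f', rfl⟩ := hsurj f hfR
    have he' : e' ∉ W := fun h => he (mem_map_of_mem φ h)
    have hf' : f' ∉ W := fun h => hf (mem_map_of_mem φ h)
    have hne' : e' ≠ f' := fun h => hne (by rw [h])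
    refine ⟨e', f', hne', fun hF => hP ?_⟩
    rw [← pair_iff φ hM he' hf' hne']
    have hu : insert e' (insert f' W) = univ := by
      apply map_injective φ
      rw [map_insert, map_insert, huniv]
      exact hQR
    rw [hu]
    exact hF
  · intro N hN e he f hf hne
    rcases minor_cases hM4 hN.isMinor with ⟨r, hr, hall⟩ | hres
    · exact four_low N hne r hr hall
    · -- a proper restriction
      have hss := hN.ssubset
      rw [hME] at hss
      set W : Finset (Fin #R) := N.E.toFinite.toFinset with hW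
      have hWmem : ∀ x, x ∈ W ↔ x ∈ N.E := by intro x; rw [hW, Set.Finite.mem_toFinset]
      have hWne : W ≠ univ := by
        intro h
        apply hss.2
        intro x _
        rw [← hWmem, h]; exact mem_univ _
      set V : Finset (Fin #R) := (W.erase e).erase f with hV
      have heV : e ∉ V := by simp [hV]
      have hfV : f ∉ V := by simp [hV]
      have hins : insert e (insert f V) = W := by
        ext x
        simp only [hV, mem_insert, mem_erase]
        constructor
        · rintro (rfl | rfl | h)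
          · exact (hWmem _).2 he
          · exact (hWmem _).2 hf
          · exact h.2.2
        · intro hx
          tauto
      have hpair : Pair (V.map φ) (φ e) (φ f) := by
        by_contra hP
        refine hmin (W.map φ) ?_ ⟨V.map φ, φ e, φ f, ?_, ?_, ?_, ?_, hP⟩
        · rw [Finset.ssubset_iff_subset_ne]
          refine ⟨fun x hx => ?_, fun h => hWne ?_⟩
          · obtain ⟨i, _, rfl⟩ := mem_map.1 hx
            exact hmem i
          · apply map_injective φ
            rw [huniv]; exact h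
        · rw [mem_map' φ]; exact heV
        · rw [mem_map' φ]; exact hfV
        · exact fun h => hne (φ.injective h)
        · rw [← hins, map_insert, map_insert]
      rw [← pair_iff φ hM heV hfV hne, hins] at hpair
      have hfam : ∀ P : Finset (Fin #R) → Prop, fam N univ P = fam (Mat φ hex) W P := by
        intro P
        ext B
        rw [mem_fam, mem_fam, hres]
        constructor
        · rintro ⟨_, ⟨h1, h2⟩, h3⟩
          exact ⟨fun x hx => (hWmem x).2 (h2 hx), h1, h3⟩
        · rintro ⟨h1, h2, h3⟩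
          exact ⟨subset_univ _, ⟨h2, fun x hx => (hWmem x).1 (h1 hx)⟩, h3⟩
      unfold Four
      rw [hfam, hfam, hfam, hfam]
      exact hpair

end transport

theorem exists_min_bad {Z : Type*} [AddCommGroup Z] (h : ∃ R : Finset (El Z), Bad R) :
    ∃ R : Finset (El Z), Bad R ∧ ∀ R' ⊂ R, ¬ Bad R' := by
  obtain ⟨R, hR, hmin⟩ := WellFounded.has_min (measure (fun R : Finset (El Z) => #R)).wf
    {R | Bad R} h
  exact ⟨R, hR, fun R' hss hbad => hmin R' hbad (card_lt_card hss)⟩

theorem bad_parts {Z : Type*} [AddCommGroup Z] {R : Finset (El Z)} (hR : Bad R) :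
    ∃ (Q : Finset (El Z)) (e f : El Z), e ∉ Q ∧ f ∉ Q ∧ e ≠ f ∧ #Q ≤ #R ∧ ¬ Pair Q e f := by
  obtain ⟨Q, e, f, he, hf, hne, rfl, hP⟩ := hR
  exact ⟨Q, e, f, he, hf, hne,
    card_le_card ((subset_insert _ _).trans (subset_insert _ _)), hP⟩

theorem bad_card {p : ℕ} (hp : p.Prime) {R : Finset (El (ZMod p))} (hR : Bad R) : p ≤ #R := by
  obtain ⟨Q, e, f, he, hf, hne, hcard, hP⟩ := bad_parts hR
  have hsplit := card_split Q
  by_contra hlt
  apply hP
  by_cases h1 : e = tt ∧ f = cc
  · obtain ⟨rfl, rfl⟩ := h1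
    exact pair_tc hp Q he hf (by omega)
  by_cases h2 : e = cc ∧ f = tt
  · obtain ⟨rfl, rfl⟩ := h2
    exact (pair_tc hp Q hf he (by omega)).symm
  exact pair_good Q e f he hf hne h1 h2

theorem exists_bad {p : ℕ} (hp : p.Prime) : ∃ R : Finset (El (ZMod p)), Bad R := by
  have : NeZero p := ⟨hp.ne_zero⟩
  have : Fintype (ZMod p) := ZMod.fintype p
  let Q : Finset (El (ZMod p)) := univ.filter (fun e => e ≠ tt ∧ e ≠ cc)
  have ht : tt ∉ Q := by simp [Q]
  have hc : cc ∉ Q := by simp [Q]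
  refine ⟨_, Q, tt, cc, ht, hc, by simp [tt, cc], rfl, ?_⟩
  exact pair_tc_bad hp Q ht hc (fun e h1 h2 => by simp [Q, h1, h2])

theorem main_exists (n : ℕ) : ∃ k : ℕ, n ≤ k ∧ ∃ M : Matroid (Fin k), M.E = Set.univ ∧
    (∃ e f, e ≠ f ∧ ¬ Four M e f) ∧
      ∀ N : Matroid (Fin k), N.IsStrictMinor M → ∀ e ∈ N.E, ∀ f ∈ N.E, e ≠ f → Four N e f := by
  obtain ⟨p, hpn, hp⟩ := Nat.exists_infinite_primes n
  obtain ⟨R, hR, hmin⟩ := exists_min_bad (exists_bad hp)
  exact ⟨#R, hpn.trans (bad_card hp hR), transport R hR hmin⟩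

end Pool.Agent.Work.MP_b989b4_co
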