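import Mathlib

/-!
The rank-four matroid.  Ground set: `t`, `c`, a line `L` (points `a s`), two lines
`x i`, `y j` spanning with `t` a plane; `t ∈ L`; and four-point planes `{c, a (i+j), x i, y j}`.
-/

namespace Pool.Agent.Work.MP_b989b4_co

open Finset

/-- the ground type: `t`, `c`, `a s`, `x i`, `y j`. -/
abbrev El (Z : Type*) : Type _ := Unit ⊕ (Unit ⊕ (Z ⊕ (Z ⊕ Z)))

variable {Z : Type*}

def tt : El Z := Sum.inl ()
def cc : El Z := Sum.inr (Sum.inl ())
def aa (s : Z) : El Z := Sum.inr (Sum.inr (Sum.inl s))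
def xx (i : Z) : El Z := Sum.inr (Sum.inr (Sum.inr (Sum.inl i)))
def yy (j : Z) : El Z := Sum.inr (Sum.inr (Sum.inr (Sum.inr j)))

def pT (B : Finset (El Z)) : Finset Unit := B.toLeft
def pC (B : Finset (El Z)) : Finset Unit := B.toRight.toLeft
def pA (B : Finset (El Z)) : Finset Z := B.toRight.toRight.toLeft
def pX (B : Finset (El Z)) : Finset Z := B.toRight.toRight.toRight.toLeft
def pY (B : Finset (El Z)) : Finset Z := B.toRight.toRight.toRight.toRight

theorem card_split (B : Finset (El Z)) :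
    #(pT B) + #(pC B) + #(pA B) + #(pX B) + #(pY B) = #B := by
  have h1 := card_toLeft_add_card_toRight (u := B)
  have h2 := card_toLeft_add_card_toRight (u := B.toRight)
  have h3 := card_toLeft_add_card_toRight (u := B.toRight.toRight)
  have h4 := card_toLeft_add_card_toRight (u := B.toRight.toRight.toRight)
  simp only [pT, pC, pA, pX, pY]
  omega

theorem card_pT_le (B : Finset (El Z)) : #(pT B) ≤ 1 := by
  simpa using Finset.card_le_univ (pT B)
theorem card_pC_le (B : Finset (El Z)) : #(pC B) ≤ 1 := by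
  simpa using Finset.card_le_univ (pC B)

/-- numeric condition for the bases of the matroid before tightening -/
def Cond (v0 v1 v2 v3 v4 : ℕ) : Prop :=
  v0 + v1 + v2 + v3 + v4 = 4 ∧ v0 + v2 ≤ 2 ∧ v3 ≤ 2 ∧ v4 ≤ 2 ∧ v0 + v3 + v4 ≤ 3

instance (v0 v1 v2 v3 v4 : ℕ) : Decidable (Cond v0 v1 v2 v3 v4) := by
  unfold Cond; infer_instance

/-- bases before tightening -/
def Base0 (B : Finset (El Z)) : Prop := Cond #(pT B) #(pC B) #(pA B) #(pX B) #(pY B)

section mem

theorem mem_pT {B : Finset (El Z)} {u : Unit} : u ∈ pT B ↔ tt ∈ B := by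
  cases u; simp [pT, tt]
theorem mem_pC {B : Finset (El Z)} {u : Unit} : u ∈ pC B ↔ cc ∈ B := by
  cases u; simp [pC, cc]
theorem mem_pA {B : Finset (El Z)} {s : Z} : s ∈ pA B ↔ aa s ∈ B := by
  simp [pA, aa]
theorem mem_pX {B : Finset (El Z)} {s : Z} : s ∈ pX B ↔ xx s ∈ B := by
  simp [pX, xx]
theorem mem_pY {B : Finset (El Z)} {s : Z} : s ∈ pY B ↔ yy s ∈ B := by
  simp [pY, yy]

end mem

theorem El_cases (P : El Z → Prop) (ht : P tt) (hc : P cc) (ha : ∀ s, P (aa s))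
    (hx : ∀ s, P (xx s)) (hy : ∀ s, P (yy s)) (e : El Z) : P e := by
  rcases e with u | u | s | s | s
  · exact ht
  · exact hc
  · exact ha s
  · exact hx s
  · exact hy s

variable [DecidableEq Z]

/-- the part vectors of `insert b B` for `b ∉ B` -/
theorem parts_insert (B : Finset (El Z)) (b : El Z) (hb : b ∉ B) :
    (b = tt ∧ #(pT (insert b B)) = #(pT B) + 1 ∧ pC (insert b B) = pC B ∧
      pA (insert b B) = pA B ∧ pX (insert b B) = pX B ∧ pY (insert b B) = pY B) ∨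
    (b = cc ∧ pT (insert b B) = pT B ∧ #(pC (insert b B)) = #(pC B) + 1 ∧
      pA (insert b B) = pA B ∧ pX (insert b B) = pX B ∧ pY (insert b B) = pY B) ∨
    ((∃ s, b = aa s) ∧ pT (insert b B) = pT B ∧ pC (insert b B) = pC B ∧
      #(pA (insert b B)) = #(pA B) + 1 ∧ pX (insert b B) = pX B ∧ pY (insert b B) = pY B) ∨
    ((∃ s, b = xx s) ∧ pT (insert b B) = pT B ∧ pC (insert b B) = pC B ∧
      pA (insert b B) = pA B ∧ #(pX (insert b B)) = #(pX B) + 1 ∧ pY (insert b B) = pY B) ∨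
    ((∃ s, b = yy s) ∧ pT (insert b B) = pT B ∧ pC (insert b B) = pC B ∧
      pA (insert b B) = pA B ∧ pX (insert b B) = pX B ∧ #(pY (insert b B)) = #(pY B) + 1) := by
  rcases b with u | u | s | s | s
  · left
    refine ⟨rfl, ?_, ?_, ?_, ?_, ?_⟩
    · have : pT (insert (Sum.inl u) B) = insert u (pT B) := by ext w; simp [pT]
      rw [this, Finset.card_insert_of_notMem]
      simpa [pT] using hb
    all_goals ext w; simp [pC, pA, pX, pY]
  · right; left
    refine ⟨rfl, ?_, ?_, ?_, ?_, ?_⟩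
    · ext w; simp [pT]
    · have : pC (insert (Sum.inr (Sum.inl u)) B) = insert u (pC B) := by ext w; simp [pC]
      rw [this, Finset.card_insert_of_notMem]
      simpa [pC] using hb
    all_goals ext w; simp [pA, pX, pY]
  · right; right; left
    refine ⟨⟨s, rfl⟩, ?_, ?_, ?_, ?_, ?_⟩
    · ext w; simp [pT]
    · ext w; simp [pC]
    · have : pA (insert (Sum.inr (Sum.inr (Sum.inl s))) B) = insert s (pA B) := by ext w; simp [pA]
      rw [this, Finset.card_insert_of_notMem]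
      simpa [pA] using hb
    all_goals ext w; simp [pX, pY]
  · right; right; right; left
    refine ⟨⟨s, rfl⟩, ?_, ?_, ?_, ?_, ?_⟩
    · ext w; simp [pT]
    · ext w; simp [pC]
    · ext w; simp [pA]
    · have : pX (insert (Sum.inr (Sum.inr (Sum.inr (Sum.inl s)))) B) = insert s (pX B) := by
        ext w; simp [pX]
      rw [this, Finset.card_insert_of_notMem]
      simpa [pX] using hb
    · ext w; simp [pY]
  · right; right; right; right
    refine ⟨⟨s, rfl⟩, ?_, ?_, ?_, ?_, ?_⟩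
    · ext w; simp [pT]
    · ext w; simp [pC]
    · ext w; simp [pA]
    · ext w; simp [pX]
    · have : pY (insert (Sum.inr (Sum.inr (Sum.inr (Sum.inr s)))) B) = insert s (pY B) := by
        ext w; simp [pY]
      rw [this, Finset.card_insert_of_notMem]
      simpa [pY] using hb

omit [DecidableEq Z] in
theorem parts_mono {B C : Finset (El Z)} (h : B ⊆ C) :
    #(pT B) ≤ #(pT C) ∧ #(pC B) ≤ #(pC C) ∧ #(pA B) ≤ #(pA C) ∧ #(pX B) ≤ #(pX C) ∧
      #(pY B) ≤ #(pY C) := by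
  have h1 := toRight_subset_toRight h
  have h2 := toRight_subset_toRight h1
  have h3 := toRight_subset_toRight h2
  have h4 := toRight_subset_toRight h3
  exact ⟨card_le_card (toLeft_subset_toLeft h), card_le_card (toLeft_subset_toLeft h1),
    card_le_card (toLeft_subset_toLeft h2), card_le_card (toLeft_subset_toLeft h3),
    card_le_card h4⟩

/-- exchange at the level of part vectors -/
theorem cond_exchange (u0 u1 u2 u3 u4 y0 y1 y2 y3 y4 : ℕ)
    (hu : u0 + u1 + u2 + u3 + u4 = 3) (hu' : u0 + u2 ≤ 2 ∧ u3 ≤ 2 ∧ u4 ≤ 2 ∧ u0 + u3 + u4 ≤ 3)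
    (hu0 : u0 ≤ 1) (hy0 : y0 ≤ 1) (hy : Cond y0 y1 y2 y3 y4) :
    (u0 < y0 ∧ Cond (u0 + 1) u1 u2 u3 u4) ∨ (u1 < y1 ∧ Cond u0 (u1 + 1) u2 u3 u4) ∨
    (u2 < y2 ∧ Cond u0 u1 (u2 + 1) u3 u4) ∨ (u3 < y3 ∧ Cond u0 u1 u2 (u3 + 1) u4) ∨
    (u4 < y4 ∧ Cond u0 u1 u2 u3 (u4 + 1)) := by
  unfold Cond at *
  omega

theorem base0_exchange {X Y : Finset (El Z)} (hX : Base0 X) (hY : Base0 Y) {a : El Z}
    (haX : a ∈ X) (haY : a ∉ Y) : ∃ b ∈ Y \ X, Base0 (insert b (X.erase a)) := by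
  have hcX : #X = 4 := by rw [← card_split]; exact hX.1
  have hcX' : #(X.erase a) = 3 := by rw [card_erase_of_mem haX, hcX]
  have hs := card_split (X.erase a)
  have hm := parts_mono (Finset.erase_subset a X)
  have key := cond_exchange _ _ _ _ _ _ _ _ _ _ (hs.trans hcX') (by
    unfold Base0 Cond at hX; omega) (card_pT_le _) (card_pT_le _) hY
  have fin : ∀ b, b ∈ Y → b ∉ X.erase a → b ∈ Y \ X := by
    intro b hb hb'
    rw [mem_sdiff]
    refine ⟨hb, fun h => hb' ?_⟩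
    rw [mem_erase]
    exact ⟨fun h => haY (h ▸ hb), h⟩
  rcases key with ⟨h1, h2⟩ | ⟨h1, h2⟩ | ⟨h1, h2⟩ | ⟨h1, h2⟩ | ⟨h1, h2⟩
  · obtain ⟨s, hs1, hs2⟩ := Finset.exists_mem_notMem_of_card_lt_card h1
    rw [mem_pT] at hs1 hs2
    refine ⟨_, fin _ hs1 hs2, ?_⟩
    rcases parts_insert _ _ hs2 with ⟨h, e⟩ | ⟨h, e⟩ | ⟨⟨_, h⟩, e⟩ | ⟨⟨_, h⟩, e⟩ | ⟨⟨_, h⟩, e⟩
    · unfold Base0; rw [e.1, e.2.1, e.2.2.1, e.2.2.2.1, e.2.2.2.2]; exact h2
    all_goals simp [tt, cc, aa, xx, yy] at h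
  · obtain ⟨s, hs1, hs2⟩ := Finset.exists_mem_notMem_of_card_lt_card h1
    rw [mem_pC] at hs1 hs2
    refine ⟨_, fin _ hs1 hs2, ?_⟩
    rcases parts_insert _ _ hs2 with ⟨h, e⟩ | ⟨h, e⟩ | ⟨⟨_, h⟩, e⟩ | ⟨⟨_, h⟩, e⟩ | ⟨⟨_, h⟩, e⟩
    · simp [tt, cc] at h
    · unfold Base0; rw [e.1, e.2.1, e.2.2.1, e.2.2.2.1, e.2.2.2.2]; exact h2
    all_goals simp [tt, cc, aa, xx, yy] at h
  · obtain ⟨s, hs1, hs2⟩ := Finset.exists_mem_notMem_of_card_lt_card h1
    rw [mem_pA] at hs1 hs2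
    refine ⟨_, fin _ hs1 hs2, ?_⟩
    rcases parts_insert _ _ hs2 with ⟨h, e⟩ | ⟨h, e⟩ | ⟨⟨_, h⟩, e⟩ | ⟨⟨_, h⟩, e⟩ | ⟨⟨_, h⟩, e⟩
    · simp [tt, aa] at h
    · simp [cc, aa] at h
    · unfold Base0; rw [e.1, e.2.1, e.2.2.1, e.2.2.2.1, e.2.2.2.2]; exact h2
    all_goals simp [tt, cc, aa, xx, yy] at h
  · obtain ⟨s, hs1, hs2⟩ := Finset.exists_mem_notMem_of_card_lt_card h1
    rw [mem_pX] at hs1 hs2
    refine ⟨_, fin _ hs1 hs2, ?_⟩
    rcases parts_insert _ _ hs2 with ⟨h, e⟩ | ⟨h, e⟩ | ⟨⟨_, h⟩, e⟩ | ⟨⟨_, h⟩, e⟩ | ⟨⟨_, h⟩, e⟩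
    · simp [tt, xx] at h
    · simp [cc, xx] at h
    · simp [aa, xx] at h
    · unfold Base0; rw [e.1, e.2.1, e.2.2.1, e.2.2.2.1, e.2.2.2.2]; exact h2
    · simp [xx, yy] at h
  · obtain ⟨s, hs1, hs2⟩ := Finset.exists_mem_notMem_of_card_lt_card h1
    rw [mem_pY] at hs1 hs2
    refine ⟨_, fin _ hs1 hs2, ?_⟩
    rcases parts_insert _ _ hs2 with ⟨h, e⟩ | ⟨h, e⟩ | ⟨⟨_, h⟩, e⟩ | ⟨⟨_, h⟩, e⟩ | ⟨⟨_, h⟩, e⟩
    · simp [tt, yy] at h
    · simp [cc, yy] at h
    · simp [aa, yy] at h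
    · simp [xx, yy] at h
    · unfold Base0; rw [e.1, e.2.1, e.2.2.1, e.2.2.2.1, e.2.2.2.2]; exact h2

variable [AddCommGroup Z]

/-- the special four-point planes -/
def sp (i j : Z) : Finset (El Z) := {cc, aa (i + j), xx i, yy j}

def Special (B : Finset (El Z)) : Prop := ∃ i j, B = sp i j

/-- the bases of the matroid -/
def BaseM (B : Finset (El Z)) : Prop := Base0 B ∧ ¬ Special B

theorem parts_sp (i j : Z) : pT (sp i j) = ∅ ∧ pC (sp i j) = {()} ∧ pA (sp i j) = {i + j} ∧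
    pX (sp i j) = {i} ∧ pY (sp i j) = {j} := by
  refine ⟨?_, ?_, ?_, ?_, ?_⟩
  · ext w; rw [mem_pT]; simp [sp, tt, cc, aa, xx, yy]
  · ext w; rw [mem_pC]; simp [sp, cc, aa, xx, yy]
  · ext w; rw [mem_pA]; simp [sp, cc, aa, xx, yy]
  · ext w; rw [mem_pX]; simp [sp, cc, aa, xx, yy]
  · ext w; rw [mem_pY]; simp [sp, cc, aa, xx, yy]

theorem mem_sp_aa {i j s : Z} : aa s ∈ sp i j ↔ s = i + j := by
  simp [sp, cc, aa, xx, yy]
theorem mem_sp_xx {i j s : Z} : xx s ∈ sp i j ↔ s = i := by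
  simp [sp, cc, aa, xx, yy]
theorem mem_sp_yy {i j s : Z} : yy s ∈ sp i j ↔ s = j := by
  simp [sp, cc, aa, xx, yy]

/-- changing one element of a special set gives a base -/
theorem base_of_special_exchange {W : Finset (El Z)} (hW : Special W) {b z : El Z} (hb : b ∈ W)
    (hz : z ∉ W) : BaseM (insert z (W.erase b)) := by
  obtain ⟨i, j, rfl⟩ := hW
  obtain ⟨q0, q1, q2, q3, q4⟩ := parts_sp i j
  have hm := parts_mono (Finset.erase_subset b (sp i j))
  rw [q0, q1, q2, q3, q4] at hm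
  simp only [card_empty, card_singleton] at hm
  have hcW : #(sp i j) = 4 := by
    rw [← card_split, q0, q1, q2, q3, q4]; simp
  have hs := card_split ((sp i j).erase b)
  rw [card_erase_of_mem hb, hcW] at hs
  have hz' : z ∉ (sp i j).erase b := fun h => hz (mem_of_mem_erase h)
  constructor
  · unfold Base0 Cond
    rcases parts_insert _ _ hz' with ⟨h, e⟩ | ⟨h, e⟩ | ⟨h, e⟩ | ⟨h, e⟩ | ⟨h, e⟩ <;>
    · rw [e.1, e.2.1, e.2.2.1, e.2.2.2.1, e.2.2.2.2]; omega
  · rintro ⟨i', j', h⟩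
    -- at least three common elements force equality
    have hsub : (sp i j).erase b ⊆ sp i' j' := by
      rw [← h]; exact subset_insert _ _
    have hmem : ∀ w ∈ sp i j, w ≠ b → w ∈ sp i' j' := fun w hw hwb =>
      hsub (mem_erase.2 ⟨hwb, hw⟩)
    have heq : i = i' ∧ j = j' := by
      have hb' : b = cc ∨ b = aa (i + j) ∨ b = xx i ∨ b = yy j := by
        simpa [sp] using hb
      rcases hb' with rfl | rfl | rfl | rfl
      · have h1 := hmem (xx i) (by simp [sp]) (by simp [xx, cc])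
        have h2 := hmem (yy j) (by simp [sp]) (by simp [yy, cc])
        exact ⟨mem_sp_xx.1 h1, mem_sp_yy.1 h2⟩
      · have h1 := hmem (xx i) (by simp [sp]) (by simp [xx, aa])
        have h2 := hmem (yy j) (by simp [sp]) (by simp [yy, aa])
        exact ⟨mem_sp_xx.1 h1, mem_sp_yy.1 h2⟩
      · have h1 := hmem (aa (i + j)) (by simp [sp]) (by simp [xx, aa])
        have h2 := hmem (yy j) (by simp [sp]) (by simp [yy, xx])
        have h3 := mem_sp_aa.1 h1
        have h4 := mem_sp_yy.1 h2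
        subst h4
        exact ⟨add_right_cancel h3, rfl⟩
      · have h1 := hmem (aa (i + j)) (by simp [sp]) (by simp [yy, aa])
        have h2 := hmem (xx i) (by simp [sp]) (by simp [yy, xx])
        have h3 := mem_sp_aa.1 h1
        have h4 := mem_sp_xx.1 h2
        subst h4
        exact ⟨rfl, add_left_cancel h3⟩
    obtain ⟨rfl, rfl⟩ := heq
    apply hz
    rw [← h]
    exact mem_insert_self _ _

theorem baseM_exchange {X Y : Finset (El Z)} (hX : BaseM X) (hY : BaseM Y) {a : El Z}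
    (haX : a ∈ X) (haY : a ∉ Y) : ∃ b ∈ Y \ X, BaseM (insert b (X.erase a)) := by
  obtain ⟨b, hb, hb0⟩ := base0_exchange hX.1 hY.1 haX haY
  by_cases hsp : Special (insert b (X.erase a))
  swap
  · exact ⟨b, hb, hb0, hsp⟩
  have hbX : b ∉ X := (mem_sdiff.1 hb).2
  have hbXe : b ∉ X.erase a := fun h => hbX (mem_of_mem_erase h)
  by_cases hex : ∃ b' ∈ Y \ X, b' ≠ b
  · obtain ⟨b', hb', hne⟩ := hex
    have hb'X : b' ∉ X := (mem_sdiff.1 hb').2
    refine ⟨b', hb', ?_⟩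
    have := base_of_special_exchange hsp (b := b) (z := b') (mem_insert_self _ _) (by
      simp only [mem_insert, mem_erase, not_or, not_and]
      exact ⟨hne, fun _ => hb'X⟩)
    rwa [erase_insert hbXe] at this
  · exfalso
    push Not at hex
    apply hY.2
    have hYX : Y ⊆ insert b (X.erase a) := by
      intro w hw
      by_cases hwX : w ∈ X
      · refine mem_insert_of_mem (mem_erase.2 ⟨fun h => haY (h ▸ hw), hwX⟩)
      · rw [hex w (mem_sdiff.2 ⟨hw, hwX⟩)]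
        exact mem_insert_self _ _
    have hcY : #Y = 4 := by rw [← card_split]; exact hY.1.1
    have hcW : #(insert b (X.erase a)) = 4 := by rw [← card_split]; exact hb0.1
    rw [Finset.eq_of_subset_of_card_le hYX (by rw [hcY, hcW])]
    exact hsp

end Pool.Agent.Work.MP_b989b4_co
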