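import Mathlib
import Pool.Agent.Work.MP_b989b4_co.Mp

/-!
Counting the bases inside a subset of the ground set.
-/

namespace Pool.Agent.Work.MP_b989b4_co

open Finset
open scoped Classical

variable {Z : Type*}

theorem sum_split {α β : Type*} (R : Finset (α ⊕ β)) (g : Finset α → Finset β → ℕ) :
    ∑ B ∈ R.powerset, g B.toLeft B.toRight =
      ∑ B₁ ∈ R.toLeft.powerset, ∑ B₂ ∈ R.toRight.powerset, g B₁ B₂ := by
  rw [← Finset.sum_product' (f := fun a b => g a b)]
  refine Finset.sum_nbij' (fun B => (B.toLeft, B.toRight)) (fun p => p.1.disjSum p.2)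
    ?_ ?_ ?_ ?_ ?_
  · intro B hB
    rw [mem_powerset] at hB
    simp only [mem_product, mem_powerset]
    exact ⟨toLeft_subset_toLeft hB, toRight_subset_toRight hB⟩
  · rintro ⟨B1, B2⟩ hB
    simp only [mem_product, mem_powerset] at hB
    rw [mem_powerset, disjSum_subset]
    exact hB
  · intro B _
    exact toLeft_disjSum_toRight
  · rintro ⟨B1, B2⟩ _
    simp
  · intro B _
    rfl

theorem sum_three {β : Type*} (S : Finset β) (f : ℕ → ℕ) (hf : ∀ m, 3 ≤ m → f m = 0) :
    ∑ B ∈ S.powerset, f #B = f 0 + #S * f 1 + (#S).choose 2 * f 2 := by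
  rw [Finset.sum_powerset_apply_card]
  have h1 : ∑ m ∈ range (#S + 1), (#S).choose m • f m =
      ∑ m ∈ range (#S + 3), (#S).choose m • f m := by
    refine Finset.sum_subset (fun m hm => ?_) (fun m _ hm => ?_)
    · rw [mem_range] at hm ⊢; omega
    · rw [mem_range, not_lt] at hm
      rw [Nat.choose_eq_zero_of_lt (by omega)]; simp
  have h2 : ∑ m ∈ range 3, (#S).choose m • f m =
      ∑ m ∈ range (#S + 3), (#S).choose m • f m := by
    refine Finset.sum_subset (fun m hm => ?_) (fun m _ hm => ?_)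
    · rw [mem_range] at hm ⊢; omega
    · rw [mem_range, not_lt] at hm
      rw [hf m hm]; simp
  rw [h1, ← h2]
  simp [Finset.sum_range_succ]

theorem sum_unit (S : Finset Unit) (f : ℕ → ℕ) :
    ∑ B ∈ S.powerset, f #B = f 0 + #S * f 1 := by
  rcases Finset.eq_empty_or_nonempty S with rfl | h
  · simp
  · have : S = {()} := by
      ext u
      obtain ⟨v, hv⟩ := h
      cases u; cases v
      simp [hv]
    subst this
    have h2 : ({()} : Finset Unit).powerset = {∅, {()}} := by decide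
    rw [h2, Finset.sum_pair (by simp)]
    simp

/-- indicator of `Cond` -/
def phi (v0 v1 v2 v3 v4 : ℕ) : ℕ := if Cond v0 v1 v2 v3 v4 then 1 else 0

theorem phi_zero {v0 v1 v2 v3 v4 : ℕ} (h : ¬ Cond v0 v1 v2 v3 v4) : phi v0 v1 v2 v3 v4 = 0 :=
  if_neg h

/-- sum over the three big parts -/
def gsum (v0 v1 n h k : ℕ) : ℕ :=
  let f4 := fun v2 v3 => phi v0 v1 v2 v3 0 + k * phi v0 v1 v2 v3 1 + k.choose 2 * phi v0 v1 v2 v3 2
  let f3 := fun v2 => f4 v2 0 + h * f4 v2 1 + h.choose 2 * f4 v2 2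
  f3 0 + n * f3 1 + n.choose 2 * f3 2

/-- number of sets `B ⊆ R` satisfying `Base0` -/
noncomputable def b0 (R : Finset (El Z)) : ℕ := #{B ∈ R.powerset | Base0 B}

theorem b0_eq_sum (R : Finset (El Z)) :
    b0 R = gsum 0 0 #(pA R) #(pX R) #(pY R) + #(pC R) * gsum 0 1 #(pA R) #(pX R) #(pY R)
      + #(pT R) * (gsum 1 0 #(pA R) #(pX R) #(pY R) + #(pC R) * gsum 1 1 #(pA R) #(pX R) #(pY R)) := by
  unfold b0
  rw [Finset.card_filter]
  have e1 : ∑ B ∈ R.powerset, (if Base0 B then 1 else 0) =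
      ∑ B ∈ R.powerset, phi #(B.toLeft) #(B.toRight.toLeft) #(B.toRight.toRight.toLeft)
        #(B.toRight.toRight.toRight.toLeft) #(B.toRight.toRight.toRight.toRight) := by
    refine Finset.sum_congr rfl fun B _ => ?_
    unfold phi Base0 pT pC pA pX pY
    congr
  rw [e1]
  rw [sum_split R (fun B1 B2 => phi #B1 #(B2.toLeft) #(B2.toRight.toLeft)
        #(B2.toRight.toRight.toLeft) #(B2.toRight.toRight.toRight))]
  have e2 : ∀ B1 : Finset Unit, ∑ B2 ∈ R.toRight.powerset, phi #B1 #(B2.toLeft) #(B2.toRight.toLeft)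
        #(B2.toRight.toRight.toLeft) #(B2.toRight.toRight.toRight) =
      gsum #B1 0 #(pA R) #(pX R) #(pY R) + #(pC R) * gsum #B1 1 #(pA R) #(pX R) #(pY R) := by
    intro B1
    rw [sum_split R.toRight (fun B2 B3 => phi #B1 #B2 #(B3.toLeft)
        #(B3.toRight.toLeft) #(B3.toRight.toRight))]
    have e3 : ∀ B2 : Finset Unit, ∑ B3 ∈ R.toRight.toRight.powerset, phi #B1 #B2 #(B3.toLeft)
        #(B3.toRight.toLeft) #(B3.toRight.toRight) = gsum #B1 #B2 #(pA R) #(pX R) #(pY R) := by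
      intro B2
      rw [sum_split R.toRight.toRight (fun B3 B4 => phi #B1 #B2 #B3 #(B4.toLeft) #(B4.toRight))]
      have e4 : ∀ B3 : Finset Z, ∑ B4 ∈ R.toRight.toRight.toRight.powerset,
          phi #B1 #B2 #B3 #(B4.toLeft) #(B4.toRight) =
          (fun v2 => (fun v2 v3 => phi #B1 #B2 v2 v3 0 + #(pY R) * phi #B1 #B2 v2 v3 1
            + (#(pY R)).choose 2 * phi #B1 #B2 v2 v3 2) v2 0 +
            #(pX R) * (fun v2 v3 => phi #B1 #B2 v2 v3 0 + #(pY R) * phi #B1 #B2 v2 v3 1
            + (#(pY R)).choose 2 * phi #B1 #B2 v2 v3 2) v2 1 +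
            (#(pX R)).choose 2 * (fun v2 v3 => phi #B1 #B2 v2 v3 0 + #(pY R) * phi #B1 #B2 v2 v3 1
            + (#(pY R)).choose 2 * phi #B1 #B2 v2 v3 2) v2 2) #B3 := by
        intro B3
        rw [sum_split R.toRight.toRight.toRight (fun B4 B5 => phi #B1 #B2 #B3 #B4 #B5)]
        have e5 : ∀ B4 : Finset Z, ∑ B5 ∈ R.toRight.toRight.toRight.toRight.powerset,
            phi #B1 #B2 #B3 #B4 #B5 = (fun v3 => phi #B1 #B2 #B3 v3 0
            + #(pY R) * phi #B1 #B2 #B3 v3 1
            + (#(pY R)).choose 2 * phi #B1 #B2 #B3 v3 2) #B4 := by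
          intro B4
          exact sum_three _ (fun v => phi #B1 #B2 #B3 #B4 v) (by
            intro m hm; exact phi_zero (by unfold Cond; omega))
        simp_rw [e5]
        exact sum_three _ (fun v3 => phi #B1 #B2 #B3 v3 0 + #(pY R) * phi #B1 #B2 #B3 v3 1
            + (#(pY R)).choose 2 * phi #B1 #B2 #B3 v3 2) (by
            intro m hm
            rw [phi_zero (by unfold Cond; omega), phi_zero (by unfold Cond; omega),
              phi_zero (by unfold Cond; omega)]; simp)
      simp_rw [e4]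
      refine (sum_three _ (fun v2 => (fun v2 v3 => phi #B1 #B2 v2 v3 0 + #(pY R) * phi #B1 #B2 v2 v3 1
            + (#(pY R)).choose 2 * phi #B1 #B2 v2 v3 2) v2 0 +
            #(pX R) * (fun v2 v3 => phi #B1 #B2 v2 v3 0 + #(pY R) * phi #B1 #B2 v2 v3 1
            + (#(pY R)).choose 2 * phi #B1 #B2 v2 v3 2) v2 1 +
            (#(pX R)).choose 2 * (fun v2 v3 => phi #B1 #B2 v2 v3 0 + #(pY R) * phi #B1 #B2 v2 v3 1
            + (#(pY R)).choose 2 * phi #B1 #B2 v2 v3 2) v2 2) ?_).trans ?_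
      · intro m hm
        have : ∀ a b : ℕ, phi #B1 #B2 m a b = 0 := by
          intro a b; exact phi_zero (by unfold Cond; omega)
        simp [this]
      · rfl
    simp_rw [e3]
    exact sum_unit _ (fun v1 => gsum #B1 v1 #(pA R) #(pX R) #(pY R))
  simp_rw [e2]
  exact sum_unit _ (fun v0 => gsum v0 0 #(pA R) #(pX R) #(pY R)
    + #(pC R) * gsum v0 1 #(pA R) #(pX R) #(pY R))

theorem gsum00 (n h k : ℕ) : gsum 0 0 n h k =
    n.choose 2 * (h.choose 2 + h * k + k.choose 2) + n * (h.choose 2 * k + h * k.choose 2) := by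
  conv_lhs => simp [gsum, phi, Cond]
  ring
theorem gsum01 (n h k : ℕ) : gsum 0 1 n h k =
    n.choose 2 * (h + k) + n * (h.choose 2 + h * k + k.choose 2)
      + (h.choose 2 * k + h * k.choose 2) := by
  conv_lhs => simp [gsum, phi, Cond]
  ring
theorem gsum10 (n h k : ℕ) : gsum 1 0 n h k =
    n * (h.choose 2 + h * k + k.choose 2) := by
  conv_lhs => simp [gsum, phi, Cond]
  ring
theorem gsum11 (n h k : ℕ) : gsum 1 1 n h k =
    n * (h + k) + (h.choose 2 + h * k + k.choose 2) := by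
  conv_lhs => simp [gsum, phi, Cond]
  ring

variable [AddCommGroup Z]

/-- number of bases contained in `R` -/
noncomputable def bM (R : Finset (El Z)) : ℕ := #{B ∈ R.powerset | BaseM B}

/-- number of cells of `A × B` whose symbol lies in `S` -/
noncomputable def sC (S A B : Finset Z) : ℕ := #{p ∈ A ×ˢ B | p.1 + p.2 ∈ S}

theorem special_base0 {B : Finset (El Z)} (h : Special B) : Base0 B := by
  obtain ⟨i, j, rfl⟩ := h
  obtain ⟨q0, q1, q2, q3, q4⟩ := parts_sp i j
  unfold Base0 Cond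
  rw [q0, q1, q2, q3, q4]
  simp

theorem card_special (R : Finset (El Z)) :
    #{B ∈ R.powerset | Special B} = #(pC R) * sC (pA R) (pX R) (pY R) := by
  by_cases hc : cc ∈ R
  · have h1 : #(pC R) = 1 := by
      have : pC R = {()} := by ext w; rw [mem_pC]; simp [hc]
      rw [this]; simp
    rw [h1, one_mul, sC]
    symm
    refine Finset.card_bij (fun p _ => sp p.1 p.2) ?_ ?_ ?_
    · rintro ⟨i, j⟩ hp
      simp only [mem_filter, mem_product, mem_pX, mem_pY, mem_pA] at hp
      rw [mem_filter, mem_powerset]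
      refine ⟨?_, ⟨i, j, rfl⟩⟩
      intro w hw
      simp only [sp, mem_insert, mem_singleton] at hw
      rcases hw with rfl | rfl | rfl | rfl
      · exact hc
      · exact hp.2
      · exact hp.1.1
      · exact hp.1.2
    · rintro ⟨i, j⟩ _ ⟨i', j'⟩ _ h
      simp only at h
      have h1 : xx i ∈ sp i' j' := by rw [← h]; exact mem_sp_xx.2 rfl
      have h2 : yy j ∈ sp i' j' := by rw [← h]; exact mem_sp_yy.2 rfl
      rw [mem_sp_xx] at h1
      rw [mem_sp_yy] at h2
      rw [h1, h2]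
    · intro B hB
      rw [mem_filter, mem_powerset] at hB
      obtain ⟨hBR, i, j, rfl⟩ := hB
      refine ⟨(i, j), ?_, rfl⟩
      simp only [mem_filter, mem_product, mem_pX, mem_pY, mem_pA]
      exact ⟨⟨hBR (mem_sp_xx.2 rfl), hBR (mem_sp_yy.2 rfl)⟩, hBR (mem_sp_aa.2 rfl)⟩
  · have h1 : #(pC R) = 0 := by
      rw [card_eq_zero, eq_empty_iff_forall_notMem]
      intro w; rw [mem_pC]; exact hc
    rw [h1, zero_mul, card_eq_zero, eq_empty_iff_forall_notMem]
    intro B hB
    rw [mem_filter, mem_powerset] at hB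
    obtain ⟨hBR, i, j, rfl⟩ := hB
    exact hc (hBR (by simp [sp]))

theorem bM_add (R : Finset (El Z)) :
    bM R + #(pC R) * sC (pA R) (pX R) (pY R) = b0 R := by
  rw [← card_special, bM, b0, ← Finset.card_union_of_disjoint]
  · congr 1
    ext B
    rw [mem_union, mem_filter, mem_filter, mem_filter]
    constructor
    · rintro (h | h)
      · exact ⟨h.1, h.2.1⟩
      · exact ⟨h.1, special_base0 h.2⟩
    · rintro ⟨h1, h2⟩
      by_cases h : Special B
      · exact Or.inr ⟨h1, h⟩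
      · exact Or.inl ⟨h1, h2, h⟩
  · rw [Finset.disjoint_left]
    intro B hB hB'
    rw [mem_filter] at hB hB'
    exact hB.2.2 hB'.2

/-- binomial `m choose 2` as a rational number -/
def c2 (m : ℚ) : ℚ := m * (m - 1) / 2

theorem choose_two_cast (m : ℕ) : ((m.choose 2 : ℕ) : ℚ) = c2 m := by
  rw [Nat.cast_choose_two, c2]

/-- the polynomial counting bases -/
def FF (u v n h k : ℚ) : ℚ :=
  (c2 n * c2 (h + k) + n * (h * k * (h + k - 2) / 2))
  + v * (c2 n * (h + k) + n * c2 (h + k) + h * k * (h + k - 2) / 2)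
  + u * (n * c2 (h + k)) + u * v * (n * (h + k) + c2 (h + k))

theorem bM_formula (R : Finset (El Z)) :
    (bM R : ℚ) = FF #(pT R) #(pC R) #(pA R) #(pX R) #(pY R)
      - #(pC R) * sC (pA R) (pX R) (pY R) := by
  have h1 := bM_add R
  have h2 : (bM R : ℚ) + #(pC R) * sC (pA R) (pX R) (pY R) = (b0 R : ℚ) := by exact_mod_cast h1
  rw [b0_eq_sum, gsum00, gsum01, gsum10, gsum11] at h2
  push_cast at h2
  simp only [choose_two_cast] at h2
  rw [eq_sub_iff_add_eq, h2]
  unfold FF c2
  ring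

end Pool.Agent.Work.MP_b989b4_co
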