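import Pool.Agent.Work.MP_b989b4_co.Pairs

/-!
The correlation inequality on the ground set; the pair `{t, c}` and Cauchy-Davenport.
-/

namespace Pool.Agent.Work.MP_b989b4_co

open Finset
open scoped Classical

section parts
variable {Z : Type*}

theorem pT_tt (Q : Finset (El Z)) : pT (insert tt Q) = {()} := by
  ext w; rw [mem_pT]; simp
theorem pT_cc (Q : Finset (El Z)) : pT (insert cc Q) = pT Q := by
  ext w; simp [mem_pT, tt, cc]
theorem pT_aa (Q : Finset (El Z)) (s : Z) : pT (insert (aa s) Q) = pT Q := by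
  ext w; simp [mem_pT, tt, aa]
theorem pT_xx (Q : Finset (El Z)) (s : Z) : pT (insert (xx s) Q) = pT Q := by
  ext w; simp [mem_pT, tt, xx]
theorem pT_yy (Q : Finset (El Z)) (s : Z) : pT (insert (yy s) Q) = pT Q := by
  ext w; simp [mem_pT, tt, yy]
theorem pC_tt (Q : Finset (El Z)) : pC (insert tt Q) = pC Q := by
  ext w; simp [mem_pC, tt, cc]
theorem pC_cc (Q : Finset (El Z)) : pC (insert cc Q) = {()} := by
  ext w; rw [mem_pC]; simp
theorem pC_aa (Q : Finset (El Z)) (s : Z) : pC (insert (aa s) Q) = pC Q := by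
  ext w; simp [mem_pC, cc, aa]
theorem pC_xx (Q : Finset (El Z)) (s : Z) : pC (insert (xx s) Q) = pC Q := by
  ext w; simp [mem_pC, cc, xx]
theorem pC_yy (Q : Finset (El Z)) (s : Z) : pC (insert (yy s) Q) = pC Q := by
  ext w; simp [mem_pC, cc, yy]
theorem pA_tt (Q : Finset (El Z)) : pA (insert tt Q) = pA Q := by
  ext w; simp [mem_pA, tt, aa]
theorem pA_cc (Q : Finset (El Z)) : pA (insert cc Q) = pA Q := by
  ext w; simp [mem_pA, cc, aa]
theorem pA_aa (Q : Finset (El Z)) (s : Z) : pA (insert (aa s) Q) = insert s (pA Q) := by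
  ext w; simp [mem_pA, aa]
theorem pA_xx (Q : Finset (El Z)) (s : Z) : pA (insert (xx s) Q) = pA Q := by
  ext w; simp [mem_pA, aa, xx]
theorem pA_yy (Q : Finset (El Z)) (s : Z) : pA (insert (yy s) Q) = pA Q := by
  ext w; simp [mem_pA, aa, yy]
theorem pX_tt (Q : Finset (El Z)) : pX (insert tt Q) = pX Q := by
  ext w; simp [mem_pX, tt, xx]
theorem pX_cc (Q : Finset (El Z)) : pX (insert cc Q) = pX Q := by
  ext w; simp [mem_pX, cc, xx]
theorem pX_aa (Q : Finset (El Z)) (s : Z) : pX (insert (aa s) Q) = pX Q := by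
  ext w; simp [mem_pX, xx, aa]
theorem pX_xx (Q : Finset (El Z)) (s : Z) : pX (insert (xx s) Q) = insert s (pX Q) := by
  ext w; simp [mem_pX, xx]
theorem pX_yy (Q : Finset (El Z)) (s : Z) : pX (insert (yy s) Q) = pX Q := by
  ext w; simp [mem_pX, xx, yy]
theorem pY_tt (Q : Finset (El Z)) : pY (insert tt Q) = pY Q := by
  ext w; simp [mem_pY, tt, yy]
theorem pY_cc (Q : Finset (El Z)) : pY (insert cc Q) = pY Q := by
  ext w; simp [mem_pY, cc, yy]
theorem pY_aa (Q : Finset (El Z)) (s : Z) : pY (insert (aa s) Q) = pY Q := by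
  ext w; simp [mem_pY, yy, aa]
theorem pY_xx (Q : Finset (El Z)) (s : Z) : pY (insert (xx s) Q) = pY Q := by
  ext w; simp [mem_pY, xx, yy]
theorem pY_yy (Q : Finset (El Z)) (s : Z) : pY (insert (yy s) Q) = insert s (pY Q) := by
  ext w; simp [mem_pY, yy]

theorem pT_empty {Q : Finset (El Z)} (h : tt ∉ Q) : pT Q = ∅ := by
  ext w; simp [mem_pT, h]
theorem pC_empty {Q : Finset (El Z)} (h : cc ∉ Q) : pC Q = ∅ := by
  ext w; simp [mem_pC, h]

theorem pT01 (Q : Finset (El Z)) : (#(pT Q) : ℚ) = 0 ∨ (#(pT Q) : ℚ) = 1 := by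
  have := card_pT_le Q
  have h : #(pT Q) = 0 ∨ #(pT Q) = 1 := by omega
  rcases h with h | h <;> simp [h]

theorem pC01 (Q : Finset (El Z)) : (#(pC Q) : ℚ) = 0 ∨ (#(pC Q) : ℚ) = 1 := by
  have := card_pC_le Q
  have h : #(pC Q) = 0 ∨ #(pC Q) = 1 := by omega
  rcases h with h | h <;> simp [h]

theorem El_or (e : El Z) : e = tt ∨ e = cc ∨ (∃ s, e = aa s) ∨ (∃ s, e = xx s) ∨
    (∃ s, e = yy s) := by
  rcases e with u | u | s | s | s
  · exact Or.inl rfl
  · exact Or.inr (Or.inl rfl)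
  · exact Or.inr (Or.inr (Or.inl ⟨s, rfl⟩))
  · exact Or.inr (Or.inr (Or.inr (Or.inl ⟨s, rfl⟩)))
  · exact Or.inr (Or.inr (Or.inr (Or.inr ⟨s, rfl⟩)))

end parts

variable {Z : Type*} [AddCommGroup Z]

/-- the correlation inequality for `e, f` in the restriction to `Q ∪ {e, f}` -/
def Pair (Q : Finset (El Z)) (e f : El Z) : Prop :=
  ((bM (insert e (insert f Q)) : ℚ) - bM (insert e Q) - bM (insert f Q) + bM Q) * bM Q ≤
    ((bM (insert e Q) : ℚ) - bM Q) * (bM (insert f Q) - bM Q)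

theorem Pair.symm {Q : Finset (El Z)} {e f : El Z} (h : Pair Q e f) : Pair Q f e := by
  unfold Pair at *
  rw [Finset.insert_comm f e Q]
  linarith

theorem pair_good (Q : Finset (El Z)) (e f : El Z) (he : e ∉ Q) (hf : f ∉ Q) (hne : e ≠ f)
    (h1 : ¬ (e = tt ∧ f = cc)) (h2 : ¬ (e = cc ∧ f = tt)) : Pair Q e f := by
  have h0 : (0 : ℚ) ≤ bM Q := Nat.cast_nonneg _
  rw [bM_eq] at h0
  have hu := pT01 Q
  have hv := pC01 Q
  rcases El_or e with rfl | rfl | ⟨s, rfl⟩ | ⟨s, rfl⟩ | ⟨s, rfl⟩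
  · have ht : (#(pT Q) : ℚ) = 0 := by rw [pT_empty he]; simp
    rw [ht] at h0
    rcases El_or f with rfl | rfl | ⟨s', rfl⟩ | ⟨s', rfl⟩ | ⟨s', rfl⟩
    · exact absurd rfl hne
    · exact absurd ⟨rfl, rfl⟩ h1
    · unfold Pair
      simp only [bM_eq, pT_tt, pT_aa, pC_tt, pC_aa, pA_tt, pA_aa, pX_tt, pX_aa, pY_tt, pY_aa, ht,
        card_singleton, Nat.cast_one]
      exact gta hv (fun h => hf (mem_pA.1 h)) h0
    · unfold Pair
      simp only [bM_eq, pT_tt, pT_xx, pC_tt, pC_xx, pA_tt, pA_xx, pX_tt, pX_xx, pY_tt, pY_xx, ht,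
        card_singleton, Nat.cast_one]
      exact gtx hv (fun h => hf (mem_pX.1 h)) h0
    · unfold Pair
      simp only [bM_eq, pT_tt, pT_yy, pC_tt, pC_yy, pA_tt, pA_yy, pX_tt, pX_yy, pY_tt, pY_yy, ht,
        card_singleton, Nat.cast_one]
      exact gty hv (fun h => hf (mem_pY.1 h)) h0
  · have ht : (#(pC Q) : ℚ) = 0 := by rw [pC_empty he]; simp
    rw [ht] at h0
    rcases El_or f with rfl | rfl | ⟨s', rfl⟩ | ⟨s', rfl⟩ | ⟨s', rfl⟩
    · exact absurd ⟨rfl, rfl⟩ h2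
    · exact absurd rfl hne
    · unfold Pair
      simp only [bM_eq, pT_cc, pT_aa, pC_cc, pC_aa, pA_cc, pA_aa, pX_cc, pX_aa, pY_cc, pY_aa, ht,
        card_singleton, Nat.cast_one]
      exact gca hu (fun h => hf (mem_pA.1 h)) h0
    · unfold Pair
      simp only [bM_eq, pT_cc, pT_xx, pC_cc, pC_xx, pA_cc, pA_xx, pX_cc, pX_xx, pY_cc, pY_xx, ht,
        card_singleton, Nat.cast_one]
      exact gcx hu (fun h => hf (mem_pX.1 h)) h0
    · unfold Pair
      simp only [bM_eq, pT_cc, pT_yy, pC_cc, pC_yy, pA_cc, pA_yy, pX_cc, pX_yy, pY_cc, pY_yy, ht,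
        card_singleton, Nat.cast_one]
      exact gcy hu (fun h => hf (mem_pY.1 h)) h0
  · have hs : s ∉ pA Q := fun h => he (mem_pA.1 h)
    rcases El_or f with rfl | rfl | ⟨s', rfl⟩ | ⟨s', rfl⟩ | ⟨s', rfl⟩
    · apply Pair.symm
      have ht : (#(pT Q) : ℚ) = 0 := by rw [pT_empty hf]; simp
      rw [ht] at h0
      unfold Pair
      simp only [bM_eq, pT_tt, pT_aa, pC_tt, pC_aa, pA_tt, pA_aa, pX_tt, pX_aa, pY_tt, pY_aa, ht,
        card_singleton, Nat.cast_one]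
      exact gta hv hs h0
    · apply Pair.symm
      have ht : (#(pC Q) : ℚ) = 0 := by rw [pC_empty hf]; simp
      rw [ht] at h0
      unfold Pair
      simp only [bM_eq, pT_cc, pT_aa, pC_cc, pC_aa, pA_cc, pA_aa, pX_cc, pX_aa, pY_cc, pY_aa, ht,
        card_singleton, Nat.cast_one]
      exact gca hu hs h0
    · unfold Pair
      simp only [bM_eq, pT_aa, pC_aa, pA_aa, pX_aa, pY_aa]
      exact gaa hu hv hs (fun h => hf (mem_pA.1 h)) (fun h => hne (by rw [h])) h0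
    · unfold Pair
      simp only [bM_eq, pT_aa, pC_aa, pA_aa, pX_aa, pY_aa, pT_xx, pC_xx, pA_xx, pX_xx, pY_xx]
      exact gax hu hv hs (fun h => hf (mem_pX.1 h)) h0
    · unfold Pair
      simp only [bM_eq, pT_aa, pC_aa, pA_aa, pX_aa, pY_aa, pT_yy, pC_yy, pA_yy, pX_yy, pY_yy]
      exact gay hu hv hs (fun h => hf (mem_pY.1 h)) h0
  · have hs : s ∉ pX Q := fun h => he (mem_pX.1 h)
    rcases El_or f with rfl | rfl | ⟨s', rfl⟩ | ⟨s', rfl⟩ | ⟨s', rfl⟩
    · apply Pair.symm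
      have ht : (#(pT Q) : ℚ) = 0 := by rw [pT_empty hf]; simp
      rw [ht] at h0
      unfold Pair
      simp only [bM_eq, pT_tt, pT_xx, pC_tt, pC_xx, pA_tt, pA_xx, pX_tt, pX_xx, pY_tt, pY_xx, ht,
        card_singleton, Nat.cast_one]
      exact gtx hv hs h0
    · apply Pair.symm
      have ht : (#(pC Q) : ℚ) = 0 := by rw [pC_empty hf]; simp
      rw [ht] at h0
      unfold Pair
      simp only [bM_eq, pT_cc, pT_xx, pC_cc, pC_xx, pA_cc, pA_xx, pX_cc, pX_xx, pY_cc, pY_xx, ht,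
        card_singleton, Nat.cast_one]
      exact gcx hu hs h0
    · apply Pair.symm
      unfold Pair
      simp only [bM_eq, pT_aa, pC_aa, pA_aa, pX_aa, pY_aa, pT_xx, pC_xx, pA_xx, pX_xx, pY_xx]
      exact gax hu hv (fun h => hf (mem_pA.1 h)) hs h0
    · unfold Pair
      simp only [bM_eq, pT_xx, pC_xx, pA_xx, pX_xx, pY_xx]
      exact gxx hu hv hs (fun h => hf (mem_pX.1 h)) (fun h => hne (by rw [h])) h0
    · unfold Pair
      simp only [bM_eq, pT_xx, pC_xx, pA_xx, pX_xx, pY_xx, pT_yy, pC_yy, pA_yy, pX_yy, pY_yy]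
      exact gxy hu hv hs (fun h => hf (mem_pY.1 h)) h0
  · have hs : s ∉ pY Q := fun h => he (mem_pY.1 h)
    rcases El_or f with rfl | rfl | ⟨s', rfl⟩ | ⟨s', rfl⟩ | ⟨s', rfl⟩
    · apply Pair.symm
      have ht : (#(pT Q) : ℚ) = 0 := by rw [pT_empty hf]; simp
      rw [ht] at h0
      unfold Pair
      simp only [bM_eq, pT_tt, pT_yy, pC_tt, pC_yy, pA_tt, pA_yy, pX_tt, pX_yy, pY_tt, pY_yy, ht,
        card_singleton, Nat.cast_one]
      exact gty hv hs h0
    · apply Pair.symm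
      have ht : (#(pC Q) : ℚ) = 0 := by rw [pC_empty hf]; simp
      rw [ht] at h0
      unfold Pair
      simp only [bM_eq, pT_cc, pT_yy, pC_cc, pC_yy, pA_cc, pA_yy, pX_cc, pX_yy, pY_cc, pY_yy, ht,
        card_singleton, Nat.cast_one]
      exact gcy hu hs h0
    · apply Pair.symm
      unfold Pair
      simp only [bM_eq, pT_aa, pC_aa, pA_aa, pX_aa, pY_aa, pT_yy, pC_yy, pA_yy, pX_yy, pY_yy]
      exact gay hu hv (fun h => hf (mem_pA.1 h)) hs h0
    · apply Pair.symm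
      unfold Pair
      simp only [bM_eq, pT_xx, pC_xx, pA_xx, pX_xx, pY_xx, pT_yy, pC_yy, pA_yy, pX_yy, pY_yy]
      exact gxy hu hv (fun h => hf (mem_pX.1 h)) hs h0
    · unfold Pair
      simp only [bM_eq, pT_yy, pC_yy, pA_yy, pX_yy, pY_yy]
      exact gyy hu hv hs (fun h => hf (mem_pY.1 h)) (fun h => hne (by rw [h])) h0

/-! ### the pair `{t, c}` -/

theorem tc_identity (n h k c0 : ℚ) :
    (FF 1 0 n h k - FF 0 0 n h k) * (FF 0 1 n h k - c0 - FF 0 0 n h k) -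
      (FF 1 1 n h k - c0 - FF 1 0 n h k - (FF 0 1 n h k - c0) + FF 0 0 n h k) * FF 0 0 n h k =
    n * (h + k) / 8 * (n * ((h + k) + (h - k) ^ 2 * ((h + k) - 2)) +
      ((h + k) - 1) * ((h - k) ^ 2 + 4 * (h * k - c0) - (h + k))) := by
  unfold FF c2; ring

theorem num_tc (n h k : ℕ) (c0 : ℚ) (hc0 : 0 ≤ c0) (hc : c0 ≤ h * k)
    (hD : h = 0 ∨ k = 0 ∨ (h + k - 1 - n : ℚ) ≤ h * k - c0) :
    (FF 1 1 n h k - c0 - FF 1 0 n h k - (FF 0 1 n h k - c0) + FF 0 0 n h k) * FF 0 0 n h k ≤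
    (FF 1 0 n h k - FF 0 0 n h k) * (FF 0 1 n h k - c0 - FF 0 0 n h k) := by
  rw [← sub_nonneg, tc_identity]
  have hn : (0 : ℚ) ≤ n := Nat.cast_nonneg _
  have hh : (0 : ℚ) ≤ h := Nat.cast_nonneg _
  have hk : (0 : ℚ) ≤ k := Nat.cast_nonneg _
  have key : (0 : ℚ) ≤ n * ((h + k) + (h - k) ^ 2 * ((h + k) - 2)) +
      ((h + k) - 1) * ((h - k) ^ 2 + 4 * (h * k - c0) - (h + k)) := by
    rcases Nat.eq_zero_or_pos h with rfl | h1
    · simp only [Nat.cast_zero, zero_mul] at hc ⊢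
      have hc' : c0 = 0 := le_antisymm hc hc0
      subst hc'
      have : (n : ℚ) * ((0 + k) + (0 - k) ^ 2 * ((0 + k) - 2)) +
        ((0 + k) - 1) * ((0 - k) ^ 2 + 4 * (0 - 0) - (0 + k)) =
        n * k * (k - 1) ^ 2 + k * (k - 1) ^ 2 := by ring
      rw [this]
      positivity
    rcases Nat.eq_zero_or_pos k with rfl | k1
    · simp only [Nat.cast_zero, mul_zero] at hc ⊢
      have hc' : c0 = 0 := le_antisymm hc hc0
      subst hc'
      have : (n : ℚ) * ((h + 0) + (h - 0) ^ 2 * ((h + 0) - 2)) +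
        ((h + 0) - 1) * ((h - 0) ^ 2 + 4 * (0 - 0) - (h + 0)) =
        n * h * (h - 1) ^ 2 + h * (h - 1) ^ 2 := by ring
      rw [this]
      positivity
    have hD' : (h + k - 1 - n : ℚ) ≤ h * k - c0 := by
      rcases hD with h' | h' | h'
      · omega
      · omega
      · exact h'
    have h1' : (1 : ℚ) ≤ h := by exact_mod_cast h1
    have k1' : (1 : ℚ) ≤ k := by exact_mod_cast k1
    set m : ℚ := h + k with hm
    set D : ℚ := h * k - c0 with hDdef
    have hm2 : 2 ≤ m := by linarith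
    have hD0 : 0 ≤ D := by linarith
    have hδ : 0 ≤ ((h : ℚ) - k) ^ 2 := sq_nonneg _
    have e1 : 0 ≤ (n : ℚ) * (((h : ℚ) - k) ^ 2 * (m - 2)) := by
      have : 0 ≤ m - 2 := by linarith
      positivity
    have e2 : 0 ≤ (m - 1) * ((h : ℚ) - k) ^ 2 := by
      have : 0 ≤ m - 1 := by linarith
      positivity
    rcases le_total (m - 1) n with hn1 | hn1
    · have e3 : 0 ≤ (m - 1) * D := by
        have : 0 ≤ m - 1 := by linarith
        positivity
      have e4 : 0 ≤ (n - (m - 1)) * m := by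
        apply mul_nonneg <;> linarith
      nlinarith
    · have e3 : 0 ≤ (m - 1) * (D - (m - 1 - n)) := by
        apply mul_nonneg <;> linarith
      have e4 : 0 ≤ ((m - 1) - n) * (3 * m - 4) := by
        apply mul_nonneg <;> linarith
      nlinarith
  positivity

open scoped Pointwise in
theorem sC_CD {p : ℕ} (hp : p.Prime) (S A B : Finset (ZMod p)) (hA : A.Nonempty)
    (hB : B.Nonempty) (h : #A + #B ≤ p + 1) : #A + #B + sC S A B ≤ #A * #B + #S + 1 := by
  have h1 := ZMod.cauchy_davenport hp hA hB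
  have h2 : min p (#A + #B - 1) = #A + #B - 1 := by omega
  rw [h2] at h1
  have h3 : sC S A B + #{q ∈ A ×ˢ B | ¬ (q.1 + q.2 ∈ S)} = #A * #B := by
    unfold sC
    rw [Finset.card_filter_add_card_filter_not, card_product]
  have h4 : #((A + B) \ S) ≤ #{q ∈ A ×ˢ B | ¬ (q.1 + q.2 ∈ S)} := by
    have : (A + B) \ S ⊆ ({q ∈ A ×ˢ B | ¬ (q.1 + q.2 ∈ S)}).image (fun q => q.1 + q.2) := by
      intro w hw
      rw [mem_sdiff, Finset.mem_add] at hw
      obtain ⟨⟨i, hi, j, hj, rfl⟩, hw⟩ := hw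
      rw [mem_image]
      exact ⟨(i, j), by simp [hi, hj, hw], rfl⟩
    exact (card_le_card this).trans card_image_le
  have h5 : #(A + B) - #S ≤ #((A + B) \ S) := le_card_sdiff _ _
  have h6 : 0 < #A := hA.card_pos
  omega

theorem pair_tc {p : ℕ} (hp : p.Prime) (Q : Finset (El (ZMod p))) (ht : tt ∉ Q) (hc : cc ∉ Q)
    (h : #(pX Q) + #(pY Q) ≤ p + 1) : Pair Q tt cc := by
  have ht' : (#(pT Q) : ℚ) = 0 := by rw [pT_empty ht]; simp
  have hc' : (#(pC Q) : ℚ) = 0 := by rw [pC_empty hc]; simp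
  unfold Pair
  simp only [bM_eq, pT_tt, pT_cc, pC_tt, pC_cc, pA_tt, pA_cc, pX_tt, pX_cc, pY_tt, pY_cc, ht', hc',
    card_singleton, Nat.cast_one]
  have b3 := sC_le_AB (pA Q) (pX Q) (pY Q)
  have hD : #(pX Q) = 0 ∨ #(pY Q) = 0 ∨
      (#(pX Q) + #(pY Q) - 1 - #(pA Q) : ℚ) ≤ #(pX Q) * #(pY Q) - sC (pA Q) (pX Q) (pY Q) := by
    rcases Finset.eq_empty_or_nonempty (pX Q) with h1 | h1
    · left; rw [h1]; simp
    rcases Finset.eq_empty_or_nonempty (pY Q) with h2 | h2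
    · right; left; rw [h2]; simp
    right; right
    have := sC_CD hp (pA Q) (pX Q) (pY Q) h1 h2 h
    have : (#(pX Q) + #(pY Q) + sC (pA Q) (pX Q) (pY Q) : ℚ) ≤
      #(pX Q) * #(pY Q) + #(pA Q) + 1 := by exact_mod_cast this
    linarith
  have key := num_tc #(pA Q) #(pX Q) #(pY Q) (sC (pA Q) (pX Q) (pY Q)) (Nat.cast_nonneg _)
    (by exact_mod_cast b3) hD
  unfold G
  calc _ = _ := by ring
    _ ≤ _ := key
    _ = _ := by ring

/-- the full matroid is bad for the pair `{t, c}` -/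
theorem pair_tc_bad {p : ℕ} (hp : p.Prime) [Fintype (ZMod p)] (Q : Finset (El (ZMod p)))
    (ht : tt ∉ Q) (hc : cc ∉ Q) (hQ : ∀ e, e ≠ tt → e ≠ cc → e ∈ Q) : ¬ Pair Q tt cc := by
  have ht' : (#(pT Q) : ℚ) = 0 := by rw [pT_empty ht]; simp
  have hc' : (#(pC Q) : ℚ) = 0 := by rw [pC_empty hc]; simp
  unfold Pair
  simp only [bM_eq, pT_tt, pT_cc, pC_tt, pC_cc, pA_tt, pA_cc, pX_tt, pX_cc, pY_tt, pY_cc, ht', hc',
    card_singleton, Nat.cast_one]
  have eA : pA Q = univ := by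
    ext w; simp only [mem_pA, mem_univ, iff_true]; exact hQ _ (by simp [aa, tt]) (by simp [aa, cc])
  have eX : pX Q = univ := by
    ext w; simp only [mem_pX, mem_univ, iff_true]; exact hQ _ (by simp [xx, tt]) (by simp [xx, cc])
  have eY : pY Q = univ := by
    ext w; simp only [mem_pY, mem_univ, iff_true]; exact hQ _ (by simp [yy, tt]) (by simp [yy, cc])
  have hcard : #(univ : Finset (ZMod p)) = p := by
    rw [card_univ, ZMod.card]
  have hs : sC (univ : Finset (ZMod p)) univ univ = p * p := by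
    unfold sC
    simp only [mem_univ, filter_true, card_product, hcard]
  rw [eA, eX, eY]
  unfold G
  rw [hs, hcard, not_le]
  have hid := tc_identity (p : ℚ) p p (p * p)
  have hp2 : (2 : ℚ) ≤ p := by exact_mod_cast hp.two_le
  have h3 : (p : ℚ) * (p + p) / 8 * (p * ((p + p) + (p - p) ^ 2 * ((p + p) - 2)) +
      ((p + p) - 1) * ((p - p) ^ 2 + 4 * (p * p - p * p) - (p + p))) =
      - ((p : ℚ) ^ 3 * (p - 1) / 2) := by ring
  rw [h3] at hid
  have h4 : (0 : ℚ) < (p : ℚ) ^ 3 * (p - 1) / 2 := by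
    have : (0 : ℚ) < p - 1 := by linarith
    positivity
  push_cast
  nlinarith

end Pool.Agent.Work.MP_b989b4_co
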