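import Pool.Agent.Work.MP_b989b4_co.RankLow
import Pool.Agent.Work.MP_b989b4_co.Good

/-!
Relations between counts of bases.
-/

namespace Pool.Agent.Work.MP_b989b4_co

open Finset
open scoped Classical

section general
variable {α : Type*}

/-- all bases inside `Y` -/
noncomputable def allB (N : Matroid α) (Y : Finset α) : Finset (Finset α) :=
  fam N Y (fun _ => True)

theorem mem_allB {N : Matroid α} {Y B : Finset α} : B ∈ allB N Y ↔ B ⊆ Y ∧ N.IsBase (B : Set α) := by
  unfold allB; rw [mem_fam]; tauto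

theorem fam_split [DecidableEq α] {N : Matroid α} {W : Finset α} {e f : α} (he : e ∉ W) (hf : f ∉ W)
    (hne : e ≠ f) :
    #(fam N (insert e (insert f W)) (fun B => e ∉ B ∧ f ∉ B)) = #(allB N W) ∧
    #(fam N (insert e (insert f W)) (fun B => e ∈ B ∧ f ∉ B)) + #(allB N W) =
      #(allB N (insert e W)) ∧
    #(fam N (insert e (insert f W)) (fun B => e ∉ B ∧ f ∈ B)) + #(allB N W) =
      #(allB N (insert f W)) ∧
    #(fam N (insert e (insert f W)) (fun B => e ∈ B ∧ f ∈ B)) +
      #(fam N (insert e (insert f W)) (fun B => e ∈ B ∧ f ∉ B)) +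
      #(fam N (insert e (insert f W)) (fun B => e ∉ B ∧ f ∈ B)) +
      #(fam N (insert e (insert f W)) (fun B => e ∉ B ∧ f ∉ B)) =
      #(allB N (insert e (insert f W))) := by
  set Y := insert e (insert f W) with hY
  have sub1 : ∀ B : Finset α, B ⊆ W ↔ B ⊆ Y ∧ e ∉ B ∧ f ∉ B := by
    intro B
    constructor
    · intro h
      refine ⟨fun w hw => ?_, fun h' => he (h h'), fun h' => hf (h h')⟩
      rw [hY, mem_insert, mem_insert]; exact Or.inr (Or.inr (h hw))
    · rintro ⟨h1, h2, h3⟩ w hw
      have := h1 hw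
      rw [hY, mem_insert, mem_insert] at this
      rcases this with rfl | rfl | h
      · exact absurd hw h2
      · exact absurd hw h3
      · exact h
  have sub2 : ∀ B : Finset α, B ⊆ insert e W ↔ B ⊆ Y ∧ f ∉ B := by
    intro B
    constructor
    · intro h
      refine ⟨fun w hw => ?_, fun h' => ?_⟩
      · have := h hw
        rw [mem_insert] at this
        rw [hY, mem_insert, mem_insert]; tauto
      · have := h h'
        rw [mem_insert] at this
        rcases this with h | h
        · exact hne h.symm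
        · exact hf h
    · rintro ⟨h1, h3⟩ w hw
      have := h1 hw
      rw [hY, mem_insert, mem_insert] at this
      rw [mem_insert]
      rcases this with rfl | rfl | h
      · exact Or.inl rfl
      · exact absurd hw h3
      · exact Or.inr h
  have sub3 : ∀ B : Finset α, B ⊆ insert f W ↔ B ⊆ Y ∧ e ∉ B := by
    intro B
    constructor
    · intro h
      refine ⟨fun w hw => ?_, fun h' => ?_⟩
      · have := h hw
        rw [mem_insert] at this
        rw [hY, mem_insert, mem_insert]; tauto
      · have := h h'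
        rw [mem_insert] at this
        rcases this with h | h
        · exact hne h
        · exact he h
    · rintro ⟨h1, h3⟩ w hw
      have := h1 hw
      rw [hY, mem_insert, mem_insert] at this
      rw [mem_insert]
      rcases this with rfl | rfl | h
      · exact absurd hw h3
      · exact Or.inl rfl
      · exact Or.inr h
  have e1 : allB N W = fam N Y (fun B => e ∉ B ∧ f ∉ B) := by
    ext B; rw [mem_allB, mem_fam, sub1]; tauto
  refine ⟨by rw [e1], ?_, ?_, ?_⟩
  · rw [e1, ← card_union_of_disjoint]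
    · congr 1
      ext B; rw [mem_union, mem_fam, mem_fam, mem_allB, sub2]; tauto
    · rw [Finset.disjoint_left]
      intro B hB hB'
      rw [mem_fam] at hB hB'
      exact hB'.2.2.1 hB.2.2.1
  · rw [e1, ← card_union_of_disjoint]
    · congr 1
      ext B; rw [mem_union, mem_fam, mem_fam, mem_allB, sub3]; tauto
    · rw [Finset.disjoint_left]
      intro B hB hB'
      rw [mem_fam] at hB hB'
      exact hB'.2.2.2 hB.2.2.2
  · rw [← card_union_of_disjoint, ← card_union_of_disjoint, ← card_union_of_disjoint]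
    · congr 1
      ext B; rw [mem_union, mem_union, mem_union, mem_fam, mem_fam, mem_fam, mem_fam, mem_allB]
      tauto
    · rw [Finset.disjoint_left]
      intro B hB hB'
      rw [mem_union, mem_union, mem_fam, mem_fam, mem_fam] at hB
      rw [mem_fam] at hB'
      tauto
    · rw [Finset.disjoint_left]
      intro B hB hB'
      rw [mem_union, mem_fam, mem_fam] at hB
      rw [mem_fam] at hB'
      tauto
    · rw [Finset.disjoint_left]
      intro B hB hB'
      rw [mem_fam] at hB hB'
      tauto

end general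

section fin

variable {k : ℕ}

theorem ncard_eq (N : Matroid (Fin k)) (P : Set (Fin k) → Prop) :
    Set.ncard {B : Set (Fin k) | N.IsBase B ∧ P B} =
      #(fam N univ (fun B => P (B : Set (Fin k)))) := by
  have : {B : Set (Fin k) | N.IsBase B ∧ P B} =
      (fun F : Finset (Fin k) => (F : Set (Fin k))) ''
        (fam N univ (fun B => P (B : Set (Fin k))) : Set (Finset (Fin k))) := by
    ext B
    simp only [Set.mem_ofPred_eq, Set.mem_image, mem_coe, mem_fam]
    constructor
    · rintro ⟨h1, h2⟩
      refine ⟨B.toFinite.toFinset, ⟨subset_univ _, ?_, ?_⟩, ?_⟩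
      · rw [Set.Finite.coe_toFinset]; exact h1
      · rw [Set.Finite.coe_toFinset]; exact h2
      · rw [Set.Finite.coe_toFinset]
    · rintro ⟨F, ⟨_, h1, h2⟩, rfl⟩
      exact ⟨h1, h2⟩
  rw [this, Set.ncard_image_of_injective _ Finset.coe_injective, Set.ncard_coe_finset]

theorem ncard_eq' (N : Matroid (Fin k)) :
    Set.ncard {B : Set (Fin k) | N.IsBase B} = #(allB N univ) := by
  have := ncard_eq N (fun _ => True)
  simp only [and_true] at this
  exact this

/-- the four-fold form of the correlation inequality -/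
def Four (N : Matroid (Fin k)) (e f : Fin k) : Prop :=
  #(fam N univ (fun B => e ∈ B ∧ f ∈ B)) * #(fam N univ (fun B => e ∉ B ∧ f ∉ B)) ≤
    #(fam N univ (fun B => e ∈ B ∧ f ∉ B)) * #(fam N univ (fun B => e ∉ B ∧ f ∈ B))

theorem nc_iff (N : Matroid (Fin k)) {e f : Fin k} (hne : e ≠ f) :
    (Set.ncard {B : Set (Fin k) | N.IsBase B ∧ e ∈ B ∧ f ∈ B} *
        Set.ncard {B : Set (Fin k) | N.IsBase B} ≤
      Set.ncard {B : Set (Fin k) | N.IsBase B ∧ e ∈ B} *
        Set.ncard {B : Set (Fin k) | N.IsBase B ∧ f ∈ B}) ↔ Four N e f := by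
  rw [ncard_eq', ncard_eq N (fun B => e ∈ B ∧ f ∈ B), ncard_eq N (fun B => e ∈ B),
    ncard_eq N (fun B => f ∈ B)]
  unfold Four
  have hu : insert e (insert f ((univ.erase e).erase f)) = (univ : Finset (Fin k)) := by
    ext w
    simp only [mem_insert, mem_erase, mem_univ, and_true, iff_true]
    tauto
  obtain ⟨_, _, _, h4⟩ := fam_split (N := N) (W := (univ.erase e).erase f) (e := e) (f := f)
    (by simp) (by simp) hne
  rw [hu] at h4
  have h5 : #(fam N univ (fun B => e ∈ B)) = #(fam N univ (fun B => e ∈ B ∧ f ∈ B)) +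
      #(fam N univ (fun B => e ∈ B ∧ f ∉ B)) := by
    rw [← card_union_of_disjoint]
    · congr 1
      ext B; rw [mem_union, mem_fam, mem_fam, mem_fam]; tauto
    · rw [Finset.disjoint_left]
      intro B hB hB'
      rw [mem_fam] at hB hB'
      tauto
  have h6 : #(fam N univ (fun B => f ∈ B)) = #(fam N univ (fun B => e ∈ B ∧ f ∈ B)) +
      #(fam N univ (fun B => e ∉ B ∧ f ∈ B)) := by
    rw [← card_union_of_disjoint]
    · congr 1
      ext B; rw [mem_union, mem_fam, mem_fam, mem_fam]; tauto
    · rw [Finset.disjoint_left]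
      intro B hB hB'
      rw [mem_fam] at hB hB'
      tauto
  simp only [mem_coe]
  rw [← h4, h5, h6]
  constructor
  · intro h; nlinarith
  · intro h; nlinarith

/-- negative correlation when all bases have at most three elements -/
theorem four_low (N : Matroid (Fin k)) {e f : Fin k} (hne : e ≠ f) (r : ℕ) (hr : r ≤ 3)
    (h : ∀ B, N.IsBase B → B.ncard = r) : Four N e f :=
  rank_low_aux hne r hr h univ (mem_univ _) (mem_univ _)

variable {Z : Type*} [AddCommGroup Z]

/-- counts of bases under a transport `φ` -/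
theorem allB_card {M : Matroid (Fin k)} (φ : Fin k ↪ El Z)
    (hM : ∀ B : Finset (Fin k), M.IsBase (B : Set (Fin k)) ↔ BaseM (B.map φ))
    (W : Finset (Fin k)) : #(allB M W) = bM (W.map φ) := by
  unfold bM
  refine Finset.card_bij (fun B _ => B.map φ) ?_ ?_ ?_
  · intro B hB
    rw [mem_allB] at hB
    rw [mem_filter, mem_powerset]
    exact ⟨map_subset_map.2 hB.1, (hM B).1 hB.2⟩
  · intro B _ B' _ h
    exact map_injective φ h
  · intro B hB
    rw [mem_filter, mem_powerset] at hB
    refine ⟨W.filter (fun w => φ w ∈ B), ?_, ?_⟩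
    · rw [mem_allB]
      refine ⟨filter_subset _ _, ?_⟩
      rw [hM]
      have : (W.filter (fun w => φ w ∈ B)).map φ = B := by
        ext z
        rw [mem_map]
        constructor
        · rintro ⟨w, hw, rfl⟩
          exact (mem_filter.1 hw).2
        · intro hz
          obtain ⟨w, hw, rfl⟩ := mem_map.1 (hB.1 hz)
          exact ⟨w, mem_filter.2 ⟨hw, hz⟩, rfl⟩
      rw [this]
      exact hB.2
    · ext z
      rw [mem_map]
      constructor
      · rintro ⟨w, hw, rfl⟩
        exact (mem_filter.1 hw).2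
      · intro hz
        obtain ⟨w, hw, rfl⟩ := mem_map.1 (hB.1 hz)
        exact ⟨w, mem_filter.2 ⟨hw, hz⟩, rfl⟩

theorem pair_iff {M : Matroid (Fin k)} (φ : Fin k ↪ El Z)
    (hM : ∀ B : Finset (Fin k), M.IsBase (B : Set (Fin k)) ↔ BaseM (B.map φ))
    {W : Finset (Fin k)} {e f : Fin k} (he : e ∉ W) (hf : f ∉ W) (hne : e ≠ f) :
    #(fam M (insert e (insert f W)) (fun B => e ∈ B ∧ f ∈ B)) *
      #(fam M (insert e (insert f W)) (fun B => e ∉ B ∧ f ∉ B)) ≤
    #(fam M (insert e (insert f W)) (fun B => e ∈ B ∧ f ∉ B)) *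
      #(fam M (insert e (insert f W)) (fun B => e ∉ B ∧ f ∈ B)) ↔
    Pair (W.map φ) (φ e) (φ f) := by
  obtain ⟨h1, h2, h3, h4⟩ := fam_split (N := M) he hf hne
  rw [allB_card φ hM] at h1 h2 h3 h4
  rw [allB_card φ hM, map_insert] at h2 h3
  rw [map_insert, map_insert] at h4
  unfold Pair
  rw [h1] at h4 ⊢
  rw [← h4, ← h2, ← h3, ← Nat.cast_le (α := ℚ)]
  push_cast
  constructor
  · intro h; nlinarith
  · intro h; nlinarith

/-- Strict minors of a matroid of rank four are either of smaller rank or given by restriction. -/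
theorem minor_cases {M N : Matroid (Fin k)} (hM4 : ∀ B, M.IsBase B → B.ncard = 4)
    (hN : N.IsMinor M) : (∃ r ≤ 3, ∀ B, N.IsBase B → B.ncard = r) ∨
      (∀ B, N.IsBase B ↔ M.IsBase B ∧ B ⊆ N.E) := by
  obtain ⟨B0, hB0⟩ := N.exists_isBase
  have hB0M : M.Indep B0 := hB0.indep.of_isMinor hN
  obtain ⟨B1, hB1, hB01⟩ := hB0M.exists_isBase_superset
  have h4 := hM4 B1 hB1
  have hle : B0.ncard ≤ 4 := by
    rw [← h4]; exact Set.ncard_le_ncard hB01 (Set.toFinite _)
  have hsame : ∀ B, N.IsBase B → B.ncard = B0.ncard := fun B hB => hB.ncard_eq_ncard_of_isBase hB0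
  rcases Nat.lt_or_ge B0.ncard 4 with hlt | hge
  · exact Or.inl ⟨B0.ncard, by omega, hsame⟩
  right
  have hB0c : B0.ncard = 4 := by omega
  -- indep sets of size four of `M` are bases
  have base_of4 : ∀ B, M.Indep B → B.ncard = 4 → M.IsBase B := by
    intro B hB hc
    obtain ⟨B', hB', hBB'⟩ := hB.exists_isBase_superset
    have := Set.eq_of_subset_of_ncard_le hBB' (by rw [hM4 B' hB', hc]) (Set.toFinite _)
    rwa [this]
  have base_of4N : ∀ B, N.Indep B → B.ncard = 4 → N.IsBase B := by
    intro B hB hc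
    obtain ⟨B', hB', hBB'⟩ := hB.exists_isBase_superset
    have := Set.eq_of_subset_of_ncard_le hBB' (by rw [hsame B' hB', hc, hB0c]) (Set.toFinite _)
    rwa [this]
  obtain ⟨C, D, hCE, hDE, hCD, rfl⟩ := hN.exists_eq_contract_delete_disjoint
  obtain ⟨I, hI⟩ := M.exists_isBasis' C
  have hB0' : M.Indep (B0 ∪ I) ∧ Disjoint C B0 := by
    have := hB0.indep.of_delete
    rwa [hI.contract_indep_iff] at this
  have hIe : I = ∅ := by
    have h1 : B0 = B0 ∪ I :=
      (base_of4 B0 hB0M hB0c).eq_of_subset_indep hB0'.1 Set.subset_union_left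
    have h2 : I ⊆ B0 := by rw [h1]; exact Set.subset_union_right
    have h3 : I ⊆ C := hI.subset
    rw [Set.eq_empty_iff_forall_notMem]
    intro x hx
    exact Set.disjoint_left.1 hB0'.2 (h3 hx) (h2 hx)
  subst hIe
  have hind : ∀ J, ((M.contract C).delete D).Indep J ↔ M.Indep J ∧ Disjoint C J ∧ Disjoint J D := by
    intro J
    rw [Matroid.delete_indep_iff, hI.contract_indep_iff, Set.union_empty, and_assoc]
  intro B
  constructor
  · intro hB
    exact ⟨base_of4 B ((hind B).1 hB.indep).1 (by rw [hsame B hB, hB0c]), hB.subset_ground⟩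
  · rintro ⟨hB, hBE⟩
    refine base_of4N B ?_ (hM4 B hB)
    rw [hind]
    refine ⟨hB.indep, ?_, ?_⟩
    · rw [Set.disjoint_left]
      intro x hxC hxB
      exact (hBE hxB).1.2 hxC
    · rw [Set.disjoint_left]
      intro x hxB hxD
      exact (hBE hxB).2 hxD

end fin

end Pool.Agent.Work.MP_b989b4_co
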