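import Mathlib

/-!
A weighted grid inequality.  `X` is a finite set whose elements are placed in the cells of a grid
by two maps `ρ` (row) and `σ` (column).
-/

namespace Pool.Agent.Work.MP_b989b4_co

open Finset
open scoped Classical

variable {α β : Type*}

/-- number of elements in the row of `x` -/
noncomputable def rowc (X : Finset α) (ρ : α → β) (x : α) : ℤ := #{y ∈ X | ρ y = ρ x}

/-- number of elements in the cell of `x` -/
noncomputable def cellc (X : Finset α) (ρ σ : α → β) (x : α) : ℤ :=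
  #{y ∈ X | ρ y = ρ x ∧ σ y = σ x}

theorem sum_rowc_sq (X : Finset α) (ρ : α → β) :
    ∑ x ∈ X, rowc X ρ x = ∑ i ∈ X.image ρ, ((#{y ∈ X | ρ y = i} : ℕ) : ℤ) ^ 2 := by
  have := Finset.sum_comp (s := X) (fun i : β => ((#{y ∈ X | ρ y = i} : ℕ) : ℤ)) ρ
  unfold rowc
  rw [this]
  refine Finset.sum_congr rfl fun i _ => ?_
  simp [sq]

theorem grid_ineq (X : Finset α) (ρ σ : α → β) :
    2 * (#X : ℤ) * ∑ x ∈ X, rowc X ρ x * rowc X σ x
      ≤ (#X : ℤ) ^ 2 * ∑ x ∈ X, cellc X ρ σ x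
        + (∑ x ∈ X, rowc X ρ x) * (∑ x ∈ X, rowc X σ x) := by
  set W : ℤ := (#X : ℤ) with hW
  set r : β → ℤ := fun i => ((#{y ∈ X | ρ y = i} : ℕ) : ℤ) with hr
  set s : β → ℤ := fun i => ((#{y ∈ X | σ y = i} : ℕ) : ℤ) with hs
  set w : β × β → ℤ := fun p => ((#{y ∈ X | (ρ y, σ y) = p} : ℕ) : ℤ) with hw
  set K : Finset (β × β) := X.image (fun x => (ρ x, σ x)) with hK
  have hP : ∑ x ∈ X, cellc X ρ σ x = ∑ p ∈ K, w p ^ 2 := by
    have := Finset.sum_comp (s := X) (fun p : β × β => w p) (fun x => (ρ x, σ x))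
    have h2 : ∑ x ∈ X, cellc X ρ σ x = ∑ x ∈ X, w (ρ x, σ x) := by
      refine Finset.sum_congr rfl fun x _ => ?_
      simp [cellc, hw, Prod.ext_iff]
    rw [h2, this]
    refine Finset.sum_congr rfl fun i _ => ?_
    simp [sq, hw]
  have hQ : ∑ x ∈ X, rowc X ρ x * rowc X σ x = ∑ p ∈ K, w p * (r p.1 * s p.2) := by
    have := Finset.sum_comp (s := X) (fun p : β × β => r p.1 * s p.2) (fun x => (ρ x, σ x))
    have h2 : ∑ x ∈ X, rowc X ρ x * rowc X σ x = ∑ x ∈ X, r (ρ x) * s (σ x) := by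
      refine Finset.sum_congr rfl fun x _ => ?_
      simp [rowc, hr, hs]
    rw [h2, this]
    refine Finset.sum_congr rfl fun i _ => ?_
    simp [hw]
  have hA : ∑ x ∈ X, rowc X ρ x = ∑ i ∈ X.image ρ, r i ^ 2 := sum_rowc_sq X ρ
  have hB : ∑ x ∈ X, rowc X σ x = ∑ i ∈ X.image σ, s i ^ 2 := sum_rowc_sq X σ
  have hsub : K ⊆ (X.image ρ) ×ˢ (X.image σ) := by
    intro p hp
    rw [hK, Finset.mem_image] at hp
    obtain ⟨x, hx, rfl⟩ := hp
    simp only [Finset.mem_product, Finset.mem_image]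
    exact ⟨⟨x, hx, rfl⟩, ⟨x, hx, rfl⟩⟩
  have hAB : ∑ p ∈ K, (r p.1 * s p.2) ^ 2 ≤
      (∑ i ∈ X.image ρ, r i ^ 2) * (∑ i ∈ X.image σ, s i ^ 2) := by
    rw [Finset.sum_mul_sum, ← Finset.sum_product']
    calc ∑ p ∈ K, (r p.1 * s p.2) ^ 2
        ≤ ∑ p ∈ (X.image ρ) ×ˢ (X.image σ), (r p.1 * s p.2) ^ 2 :=
          Finset.sum_le_sum_of_subset_of_nonneg hsub (fun _ _ _ => sq_nonneg _)
      _ = ∑ p ∈ (X.image ρ) ×ˢ (X.image σ), r p.1 ^ 2 * s p.2 ^ 2 := by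
          refine Finset.sum_congr rfl fun p _ => ?_
          ring
  have hsq : 0 ≤ ∑ p ∈ K, (W * w p - r p.1 * s p.2) ^ 2 :=
    Finset.sum_nonneg fun _ _ => sq_nonneg _
  have hexp : ∑ p ∈ K, (W * w p - r p.1 * s p.2) ^ 2 =
      W ^ 2 * ∑ p ∈ K, w p ^ 2 - 2 * W * ∑ p ∈ K, w p * (r p.1 * s p.2)
        + ∑ p ∈ K, (r p.1 * s p.2) ^ 2 := by
    rw [Finset.mul_sum, Finset.mul_sum, ← Finset.sum_sub_distrib, ← Finset.sum_add_distrib]
    refine Finset.sum_congr rfl fun p _ => ?_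
    ring
  rw [hP, hQ, hA, hB]
  linarith

/-- the condition on a triple of elements of the grid to possibly be a base -/
def TC (ρ σ : α → β) (x y z : α) : Prop :=
  ¬ (ρ x = ρ y ∧ σ x = σ y) ∧ ¬ (ρ x = ρ z ∧ σ x = σ z) ∧ ¬ (ρ y = ρ z ∧ σ y = σ z) ∧
  ¬ (ρ x = ρ y ∧ ρ y = ρ z) ∧ ¬ (σ x = σ y ∧ σ y = σ z)

/-- integer valued indicator -/
noncomputable def ind (p : Prop) : ℤ := if p then 1 else 0

theorem TC_prop (a b c a' b' c' : Prop) (h1 : a → c → b) (h2 : a → b → c) (h3 : b → c → a)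
    (h1' : a' → c' → b') (h2' : a' → b' → c') (h3' : b' → c' → a') :
    2 * ind (¬ (a ∧ a') ∧ ¬ (b ∧ b') ∧ ¬ (c ∧ c') ∧ ¬ (a ∧ c) ∧ ¬ (a' ∧ c'))
      + (ind a + ind b + ind c + ind a' + ind b' + ind c'
      + ind a * ind a' + ind b * ind b' + ind c * ind c') ≤
    3 + (ind a * ind b' + ind b * ind a' + ind a * ind c' + ind c * ind a'
      + ind b * ind c' + ind c * ind b') := by
  unfold ind
  by_cases ha : a <;> by_cases hb : b <;> by_cases hc : c <;>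
  by_cases ha' : a' <;> by_cases hb' : b' <;> by_cases hc' : c' <;>
  first
  | exact absurd (h1 ha hc) hb
  | exact absurd (h2 ha hb) hc
  | exact absurd (h3 hb hc) ha
  | exact absurd (h1' ha' hc') hb'
  | exact absurd (h2' ha' hb') hc'
  | exact absurd (h3' hb' hc') ha'
  | simp [ha, hb, hc, ha', hb', hc']

theorem TC_pointwise (ρ σ : α → β) (x y z : α) :
    2 * ind (TC ρ σ x y z) + (ind (ρ x = ρ y) + ind (ρ x = ρ z) + ind (ρ y = ρ z)
      + ind (σ x = σ y) + ind (σ x = σ z) + ind (σ y = σ z)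
      + ind (ρ x = ρ y) * ind (σ x = σ y) + ind (ρ x = ρ z) * ind (σ x = σ z)
      + ind (ρ y = ρ z) * ind (σ y = σ z)) ≤
    3 + (ind (ρ x = ρ y) * ind (σ x = σ z) + ind (ρ x = ρ z) * ind (σ x = σ y)
      + ind (ρ x = ρ y) * ind (σ y = σ z) + ind (ρ y = ρ z) * ind (σ x = σ y)
      + ind (ρ x = ρ z) * ind (σ y = σ z) + ind (ρ y = ρ z) * ind (σ x = σ z)) :=
  TC_prop _ _ _ _ _ _ (fun h k => h.trans k) (fun h k => h.symm.trans k)
    (fun h k => h.trans k.symm) (fun h k => h.trans k) (fun h k => h.symm.trans k)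
    (fun h k => h.trans k.symm)

theorem sum_ind (X : Finset α) (p : α → Prop) [DecidablePred p] :
    ∑ y ∈ X, ind (p y) = ((#{y ∈ X | p y} : ℕ) : ℤ) := by
  rw [Finset.card_filter]
  push_cast
  refine Finset.sum_congr rfl fun y _ => ?_
  unfold ind
  by_cases h : p y <;> simp [h]

/-- Counting ordered triples satisfying `TC`. -/
theorem TC_sum (X : Finset α) (ρ σ : α → β) :
    2 * ∑ x ∈ X, ∑ y ∈ X, ∑ z ∈ X, ind (TC ρ σ x y z)
      + 3 * (#X : ℤ) * (∑ x ∈ X, rowc X ρ x + ∑ x ∈ X, rowc X σ x + ∑ x ∈ X, cellc X ρ σ x) ≤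
    3 * (#X : ℤ) ^ 3 + 6 * ∑ x ∈ X, rowc X ρ x * rowc X σ x := by
  have hsymm : ∀ (τ : α → β) (x y : α), ind (τ x = τ y) = ind (τ y = τ x) := by
    intro τ x y
    exact congrArg ind (propext eq_comm)
  have hrow' : ∀ (τ : α → β) (x : α), ∑ y ∈ X, ind (τ y = τ x) = rowc X τ x := by
    intro τ x
    rw [sum_ind, rowc]
  have hrow : ∀ (τ : α → β) (x : α), ∑ y ∈ X, ind (τ x = τ y) = rowc X τ x := by
    intro τ x
    rw [← hrow']
    exact Finset.sum_congr rfl fun y _ => hsymm τ x y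
  have hcell' : ∀ (x : α), ∑ y ∈ X, ind (ρ y = ρ x) * ind (σ y = σ x) = cellc X ρ σ x := by
    intro x
    have : ∀ y, ind (ρ y = ρ x) * ind (σ y = σ x) = ind (ρ y = ρ x ∧ σ y = σ x) := by
      intro y
      unfold ind
      by_cases h : ρ y = ρ x <;> by_cases h' : σ y = σ x <;> simp [h, h']
    simp_rw [this]
    rw [sum_ind, cellc]
  have hcell : ∀ (x : α), ∑ y ∈ X, ind (ρ x = ρ y) * ind (σ x = σ y) = cellc X ρ σ x := by
    intro x
    rw [← hcell']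
    exact Finset.sum_congr rfl fun y _ => by rw [hsymm ρ x y, hsymm σ x y]
  -- generic sums
  have g12 : ∀ (f : α → α → ℤ), ∑ x ∈ X, ∑ y ∈ X, ∑ _z ∈ X, f x y
      = (#X : ℤ) * ∑ x ∈ X, ∑ y ∈ X, f x y := by
    intro f
    simp only [Finset.sum_const, nsmul_eq_mul, ← Finset.mul_sum]
  have g13 : ∀ (f : α → α → ℤ), ∑ x ∈ X, ∑ _y ∈ X, ∑ z ∈ X, f x z
      = (#X : ℤ) * ∑ x ∈ X, ∑ y ∈ X, f x y := by
    intro f
    simp only [Finset.sum_const, nsmul_eq_mul, ← Finset.mul_sum]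
  have g23 : ∀ (f : α → α → ℤ), ∑ _x ∈ X, ∑ y ∈ X, ∑ z ∈ X, f y z
      = (#X : ℤ) * ∑ x ∈ X, ∑ y ∈ X, f x y := by
    intro f
    simp only [Finset.sum_const, nsmul_eq_mul]
  -- products of two indicators sharing the first, second, third index
  have p1 : ∀ (τ υ : α → β), ∑ x ∈ X, ∑ y ∈ X, ∑ z ∈ X, ind (τ x = τ y) * ind (υ x = υ z)
      = ∑ x ∈ X, rowc X τ x * rowc X υ x := by
    intro τ υ
    refine Finset.sum_congr rfl fun x _ => ?_
    simp only [← Finset.mul_sum, ← Finset.sum_mul, hrow]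
  have p2 : ∀ (τ υ : α → β), ∑ x ∈ X, ∑ y ∈ X, ∑ z ∈ X, ind (τ x = τ y) * ind (υ y = υ z)
      = ∑ x ∈ X, rowc X τ x * rowc X υ x := by
    intro τ υ
    rw [Finset.sum_comm]
    refine Finset.sum_congr rfl fun y _ => ?_
    simp only [← Finset.mul_sum, ← Finset.sum_mul, hrow, hrow']
  have p3 : ∀ (τ υ : α → β), ∑ x ∈ X, ∑ y ∈ X, ∑ z ∈ X, ind (τ x = τ z) * ind (υ y = υ z)
      = ∑ x ∈ X, rowc X τ x * rowc X υ x := by
    intro τ υ
    have : ∀ x, ∑ y ∈ X, ∑ z ∈ X, ind (τ x = τ z) * ind (υ y = υ z) =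
      ∑ z ∈ X, ∑ y ∈ X, ind (τ x = τ z) * ind (υ y = υ z) := fun x => Finset.sum_comm
    simp_rw [this]
    rw [Finset.sum_comm]
    refine Finset.sum_congr rfl fun y _ => ?_
    simp only [← Finset.mul_sum, ← Finset.sum_mul, hrow']
  have p1' : ∑ x ∈ X, ∑ y ∈ X, ∑ z ∈ X, ind (ρ x = ρ z) * ind (σ x = σ y)
      = ∑ x ∈ X, rowc X ρ x * rowc X σ x := by
    have := p1 σ ρ
    calc _ = ∑ x ∈ X, ∑ y ∈ X, ∑ z ∈ X, ind (σ x = σ y) * ind (ρ x = ρ z) := by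
            simp only [mul_comm]
      _ = _ := by rw [this]; simp only [mul_comm]
  have p2' : ∑ x ∈ X, ∑ y ∈ X, ∑ z ∈ X, ind (ρ y = ρ z) * ind (σ x = σ y)
      = ∑ x ∈ X, rowc X ρ x * rowc X σ x := by
    have := p2 σ ρ
    calc _ = ∑ x ∈ X, ∑ y ∈ X, ∑ z ∈ X, ind (σ x = σ y) * ind (ρ y = ρ z) := by
            simp only [mul_comm]
      _ = _ := by rw [this]; simp only [mul_comm]
  have p3' : ∑ x ∈ X, ∑ y ∈ X, ∑ z ∈ X, ind (ρ y = ρ z) * ind (σ x = σ z)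
      = ∑ x ∈ X, rowc X ρ x * rowc X σ x := by
    have := p3 σ ρ
    calc _ = ∑ x ∈ X, ∑ y ∈ X, ∑ z ∈ X, ind (σ x = σ z) * ind (ρ y = ρ z) := by
            simp only [mul_comm]
      _ = _ := by rw [this]; simp only [mul_comm]
  have key := Finset.sum_le_sum (s := X) (fun x _ =>
    Finset.sum_le_sum (s := X) (fun y _ =>
      Finset.sum_le_sum (s := X) (fun z _ => TC_pointwise ρ σ x y z)))
  simp only [Finset.sum_add_distrib] at key
  rw [g12 (fun x y => ind (ρ x = ρ y)), g13 (fun x y => ind (ρ x = ρ y)),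
    g23 (fun x y => ind (ρ x = ρ y)), g12 (fun x y => ind (σ x = σ y)),
    g13 (fun x y => ind (σ x = σ y)), g23 (fun x y => ind (σ x = σ y)),
    g12 (fun x y => ind (ρ x = ρ y) * ind (σ x = σ y)),
    g13 (fun x y => ind (ρ x = ρ y) * ind (σ x = σ y)),
    g23 (fun x y => ind (ρ x = ρ y) * ind (σ x = σ y)), p1 ρ σ, p2 ρ σ, p3 ρ σ, p1', p2', p3'] at key
  simp only [hrow, hcell] at key
  simp only [← Finset.mul_sum, Finset.sum_const, nsmul_eq_mul] at key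
  nlinarith [key]

theorem rowc_le (X : Finset α) (ρ : α → β) (x : α) : rowc X ρ x ≤ (#X : ℤ) := by
  unfold rowc
  exact_mod_cast Finset.card_filter_le _ _

theorem grid_final (X : Finset α) (ρ σ : α → β) (Ze Zf Z0 : ℤ)
    (h1 : (#X : ℤ) ^ 2 - ∑ x ∈ X, rowc X ρ x ≤ 2 * Ze)
    (h2 : (#X : ℤ) ^ 2 - ∑ x ∈ X, rowc X σ x ≤ 2 * Zf)
    (h3 : 6 * Z0 ≤ ∑ x ∈ X, ∑ y ∈ X, ∑ z ∈ X, ind (TC ρ σ x y z)) :
    (#X : ℤ) * Z0 ≤ Ze * Zf := by
  have hT := TC_sum X ρ σ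
  have hG := grid_ineq X ρ σ
  have hA : ∑ x ∈ X, rowc X ρ x ≤ (#X : ℤ) ^ 2 := by
    have := Finset.sum_le_sum (s := X) (fun x _ => rowc_le X ρ x)
    simp only [Finset.sum_const, nsmul_eq_mul] at this
    nlinarith
  have hB : ∑ x ∈ X, rowc X σ x ≤ (#X : ℤ) ^ 2 := by
    have := Finset.sum_le_sum (s := X) (fun x _ => rowc_le X σ x)
    simp only [Finset.sum_const, nsmul_eq_mul] at this
    nlinarith
  set W : ℤ := (#X : ℤ) with hW
  set A : ℤ := ∑ x ∈ X, rowc X ρ x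
  set B : ℤ := ∑ x ∈ X, rowc X σ x
  set P : ℤ := ∑ x ∈ X, cellc X ρ σ x
  set Q : ℤ := ∑ x ∈ X, rowc X ρ x * rowc X σ x
  have hW0 : 0 ≤ W := by rw [hW]; positivity
  have k1 : 4 * Z0 ≤ W ^ 3 + 2 * Q - W * (A + B + P) := by linarith
  have k2 : W * (4 * Z0) ≤ W * (W ^ 3 + 2 * Q - W * (A + B + P)) :=
    mul_le_mul_of_nonneg_left k1 hW0
  have k3 : (W ^ 2 - A) * (W ^ 2 - B) ≤ (2 * Ze) * (2 * Zf) :=
    mul_le_mul h1 h2 (by linarith) (by linarith)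
  nlinarith

end Pool.Agent.Work.MP_b989b4_co
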