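import Pool.Agent.Work.MP_b989b4_co.Count

/-!
Numerical inequalities (auto-generated case splits), part c.
-/

set_option linter.unnecessarySeqFocus false
set_option linter.unusedTactic false

namespace Pool.Agent.Work.MP_b989b4_co

theorem core_ca_0_1 (n e d : ℕ) :
    (0 ≤ ((FF 0 1 n (n + e) ((n + e) + d) - FF 0 0 n (n + e) ((n + e) + d)) - (n * (n + e)))) ∧
    (0 ≤ (FF 0 0 (n + 1) (n + e) ((n + e) + d) - FF 0 0 n (n + e) ((n + e) + d))) ∧
    (0 ≤ (FF 0 1 (n + 1) (n + e) ((n + e) + d) - FF 0 1 n (n + e) ((n + e) + d) - FF 0 0 (n + 1) (n + e) ((n + e) + d) + FF 0 0 n (n + e) ((n + e) + d))) ∧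
    ((FF 0 1 (n + 1) (n + e) ((n + e) + d) - FF 0 1 n (n + e) ((n + e) + d) - FF 0 0 (n + 1) (n + e) ((n + e) + d) + FF 0 0 n (n + e) ((n + e) + d)) * FF 0 0 n (n + e) ((n + e) + d) ≤ ((FF 0 1 n (n + e) ((n + e) + d) - FF 0 0 n (n + e) ((n + e) + d)) - (n * (n + e))) * (FF 0 0 (n + 1) (n + e) ((n + e) + d) - FF 0 0 n (n + e) ((n + e) + d))) := by
  refine ⟨?_, ?_, ?_, ?_⟩
  · rcases n with _ | n
    · rcases e with _ | e
      · exact le_of_sub_nonneg (le_of_eq (by unfold FF c2; push_cast; ring))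
      · exact le_of_sub_nonneg (by unfold FF c2; push_cast; ring_nf <;> positivity)
    · exact le_of_sub_nonneg (by unfold FF c2; push_cast; ring_nf <;> positivity)
  · rcases n with _ | n
    · rcases e with _ | e
      · exact le_of_sub_nonneg (le_of_eq (by unfold FF c2; push_cast; ring))
      · exact le_of_sub_nonneg (by unfold FF c2; push_cast; ring_nf <;> positivity)
    · exact le_of_sub_nonneg (by unfold FF c2; push_cast; ring_nf <;> positivity)
  · rcases n with _ | n
    · rcases e with _ | e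
      · rcases d with _ | d
        · exact le_of_sub_nonneg (le_of_eq (by unfold FF c2; push_cast; ring))
        · exact le_of_sub_nonneg (by unfold FF c2; push_cast; ring_nf <;> positivity)
      · exact le_of_sub_nonneg (by unfold FF c2; push_cast; ring_nf <;> positivity)
    · exact le_of_sub_nonneg (by unfold FF c2; push_cast; ring_nf <;> positivity)
  · rcases n with _ | n
    · rcases e with _ | e
      · exact le_of_sub_nonneg (le_of_eq (by unfold FF c2; push_cast; ring))
      · exact le_of_sub_nonneg (by unfold FF c2; push_cast; ring_nf <;> positivity)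
    · rcases n with _ | n
      · exact le_of_sub_nonneg (by unfold FF c2; push_cast; ring_nf <;> positivity)
      · exact le_of_sub_nonneg (by unfold FF c2; push_cast; ring_nf <;> positivity)

theorem core_ca_0_2 (h e d : ℕ) :
    (0 ≤ ((FF 0 1 (h + e) h ((h + e) + d) - FF 0 0 (h + e) h ((h + e) + d)) - ((h + e) * h))) ∧
    (0 ≤ (FF 0 0 ((h + e) + 1) h ((h + e) + d) - FF 0 0 (h + e) h ((h + e) + d))) ∧
    (0 ≤ (FF 0 1 ((h + e) + 1) h ((h + e) + d) - FF 0 1 (h + e) h ((h + e) + d) - FF 0 0 ((h + e) + 1) h ((h + e) + d) + FF 0 0 (h + e) h ((h + e) + d))) ∧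
    ((FF 0 1 ((h + e) + 1) h ((h + e) + d) - FF 0 1 (h + e) h ((h + e) + d) - FF 0 0 ((h + e) + 1) h ((h + e) + d) + FF 0 0 (h + e) h ((h + e) + d)) * FF 0 0 (h + e) h ((h + e) + d) ≤ ((FF 0 1 (h + e) h ((h + e) + d) - FF 0 0 (h + e) h ((h + e) + d)) - ((h + e) * h)) * (FF 0 0 ((h + e) + 1) h ((h + e) + d) - FF 0 0 (h + e) h ((h + e) + d))) := by
  refine ⟨?_, ?_, ?_, ?_⟩
  · rcases h with _ | h
    · rcases e with _ | e
      · exact le_of_sub_nonneg (le_of_eq (by unfold FF c2; push_cast; ring))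
      · exact le_of_sub_nonneg (by unfold FF c2; push_cast; ring_nf <;> positivity)
    · exact le_of_sub_nonneg (by unfold FF c2; push_cast; ring_nf <;> positivity)
  · rcases h with _ | h
    · rcases e with _ | e
      · exact le_of_sub_nonneg (le_of_eq (by unfold FF c2; push_cast; ring))
      · exact le_of_sub_nonneg (by unfold FF c2; push_cast; ring_nf <;> positivity)
    · exact le_of_sub_nonneg (by unfold FF c2; push_cast; ring_nf <;> positivity)
  · rcases h with _ | h
    · rcases e with _ | e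
      · rcases d with _ | d
        · exact le_of_sub_nonneg (le_of_eq (by unfold FF c2; push_cast; ring))
        · exact le_of_sub_nonneg (by unfold FF c2; push_cast; ring_nf <;> positivity)
      · exact le_of_sub_nonneg (by unfold FF c2; push_cast; ring_nf <;> positivity)
    · exact le_of_sub_nonneg (by unfold FF c2; push_cast; ring_nf <;> positivity)
  · rcases h with _ | h
    · rcases e with _ | e
      · exact le_of_sub_nonneg (le_of_eq (by unfold FF c2; push_cast; ring))
      · exact le_of_sub_nonneg (by unfold FF c2; push_cast; ring_nf <;> positivity)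
    · rcases h with _ | h
      · exact le_of_sub_nonneg (by unfold FF c2; push_cast; ring_nf <;> positivity)
      · exact le_of_sub_nonneg (by unfold FF c2; push_cast; ring_nf <;> positivity)

theorem core_ca_0_3 (h e d : ℕ) :
    (0 ≤ ((FF 0 1 ((h + d) + e) h (h + d) - FF 0 0 ((h + d) + e) h (h + d)) - (h * (h + d)))) ∧
    (0 ≤ (FF 0 0 (((h + d) + e) + 1) h (h + d) - FF 0 0 ((h + d) + e) h (h + d))) ∧
    (0 ≤ (FF 0 1 (((h + d) + e) + 1) h (h + d) - FF 0 1 ((h + d) + e) h (h + d) - FF 0 0 (((h + d) + e) + 1) h (h + d) + FF 0 0 ((h + d) + e) h (h + d))) ∧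
    ((FF 0 1 (((h + d) + e) + 1) h (h + d) - FF 0 1 ((h + d) + e) h (h + d) - FF 0 0 (((h + d) + e) + 1) h (h + d) + FF 0 0 ((h + d) + e) h (h + d)) * FF 0 0 ((h + d) + e) h (h + d) ≤ ((FF 0 1 ((h + d) + e) h (h + d) - FF 0 0 ((h + d) + e) h (h + d)) - (h * (h + d))) * (FF 0 0 (((h + d) + e) + 1) h (h + d) - FF 0 0 ((h + d) + e) h (h + d))) := by
  refine ⟨?_, ?_, ?_, ?_⟩
  · rcases h with _ | h
    · rcases d with _ | d
      · exact le_of_sub_nonneg (le_of_eq (by unfold FF c2; push_cast; ring))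
      · exact le_of_sub_nonneg (by unfold FF c2; push_cast; ring_nf <;> positivity)
    · exact le_of_sub_nonneg (by unfold FF c2; push_cast; ring_nf <;> positivity)
  · rcases h with _ | h
    · rcases d with _ | d
      · exact le_of_sub_nonneg (le_of_eq (by unfold FF c2; push_cast; ring))
      · exact le_of_sub_nonneg (by unfold FF c2; push_cast; ring_nf <;> positivity)
    · exact le_of_sub_nonneg (by unfold FF c2; push_cast; ring_nf <;> positivity)
  · rcases h with _ | h
    · rcases d with _ | d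
      · exact le_of_sub_nonneg (le_of_eq (by unfold FF c2; push_cast; ring))
      · exact le_of_sub_nonneg (by unfold FF c2; push_cast; ring_nf <;> positivity)
    · exact le_of_sub_nonneg (by unfold FF c2; push_cast; ring_nf <;> positivity)
  · rcases h with _ | h
    · rcases d with _ | d
      · exact le_of_sub_nonneg (le_of_eq (by unfold FF c2; push_cast; ring))
      · exact le_of_sub_nonneg (by unfold FF c2; push_cast; ring_nf <;> positivity)
    · rcases h with _ | h
      · exact le_of_sub_nonneg (by unfold FF c2; push_cast; ring_nf <;> positivity)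
      · exact le_of_sub_nonneg (by unfold FF c2; push_cast; ring_nf <;> positivity)

theorem core_cx_0_1 (n e d : ℕ) :
    (0 ≤ ((FF 0 1 n (n + e) ((n + e) + d) - FF 0 0 n (n + e) ((n + e) + d)) - (n * (n + e)))) ∧
    (0 ≤ (FF 0 0 n ((n + e) + 1) ((n + e) + d) - FF 0 0 n (n + e) ((n + e) + d))) ∧
    (0 ≤ (FF 0 1 n ((n + e) + 1) ((n + e) + d) - FF 0 1 n (n + e) ((n + e) + d) - FF 0 0 n ((n + e) + 1) ((n + e) + d) + FF 0 0 n (n + e) ((n + e) + d))) ∧
    ((FF 0 1 n ((n + e) + 1) ((n + e) + d) - FF 0 1 n (n + e) ((n + e) + d) - FF 0 0 n ((n + e) + 1) ((n + e) + d) + FF 0 0 n (n + e) ((n + e) + d)) * FF 0 0 n (n + e) ((n + e) + d) ≤ ((FF 0 1 n (n + e) ((n + e) + d) - FF 0 0 n (n + e) ((n + e) + d)) - (n * (n + e))) * (FF 0 0 n ((n + e) + 1) ((n + e) + d) - FF 0 0 n (n + e) ((n + e) + d))) := by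
  refine ⟨?_, ?_, ?_, ?_⟩
  · rcases n with _ | n
    · rcases e with _ | e
      · exact le_of_sub_nonneg (le_of_eq (by unfold FF c2; push_cast; ring))
      · exact le_of_sub_nonneg (by unfold FF c2; push_cast; ring_nf <;> positivity)
    · exact le_of_sub_nonneg (by unfold FF c2; push_cast; ring_nf <;> positivity)
  · rcases n with _ | n
    · exact le_of_sub_nonneg (le_of_eq (by unfold FF c2; push_cast; ring))
    · exact le_of_sub_nonneg (by unfold FF c2; push_cast; ring_nf <;> positivity)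
  · rcases n with _ | n
    · rcases e with _ | e
      · rcases d with _ | d
        · exact le_of_sub_nonneg (le_of_eq (by unfold FF c2; push_cast; ring))
        · exact le_of_sub_nonneg (by unfold FF c2; push_cast; ring_nf <;> positivity)
      · exact le_of_sub_nonneg (by unfold FF c2; push_cast; ring_nf <;> positivity)
    · exact le_of_sub_nonneg (by unfold FF c2; push_cast; ring_nf <;> positivity)
  · rcases n with _ | n
    · exact le_of_sub_nonneg (le_of_eq (by unfold FF c2; push_cast; ring))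
    · rcases n with _ | n
      · exact le_of_sub_nonneg (by unfold FF c2; push_cast; ring_nf <;> positivity)
      · exact le_of_sub_nonneg (by unfold FF c2; push_cast; ring_nf <;> positivity)

theorem core_cx_0_2 (h e d : ℕ) :
    (0 ≤ ((FF 0 1 (h + e) h ((h + e) + d) - FF 0 0 (h + e) h ((h + e) + d)) - ((h + e) * h))) ∧
    (0 ≤ (FF 0 0 (h + e) (h + 1) ((h + e) + d) - FF 0 0 (h + e) h ((h + e) + d))) ∧
    (0 ≤ (FF 0 1 (h + e) (h + 1) ((h + e) + d) - FF 0 1 (h + e) h ((h + e) + d) - FF 0 0 (h + e) (h + 1) ((h + e) + d) + FF 0 0 (h + e) h ((h + e) + d))) ∧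
    ((FF 0 1 (h + e) (h + 1) ((h + e) + d) - FF 0 1 (h + e) h ((h + e) + d) - FF 0 0 (h + e) (h + 1) ((h + e) + d) + FF 0 0 (h + e) h ((h + e) + d)) * FF 0 0 (h + e) h ((h + e) + d) ≤ ((FF 0 1 (h + e) h ((h + e) + d) - FF 0 0 (h + e) h ((h + e) + d)) - ((h + e) * h)) * (FF 0 0 (h + e) (h + 1) ((h + e) + d) - FF 0 0 (h + e) h ((h + e) + d))) := by
  refine ⟨?_, ?_, ?_, ?_⟩
  · rcases h with _ | h
    · rcases e with _ | e
      · exact le_of_sub_nonneg (le_of_eq (by unfold FF c2; push_cast; ring))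
      · exact le_of_sub_nonneg (by unfold FF c2; push_cast; ring_nf <;> positivity)
    · exact le_of_sub_nonneg (by unfold FF c2; push_cast; ring_nf <;> positivity)
  · rcases h with _ | h
    · rcases e with _ | e
      · exact le_of_sub_nonneg (le_of_eq (by unfold FF c2; push_cast; ring))
      · exact le_of_sub_nonneg (by unfold FF c2; push_cast; ring_nf <;> positivity)
    · exact le_of_sub_nonneg (by unfold FF c2; push_cast; ring_nf <;> positivity)
  · rcases h with _ | h
    · rcases e with _ | e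
      · rcases d with _ | d
        · exact le_of_sub_nonneg (le_of_eq (by unfold FF c2; push_cast; ring))
        · exact le_of_sub_nonneg (by unfold FF c2; push_cast; ring_nf <;> positivity)
      · exact le_of_sub_nonneg (by unfold FF c2; push_cast; ring_nf <;> positivity)
    · exact le_of_sub_nonneg (by unfold FF c2; push_cast; ring_nf <;> positivity)
  · rcases h with _ | h
    · rcases e with _ | e
      · exact le_of_sub_nonneg (le_of_eq (by unfold FF c2; push_cast; ring))
      · exact le_of_sub_nonneg (by unfold FF c2; push_cast; ring_nf <;> positivity)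
    · rcases h with _ | h
      · exact le_of_sub_nonneg (by unfold FF c2; push_cast; ring_nf <;> positivity)
      · exact le_of_sub_nonneg (by unfold FF c2; push_cast; ring_nf <;> positivity)

theorem core_cx_0_3 (h e d : ℕ) :
    (0 ≤ ((FF 0 1 ((h + d) + e) h (h + d) - FF 0 0 ((h + d) + e) h (h + d)) - (h * (h + d)))) ∧
    (0 ≤ (FF 0 0 ((h + d) + e) (h + 1) (h + d) - FF 0 0 ((h + d) + e) h (h + d))) ∧
    (0 ≤ (FF 0 1 ((h + d) + e) (h + 1) (h + d) - FF 0 1 ((h + d) + e) h (h + d) - FF 0 0 ((h + d) + e) (h + 1) (h + d) + FF 0 0 ((h + d) + e) h (h + d))) ∧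
    ((FF 0 1 ((h + d) + e) (h + 1) (h + d) - FF 0 1 ((h + d) + e) h (h + d) - FF 0 0 ((h + d) + e) (h + 1) (h + d) + FF 0 0 ((h + d) + e) h (h + d)) * FF 0 0 ((h + d) + e) h (h + d) ≤ ((FF 0 1 ((h + d) + e) h (h + d) - FF 0 0 ((h + d) + e) h (h + d)) - (h * (h + d))) * (FF 0 0 ((h + d) + e) (h + 1) (h + d) - FF 0 0 ((h + d) + e) h (h + d))) := by
  refine ⟨?_, ?_, ?_, ?_⟩
  · rcases h with _ | h
    · rcases d with _ | d
      · exact le_of_sub_nonneg (le_of_eq (by unfold FF c2; push_cast; ring))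
      · exact le_of_sub_nonneg (by unfold FF c2; push_cast; ring_nf <;> positivity)
    · exact le_of_sub_nonneg (by unfold FF c2; push_cast; ring_nf <;> positivity)
  · rcases h with _ | h
    · rcases d with _ | d
      · exact le_of_sub_nonneg (le_of_eq (by unfold FF c2; push_cast; ring))
      · exact le_of_sub_nonneg (by unfold FF c2; push_cast; ring_nf <;> positivity)
    · exact le_of_sub_nonneg (by unfold FF c2; push_cast; ring_nf <;> positivity)
  · rcases h with _ | h
    · rcases e with _ | e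
      · rcases d with _ | d
        · exact le_of_sub_nonneg (le_of_eq (by unfold FF c2; push_cast; ring))
        · exact le_of_sub_nonneg (by unfold FF c2; push_cast; ring_nf <;> positivity)
      · exact le_of_sub_nonneg (by unfold FF c2; push_cast; ring_nf <;> positivity)
    · exact le_of_sub_nonneg (by unfold FF c2; push_cast; ring_nf <;> positivity)
  · rcases h with _ | h
    · rcases d with _ | d
      · exact le_of_sub_nonneg (le_of_eq (by unfold FF c2; push_cast; ring))
      · exact le_of_sub_nonneg (by unfold FF c2; push_cast; ring_nf <;> positivity)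
    · rcases h with _ | h
      · exact le_of_sub_nonneg (by unfold FF c2; push_cast; ring_nf <;> positivity)
      · exact le_of_sub_nonneg (by unfold FF c2; push_cast; ring_nf <;> positivity)

theorem core_cx_0_4 (n e d : ℕ) :
    (0 ≤ ((FF 0 1 n ((n + d) + e) (n + d) - FF 0 0 n ((n + d) + e) (n + d)) - (n * (n + d)))) ∧
    (0 ≤ (FF 0 0 n (((n + d) + e) + 1) (n + d) - FF 0 0 n ((n + d) + e) (n + d))) ∧
    (0 ≤ (FF 0 1 n (((n + d) + e) + 1) (n + d) - FF 0 1 n ((n + d) + e) (n + d) - FF 0 0 n (((n + d) + e) + 1) (n + d) + FF 0 0 n ((n + d) + e) (n + d))) ∧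
    ((FF 0 1 n (((n + d) + e) + 1) (n + d) - FF 0 1 n ((n + d) + e) (n + d) - FF 0 0 n (((n + d) + e) + 1) (n + d) + FF 0 0 n ((n + d) + e) (n + d)) * FF 0 0 n ((n + d) + e) (n + d) ≤ ((FF 0 1 n ((n + d) + e) (n + d) - FF 0 0 n ((n + d) + e) (n + d)) - (n * (n + d))) * (FF 0 0 n (((n + d) + e) + 1) (n + d) - FF 0 0 n ((n + d) + e) (n + d))) := by
  refine ⟨?_, ?_, ?_, ?_⟩
  · rcases n with _ | n
    · rcases d with _ | d
      · exact le_of_sub_nonneg (le_of_eq (by unfold FF c2; push_cast; ring))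
      · exact le_of_sub_nonneg (by unfold FF c2; push_cast; ring_nf <;> positivity)
    · exact le_of_sub_nonneg (by unfold FF c2; push_cast; ring_nf <;> positivity)
  · rcases n with _ | n
    · exact le_of_sub_nonneg (le_of_eq (by unfold FF c2; push_cast; ring))
    · exact le_of_sub_nonneg (by unfold FF c2; push_cast; ring_nf <;> positivity)
  · rcases n with _ | n
    · rcases d with _ | d
      · exact le_of_sub_nonneg (le_of_eq (by unfold FF c2; push_cast; ring))
      · exact le_of_sub_nonneg (by unfold FF c2; push_cast; ring_nf <;> positivity)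
    · exact le_of_sub_nonneg (by unfold FF c2; push_cast; ring_nf <;> positivity)
  · rcases n with _ | n
    · exact le_of_sub_nonneg (le_of_eq (by unfold FF c2; push_cast; ring))
    · rcases n with _ | n
      · exact le_of_sub_nonneg (by unfold FF c2; push_cast; ring_nf <;> positivity)
      · exact le_of_sub_nonneg (by unfold FF c2; push_cast; ring_nf <;> positivity)

theorem core_cx_0_5 (k e d : ℕ) :
    (0 ≤ ((FF 0 1 (k + d) ((k + d) + e) k - FF 0 0 (k + d) ((k + d) + e) k) - ((k + d) * k))) ∧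
    (0 ≤ (FF 0 0 (k + d) (((k + d) + e) + 1) k - FF 0 0 (k + d) ((k + d) + e) k)) ∧
    (0 ≤ (FF 0 1 (k + d) (((k + d) + e) + 1) k - FF 0 1 (k + d) ((k + d) + e) k - FF 0 0 (k + d) (((k + d) + e) + 1) k + FF 0 0 (k + d) ((k + d) + e) k)) ∧
    ((FF 0 1 (k + d) (((k + d) + e) + 1) k - FF 0 1 (k + d) ((k + d) + e) k - FF 0 0 (k + d) (((k + d) + e) + 1) k + FF 0 0 (k + d) ((k + d) + e) k) * FF 0 0 (k + d) ((k + d) + e) k ≤ ((FF 0 1 (k + d) ((k + d) + e) k - FF 0 0 (k + d) ((k + d) + e) k) - ((k + d) * k)) * (FF 0 0 (k + d) (((k + d) + e) + 1) k - FF 0 0 (k + d) ((k + d) + e) k)) := by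
  refine ⟨?_, ?_, ?_, ?_⟩
  · rcases k with _ | k
    · rcases d with _ | d
      · exact le_of_sub_nonneg (le_of_eq (by unfold FF c2; push_cast; ring))
      · exact le_of_sub_nonneg (by unfold FF c2; push_cast; ring_nf <;> positivity)
    · exact le_of_sub_nonneg (by unfold FF c2; push_cast; ring_nf <;> positivity)
  · rcases k with _ | k
    · rcases d with _ | d
      · exact le_of_sub_nonneg (le_of_eq (by unfold FF c2; push_cast; ring))
      · exact le_of_sub_nonneg (by unfold FF c2; push_cast; ring_nf <;> positivity)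
    · exact le_of_sub_nonneg (by unfold FF c2; push_cast; ring_nf <;> positivity)
  · rcases k with _ | k
    · rcases d with _ | d
      · exact le_of_sub_nonneg (le_of_eq (by unfold FF c2; push_cast; ring))
      · exact le_of_sub_nonneg (by unfold FF c2; push_cast; ring_nf <;> positivity)
    · exact le_of_sub_nonneg (by unfold FF c2; push_cast; ring_nf <;> positivity)
  · rcases k with _ | k
    · rcases d with _ | d
      · exact le_of_sub_nonneg (le_of_eq (by unfold FF c2; push_cast; ring))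
      · exact le_of_sub_nonneg (by unfold FF c2; push_cast; ring_nf <;> positivity)
    · rcases k with _ | k
      · exact le_of_sub_nonneg (by unfold FF c2; push_cast; ring_nf <;> positivity)
      · exact le_of_sub_nonneg (by unfold FF c2; push_cast; ring_nf <;> positivity)

theorem core_cx_0_6 (k e d : ℕ) :
    (0 ≤ ((FF 0 1 ((k + d) + e) (k + d) k - FF 0 0 ((k + d) + e) (k + d) k) - ((k + d) * k))) ∧
    (0 ≤ (FF 0 0 ((k + d) + e) ((k + d) + 1) k - FF 0 0 ((k + d) + e) (k + d) k)) ∧
    (0 ≤ (FF 0 1 ((k + d) + e) ((k + d) + 1) k - FF 0 1 ((k + d) + e) (k + d) k - FF 0 0 ((k + d) + e) ((k + d) + 1) k + FF 0 0 ((k + d) + e) (k + d) k)) ∧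
    ((FF 0 1 ((k + d) + e) ((k + d) + 1) k - FF 0 1 ((k + d) + e) (k + d) k - FF 0 0 ((k + d) + e) ((k + d) + 1) k + FF 0 0 ((k + d) + e) (k + d) k) * FF 0 0 ((k + d) + e) (k + d) k ≤ ((FF 0 1 ((k + d) + e) (k + d) k - FF 0 0 ((k + d) + e) (k + d) k) - ((k + d) * k)) * (FF 0 0 ((k + d) + e) ((k + d) + 1) k - FF 0 0 ((k + d) + e) (k + d) k)) := by
  refine ⟨?_, ?_, ?_, ?_⟩
  · rcases k with _ | k
    · rcases d with _ | d
      · exact le_of_sub_nonneg (le_of_eq (by unfold FF c2; push_cast; ring))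
      · exact le_of_sub_nonneg (by unfold FF c2; push_cast; ring_nf <;> positivity)
    · exact le_of_sub_nonneg (by unfold FF c2; push_cast; ring_nf <;> positivity)
  · rcases k with _ | k
    · rcases d with _ | d
      · exact le_of_sub_nonneg (le_of_eq (by unfold FF c2; push_cast; ring))
      · exact le_of_sub_nonneg (by unfold FF c2; push_cast; ring_nf <;> positivity)
    · exact le_of_sub_nonneg (by unfold FF c2; push_cast; ring_nf <;> positivity)
  · rcases k with _ | k
    · rcases e with _ | e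
      · rcases d with _ | d
        · exact le_of_sub_nonneg (le_of_eq (by unfold FF c2; push_cast; ring))
        · exact le_of_sub_nonneg (by unfold FF c2; push_cast; ring_nf <;> positivity)
      · exact le_of_sub_nonneg (by unfold FF c2; push_cast; ring_nf <;> positivity)
    · exact le_of_sub_nonneg (by unfold FF c2; push_cast; ring_nf <;> positivity)
  · rcases k with _ | k
    · rcases d with _ | d
      · exact le_of_sub_nonneg (le_of_eq (by unfold FF c2; push_cast; ring))
      · exact le_of_sub_nonneg (by unfold FF c2; push_cast; ring_nf <;> positivity)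
    · rcases k with _ | k
      · exact le_of_sub_nonneg (by unfold FF c2; push_cast; ring_nf <;> positivity)
      · exact le_of_sub_nonneg (by unfold FF c2; push_cast; ring_nf <;> positivity)

theorem core_ca_1_1 (n e d : ℕ) :
    (0 ≤ ((FF 1 1 n (n + e) ((n + e) + d) - FF 1 0 n (n + e) ((n + e) + d)) - (n * (n + e)))) ∧
    (0 ≤ (FF 1 0 (n + 1) (n + e) ((n + e) + d) - FF 1 0 n (n + e) ((n + e) + d))) ∧
    (0 ≤ (FF 1 1 (n + 1) (n + e) ((n + e) + d) - FF 1 1 n (n + e) ((n + e) + d) - FF 1 0 (n + 1) (n + e) ((n + e) + d) + FF 1 0 n (n + e) ((n + e) + d))) ∧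
    ((FF 1 1 (n + 1) (n + e) ((n + e) + d) - FF 1 1 n (n + e) ((n + e) + d) - FF 1 0 (n + 1) (n + e) ((n + e) + d) + FF 1 0 n (n + e) ((n + e) + d)) * FF 1 0 n (n + e) ((n + e) + d) ≤ ((FF 1 1 n (n + e) ((n + e) + d) - FF 1 0 n (n + e) ((n + e) + d)) - (n * (n + e))) * (FF 1 0 (n + 1) (n + e) ((n + e) + d) - FF 1 0 n (n + e) ((n + e) + d))) := by
  refine ⟨?_, ?_, ?_, ?_⟩
  · rcases n with _ | n
    · rcases e with _ | e
      · rcases d with _ | d
        · exact le_of_sub_nonneg (le_of_eq (by unfold FF c2; push_cast; ring))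
        · exact le_of_sub_nonneg (by unfold FF c2; push_cast; ring_nf <;> positivity)
      · exact le_of_sub_nonneg (by unfold FF c2; push_cast; ring_nf <;> positivity)
    · exact le_of_sub_nonneg (by unfold FF c2; push_cast; ring_nf <;> positivity)
  · rcases n with _ | n
    · rcases e with _ | e
      · rcases d with _ | d
        · exact le_of_sub_nonneg (le_of_eq (by unfold FF c2; push_cast; ring))
        · exact le_of_sub_nonneg (by unfold FF c2; push_cast; ring_nf <;> positivity)
      · exact le_of_sub_nonneg (by unfold FF c2; push_cast; ring_nf <;> positivity)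
    · exact le_of_sub_nonneg (by unfold FF c2; push_cast; ring_nf <;> positivity)
  · exact le_of_sub_nonneg (by unfold FF c2; push_cast; ring_nf <;> positivity)
  · rcases n with _ | n
    · rcases e with _ | e
      · rcases d with _ | d
        · exact le_of_sub_nonneg (le_of_eq (by unfold FF c2; push_cast; ring))
        · exact le_of_sub_nonneg (by unfold FF c2; push_cast; ring_nf <;> positivity)
      · exact le_of_sub_nonneg (by unfold FF c2; push_cast; ring_nf <;> positivity)
    · exact le_of_sub_nonneg (by unfold FF c2; push_cast; ring_nf <;> positivity)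

theorem core_ca_1_2 (h e d : ℕ) :
    (0 ≤ ((FF 1 1 (h + e) h ((h + e) + d) - FF 1 0 (h + e) h ((h + e) + d)) - ((h + e) * h))) ∧
    (0 ≤ (FF 1 0 ((h + e) + 1) h ((h + e) + d) - FF 1 0 (h + e) h ((h + e) + d))) ∧
    (0 ≤ (FF 1 1 ((h + e) + 1) h ((h + e) + d) - FF 1 1 (h + e) h ((h + e) + d) - FF 1 0 ((h + e) + 1) h ((h + e) + d) + FF 1 0 (h + e) h ((h + e) + d))) ∧
    ((FF 1 1 ((h + e) + 1) h ((h + e) + d) - FF 1 1 (h + e) h ((h + e) + d) - FF 1 0 ((h + e) + 1) h ((h + e) + d) + FF 1 0 (h + e) h ((h + e) + d)) * FF 1 0 (h + e) h ((h + e) + d) ≤ ((FF 1 1 (h + e) h ((h + e) + d) - FF 1 0 (h + e) h ((h + e) + d)) - ((h + e) * h)) * (FF 1 0 ((h + e) + 1) h ((h + e) + d) - FF 1 0 (h + e) h ((h + e) + d))) := by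
  refine ⟨?_, ?_, ?_, ?_⟩
  · rcases h with _ | h
    · rcases e with _ | e
      · rcases d with _ | d
        · exact le_of_sub_nonneg (le_of_eq (by unfold FF c2; push_cast; ring))
        · exact le_of_sub_nonneg (by unfold FF c2; push_cast; ring_nf <;> positivity)
      · exact le_of_sub_nonneg (by unfold FF c2; push_cast; ring_nf <;> positivity)
    · exact le_of_sub_nonneg (by unfold FF c2; push_cast; ring_nf <;> positivity)
  · rcases h with _ | h
    · rcases e with _ | e
      · rcases d with _ | d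
        · exact le_of_sub_nonneg (le_of_eq (by unfold FF c2; push_cast; ring))
        · exact le_of_sub_nonneg (by unfold FF c2; push_cast; ring_nf <;> positivity)
      · exact le_of_sub_nonneg (by unfold FF c2; push_cast; ring_nf <;> positivity)
    · exact le_of_sub_nonneg (by unfold FF c2; push_cast; ring_nf <;> positivity)
  · exact le_of_sub_nonneg (by unfold FF c2; push_cast; ring_nf <;> positivity)
  · rcases h with _ | h
    · rcases e with _ | e
      · rcases d with _ | d
        · exact le_of_sub_nonneg (le_of_eq (by unfold FF c2; push_cast; ring))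
        · exact le_of_sub_nonneg (by unfold FF c2; push_cast; ring_nf <;> positivity)
      · exact le_of_sub_nonneg (by unfold FF c2; push_cast; ring_nf <;> positivity)
    · exact le_of_sub_nonneg (by unfold FF c2; push_cast; ring_nf <;> positivity)

theorem core_ca_1_3 (h e d : ℕ) :
    (0 ≤ ((FF 1 1 ((h + d) + e) h (h + d) - FF 1 0 ((h + d) + e) h (h + d)) - (h * (h + d)))) ∧
    (0 ≤ (FF 1 0 (((h + d) + e) + 1) h (h + d) - FF 1 0 ((h + d) + e) h (h + d))) ∧
    (0 ≤ (FF 1 1 (((h + d) + e) + 1) h (h + d) - FF 1 1 ((h + d) + e) h (h + d) - FF 1 0 (((h + d) + e) + 1) h (h + d) + FF 1 0 ((h + d) + e) h (h + d))) ∧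
    ((FF 1 1 (((h + d) + e) + 1) h (h + d) - FF 1 1 ((h + d) + e) h (h + d) - FF 1 0 (((h + d) + e) + 1) h (h + d) + FF 1 0 ((h + d) + e) h (h + d)) * FF 1 0 ((h + d) + e) h (h + d) ≤ ((FF 1 1 ((h + d) + e) h (h + d) - FF 1 0 ((h + d) + e) h (h + d)) - (h * (h + d))) * (FF 1 0 (((h + d) + e) + 1) h (h + d) - FF 1 0 ((h + d) + e) h (h + d))) := by
  refine ⟨?_, ?_, ?_, ?_⟩
  · rcases h with _ | h
    · rcases d with _ | d
      · exact le_of_sub_nonneg (le_of_eq (by unfold FF c2; push_cast; ring))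
      · exact le_of_sub_nonneg (by unfold FF c2; push_cast; ring_nf <;> positivity)
    · exact le_of_sub_nonneg (by unfold FF c2; push_cast; ring_nf <;> positivity)
  · rcases h with _ | h
    · rcases d with _ | d
      · exact le_of_sub_nonneg (le_of_eq (by unfold FF c2; push_cast; ring))
      · exact le_of_sub_nonneg (by unfold FF c2; push_cast; ring_nf <;> positivity)
    · exact le_of_sub_nonneg (by unfold FF c2; push_cast; ring_nf <;> positivity)
  · exact le_of_sub_nonneg (by unfold FF c2; push_cast; ring_nf <;> positivity)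
  · rcases h with _ | h
    · rcases d with _ | d
      · exact le_of_sub_nonneg (le_of_eq (by unfold FF c2; push_cast; ring))
      · exact le_of_sub_nonneg (by unfold FF c2; push_cast; ring_nf <;> positivity)
    · exact le_of_sub_nonneg (by unfold FF c2; push_cast; ring_nf <;> positivity)

theorem core_cx_1_1 (n e d : ℕ) :
    (0 ≤ ((FF 1 1 n (n + e) ((n + e) + d) - FF 1 0 n (n + e) ((n + e) + d)) - (n * (n + e)))) ∧
    (0 ≤ (FF 1 0 n ((n + e) + 1) ((n + e) + d) - FF 1 0 n (n + e) ((n + e) + d))) ∧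
    (0 ≤ (FF 1 1 n ((n + e) + 1) ((n + e) + d) - FF 1 1 n (n + e) ((n + e) + d) - FF 1 0 n ((n + e) + 1) ((n + e) + d) + FF 1 0 n (n + e) ((n + e) + d))) ∧
    ((FF 1 1 n ((n + e) + 1) ((n + e) + d) - FF 1 1 n (n + e) ((n + e) + d) - FF 1 0 n ((n + e) + 1) ((n + e) + d) + FF 1 0 n (n + e) ((n + e) + d)) * FF 1 0 n (n + e) ((n + e) + d) ≤ ((FF 1 1 n (n + e) ((n + e) + d) - FF 1 0 n (n + e) ((n + e) + d)) - (n * (n + e))) * (FF 1 0 n ((n + e) + 1) ((n + e) + d) - FF 1 0 n (n + e) ((n + e) + d))) := by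
  refine ⟨?_, ?_, ?_, ?_⟩
  · rcases n with _ | n
    · rcases e with _ | e
      · rcases d with _ | d
        · exact le_of_sub_nonneg (le_of_eq (by unfold FF c2; push_cast; ring))
        · exact le_of_sub_nonneg (by unfold FF c2; push_cast; ring_nf <;> positivity)
      · exact le_of_sub_nonneg (by unfold FF c2; push_cast; ring_nf <;> positivity)
    · exact le_of_sub_nonneg (by unfold FF c2; push_cast; ring_nf <;> positivity)
  · exact le_of_sub_nonneg (by unfold FF c2; push_cast; ring_nf <;> positivity)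
  · exact le_of_sub_nonneg (by unfold FF c2; push_cast; ring_nf <;> positivity)
  · rcases n with _ | n
    · exact le_of_sub_nonneg (le_of_eq (by unfold FF c2; push_cast; ring))
    · exact le_of_sub_nonneg (by unfold FF c2; push_cast; ring_nf <;> positivity)

theorem core_cx_1_2 (h e d : ℕ) :
    (0 ≤ ((FF 1 1 (h + e) h ((h + e) + d) - FF 1 0 (h + e) h ((h + e) + d)) - ((h + e) * h))) ∧
    (0 ≤ (FF 1 0 (h + e) (h + 1) ((h + e) + d) - FF 1 0 (h + e) h ((h + e) + d))) ∧
    (0 ≤ (FF 1 1 (h + e) (h + 1) ((h + e) + d) - FF 1 1 (h + e) h ((h + e) + d) - FF 1 0 (h + e) (h + 1) ((h + e) + d) + FF 1 0 (h + e) h ((h + e) + d))) ∧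
    ((FF 1 1 (h + e) (h + 1) ((h + e) + d) - FF 1 1 (h + e) h ((h + e) + d) - FF 1 0 (h + e) (h + 1) ((h + e) + d) + FF 1 0 (h + e) h ((h + e) + d)) * FF 1 0 (h + e) h ((h + e) + d) ≤ ((FF 1 1 (h + e) h ((h + e) + d) - FF 1 0 (h + e) h ((h + e) + d)) - ((h + e) * h)) * (FF 1 0 (h + e) (h + 1) ((h + e) + d) - FF 1 0 (h + e) h ((h + e) + d))) := by
  refine ⟨?_, ?_, ?_, ?_⟩
  · rcases h with _ | h
    · rcases e with _ | e
      · rcases d with _ | d
        · exact le_of_sub_nonneg (le_of_eq (by unfold FF c2; push_cast; ring))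
        · exact le_of_sub_nonneg (by unfold FF c2; push_cast; ring_nf <;> positivity)
      · exact le_of_sub_nonneg (by unfold FF c2; push_cast; ring_nf <;> positivity)
    · exact le_of_sub_nonneg (by unfold FF c2; push_cast; ring_nf <;> positivity)
  · exact le_of_sub_nonneg (by unfold FF c2; push_cast; ring_nf <;> positivity)
  · exact le_of_sub_nonneg (by unfold FF c2; push_cast; ring_nf <;> positivity)
  · rcases d with _ | d
    · exact le_of_sub_nonneg (by unfold FF c2; push_cast; ring_nf <;> positivity)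
    · exact le_of_sub_nonneg (by unfold FF c2; push_cast; ring_nf <;> positivity)

theorem core_cx_1_3 (h e d : ℕ) :
    (0 ≤ ((FF 1 1 ((h + d) + e) h (h + d) - FF 1 0 ((h + d) + e) h (h + d)) - (h * (h + d)))) ∧
    (0 ≤ (FF 1 0 ((h + d) + e) (h + 1) (h + d) - FF 1 0 ((h + d) + e) h (h + d))) ∧
    (0 ≤ (FF 1 1 ((h + d) + e) (h + 1) (h + d) - FF 1 1 ((h + d) + e) h (h + d) - FF 1 0 ((h + d) + e) (h + 1) (h + d) + FF 1 0 ((h + d) + e) h (h + d))) ∧
    ((FF 1 1 ((h + d) + e) (h + 1) (h + d) - FF 1 1 ((h + d) + e) h (h + d) - FF 1 0 ((h + d) + e) (h + 1) (h + d) + FF 1 0 ((h + d) + e) h (h + d)) * FF 1 0 ((h + d) + e) h (h + d) ≤ ((FF 1 1 ((h + d) + e) h (h + d) - FF 1 0 ((h + d) + e) h (h + d)) - (h * (h + d))) * (FF 1 0 ((h + d) + e) (h + 1) (h + d) - FF 1 0 ((h + d) + e) h (h + d))) := by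
  refine ⟨?_, ?_, ?_, ?_⟩
  · rcases h with _ | h
    · rcases d with _ | d
      · exact le_of_sub_nonneg (le_of_eq (by unfold FF c2; push_cast; ring))
      · exact le_of_sub_nonneg (by unfold FF c2; push_cast; ring_nf <;> positivity)
    · exact le_of_sub_nonneg (by unfold FF c2; push_cast; ring_nf <;> positivity)
  · exact le_of_sub_nonneg (by unfold FF c2; push_cast; ring_nf <;> positivity)
  · exact le_of_sub_nonneg (by unfold FF c2; push_cast; ring_nf <;> positivity)
  · exact le_of_sub_nonneg (by unfold FF c2; push_cast; ring_nf <;> positivity)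

theorem core_cx_1_4 (n e d : ℕ) :
    (0 ≤ ((FF 1 1 n ((n + d) + e) (n + d) - FF 1 0 n ((n + d) + e) (n + d)) - (n * (n + d)))) ∧
    (0 ≤ (FF 1 0 n (((n + d) + e) + 1) (n + d) - FF 1 0 n ((n + d) + e) (n + d))) ∧
    (0 ≤ (FF 1 1 n (((n + d) + e) + 1) (n + d) - FF 1 1 n ((n + d) + e) (n + d) - FF 1 0 n (((n + d) + e) + 1) (n + d) + FF 1 0 n ((n + d) + e) (n + d))) ∧
    ((FF 1 1 n (((n + d) + e) + 1) (n + d) - FF 1 1 n ((n + d) + e) (n + d) - FF 1 0 n (((n + d) + e) + 1) (n + d) + FF 1 0 n ((n + d) + e) (n + d)) * FF 1 0 n ((n + d) + e) (n + d) ≤ ((FF 1 1 n ((n + d) + e) (n + d) - FF 1 0 n ((n + d) + e) (n + d)) - (n * (n + d))) * (FF 1 0 n (((n + d) + e) + 1) (n + d) - FF 1 0 n ((n + d) + e) (n + d))) := by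
  refine ⟨?_, ?_, ?_, ?_⟩
  · rcases n with _ | n
    · rcases e with _ | e
      · rcases d with _ | d
        · exact le_of_sub_nonneg (le_of_eq (by unfold FF c2; push_cast; ring))
        · exact le_of_sub_nonneg (by unfold FF c2; push_cast; ring_nf <;> positivity)
      · exact le_of_sub_nonneg (by unfold FF c2; push_cast; ring_nf <;> positivity)
    · exact le_of_sub_nonneg (by unfold FF c2; push_cast; ring_nf <;> positivity)
  · exact le_of_sub_nonneg (by unfold FF c2; push_cast; ring_nf <;> positivity)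
  · exact le_of_sub_nonneg (by unfold FF c2; push_cast; ring_nf <;> positivity)
  · rcases n with _ | n
    · exact le_of_sub_nonneg (le_of_eq (by unfold FF c2; push_cast; ring))
    · exact le_of_sub_nonneg (by unfold FF c2; push_cast; ring_nf <;> positivity)

theorem core_cx_1_5 (k e d : ℕ) :
    (0 ≤ ((FF 1 1 (k + d) ((k + d) + e) k - FF 1 0 (k + d) ((k + d) + e) k) - ((k + d) * k))) ∧
    (0 ≤ (FF 1 0 (k + d) (((k + d) + e) + 1) k - FF 1 0 (k + d) ((k + d) + e) k)) ∧
    (0 ≤ (FF 1 1 (k + d) (((k + d) + e) + 1) k - FF 1 1 (k + d) ((k + d) + e) k - FF 1 0 (k + d) (((k + d) + e) + 1) k + FF 1 0 (k + d) ((k + d) + e) k)) ∧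
    ((FF 1 1 (k + d) (((k + d) + e) + 1) k - FF 1 1 (k + d) ((k + d) + e) k - FF 1 0 (k + d) (((k + d) + e) + 1) k + FF 1 0 (k + d) ((k + d) + e) k) * FF 1 0 (k + d) ((k + d) + e) k ≤ ((FF 1 1 (k + d) ((k + d) + e) k - FF 1 0 (k + d) ((k + d) + e) k) - ((k + d) * k)) * (FF 1 0 (k + d) (((k + d) + e) + 1) k - FF 1 0 (k + d) ((k + d) + e) k)) := by
  refine ⟨?_, ?_, ?_, ?_⟩
  · rcases k with _ | k
    · rcases e with _ | e
      · rcases d with _ | d
        · exact le_of_sub_nonneg (le_of_eq (by unfold FF c2; push_cast; ring))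
        · exact le_of_sub_nonneg (by unfold FF c2; push_cast; ring_nf <;> positivity)
      · exact le_of_sub_nonneg (by unfold FF c2; push_cast; ring_nf <;> positivity)
    · exact le_of_sub_nonneg (by unfold FF c2; push_cast; ring_nf <;> positivity)
  · exact le_of_sub_nonneg (by unfold FF c2; push_cast; ring_nf <;> positivity)
  · exact le_of_sub_nonneg (by unfold FF c2; push_cast; ring_nf <;> positivity)
  · exact le_of_sub_nonneg (by unfold FF c2; push_cast; ring_nf <;> positivity)

theorem core_cx_1_6 (k e d : ℕ) :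
    (0 ≤ ((FF 1 1 ((k + d) + e) (k + d) k - FF 1 0 ((k + d) + e) (k + d) k) - ((k + d) * k))) ∧
    (0 ≤ (FF 1 0 ((k + d) + e) ((k + d) + 1) k - FF 1 0 ((k + d) + e) (k + d) k)) ∧
    (0 ≤ (FF 1 1 ((k + d) + e) ((k + d) + 1) k - FF 1 1 ((k + d) + e) (k + d) k - FF 1 0 ((k + d) + e) ((k + d) + 1) k + FF 1 0 ((k + d) + e) (k + d) k)) ∧
    ((FF 1 1 ((k + d) + e) ((k + d) + 1) k - FF 1 1 ((k + d) + e) (k + d) k - FF 1 0 ((k + d) + e) ((k + d) + 1) k + FF 1 0 ((k + d) + e) (k + d) k) * FF 1 0 ((k + d) + e) (k + d) k ≤ ((FF 1 1 ((k + d) + e) (k + d) k - FF 1 0 ((k + d) + e) (k + d) k) - ((k + d) * k)) * (FF 1 0 ((k + d) + e) ((k + d) + 1) k - FF 1 0 ((k + d) + e) (k + d) k)) := by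
  refine ⟨?_, ?_, ?_, ?_⟩
  · rcases k with _ | k
    · rcases d with _ | d
      · exact le_of_sub_nonneg (le_of_eq (by unfold FF c2; push_cast; ring))
      · exact le_of_sub_nonneg (by unfold FF c2; push_cast; ring_nf <;> positivity)
    · exact le_of_sub_nonneg (by unfold FF c2; push_cast; ring_nf <;> positivity)
  · exact le_of_sub_nonneg (by unfold FF c2; push_cast; ring_nf <;> positivity)
  · exact le_of_sub_nonneg (by unfold FF c2; push_cast; ring_nf <;> positivity)
  · exact le_of_sub_nonneg (by unfold FF c2; push_cast; ring_nf <;> positivity)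

end Pool.Agent.Work.MP_b989b4_co
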