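import Pool.Agent.Work.MP_b989b4_co.NumA
import Pool.Agent.Work.MP_b989b4_co.NumB
import Pool.Agent.Work.MP_b989b4_co.NumC
import Pool.Agent.Work.MP_b989b4_co.NumD
import Pool.Agent.Work.MP_b989b4_co.NumE
import Pool.Agent.Work.MP_b989b4_co.NumF

/-!
Numerical inequalities for each type of pair.
-/

namespace Pool.Agent.Work.MP_b989b4_co

theorem mul_red {A2 B Z0 X Y X' Y' Zef : ℚ} (h0 : 0 ≤ Z0) (hZ0 : Z0 ≤ B) (hX' : 0 ≤ X')
    (hY' : 0 ≤ Y') (hA : 0 ≤ A2) (hcore : A2 * B ≤ X' * Y') (hZef : Zef ≤ A2) (hX : X' ≤ X)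
    (hY : Y' ≤ Y) : Zef * Z0 ≤ X * Y := by
  have h1 : Zef * Z0 ≤ A2 * Z0 := mul_le_mul_of_nonneg_right hZef h0
  have h2 : A2 * Z0 ≤ A2 * B := mul_le_mul_of_nonneg_left hZ0 hA
  have h3 : X' * Y' ≤ X * Y := mul_le_mul hX hY hY' (hX'.trans hX)
  linarith

theorem FF_symm (u v n h k : ℚ) : FF u v n h k = FF u v n k h := by
  unfold FF c2; ring

theorem num_aa_le {u v : ℚ} (hu : u = 0 ∨ u = 1) (hv : v = 0 ∨ v = 1) (n h k : ℕ)
    {d1 d2 Zef Z0 : ℚ} (hk : h ≤ k)
    (h1 : d1 ≤ h) (h2 : d2 ≤ h) (hZ0 : 0 ≤ Z0)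
    (hZ0' : Z0 ≤ FF u v n h k)
    (hZ : Zef ≤ FF u v (n+1+1) h k - FF u v (n+1) h k - FF u v (n+1) h k + FF u v n h k) :
    Zef * Z0 ≤ (FF u v (n+1) h k - FF u v n h k - v*d1) *
      (FF u v (n+1) h k - FF u v n h k - v*d2) := by
  rcases hu with rfl | rfl <;> rcases hv with rfl | rfl
  · obtain ⟨a, b, c, d⟩ := core_aa_00 n h k
    exact mul_red hZ0 hZ0' a b c d hZ (by linarith) (by linarith)
  · obtain ⟨s, rfl⟩ := Nat.exists_eq_add_of_le hk
    obtain ⟨a, b, c, d⟩ := core_aa_01 n h s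
    push_cast at *
    exact mul_red hZ0 hZ0' a b c d hZ (by linarith) (by linarith)
  · obtain ⟨a, b, c, d⟩ := core_aa_10 n h k
    exact mul_red hZ0 hZ0' a b c d hZ (by linarith) (by linarith)
  · obtain ⟨s, rfl⟩ := Nat.exists_eq_add_of_le hk
    obtain ⟨a, b, c, d⟩ := core_aa_11 n h s
    push_cast at *
    exact mul_red hZ0 hZ0' a b c d hZ (by linarith) (by linarith)

theorem num_aa {u v : ℚ} (hu : u = 0 ∨ u = 1) (hv : v = 0 ∨ v = 1) (n h k : ℕ)
    {d1 d2 Zef Z0 : ℚ}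
    (h1 : d1 ≤ h) (h1' : d1 ≤ k) (h2 : d2 ≤ h) (h2' : d2 ≤ k) (hZ0 : 0 ≤ Z0)
    (hZ0' : Z0 ≤ FF u v n h k)
    (hZ : Zef ≤ FF u v (n+1+1) h k - FF u v (n+1) h k - FF u v (n+1) h k + FF u v n h k) :
    Zef * Z0 ≤ (FF u v (n+1) h k - FF u v n h k - v*d1) *
      (FF u v (n+1) h k - FF u v n h k - v*d2) := by
  rcases le_total h k with hk | hk
  · exact num_aa_le hu hv n h k hk h1 h2 hZ0 hZ0' hZ
  · rw [FF_symm u v (n+1+1) h k, FF_symm u v (n+1) h k, FF_symm u v n h k] at hZ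
    rw [FF_symm u v n h k] at hZ0'
    rw [FF_symm u v (n+1) h k, FF_symm u v n h k]
    exact num_aa_le hu hv n k h hk h1' h2' hZ0 hZ0' hZ

theorem num_ax {u v : ℚ} (hu : u = 0 ∨ u = 1) (hv : v = 0 ∨ v = 1) (n h k : ℕ)
    {da dx Zef Z0 : ℚ}
    (h1 : da ≤ h) (h1' : da ≤ k) (h2 : dx ≤ n) (h2' : dx ≤ k) (hZ0 : 0 ≤ Z0)
    (hZ0' : Z0 ≤ FF u v n h k)
    (hZ : Zef ≤ FF u v (n+1) (h+1) k - FF u v (n+1) h k - FF u v n (h+1) k + FF u v n h k) :
    Zef * Z0 ≤ (FF u v (n+1) h k - FF u v n h k - v*da) *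
      (FF u v n (h+1) k - FF u v n h k - v*dx) := by
  rcases hu with rfl | rfl <;> rcases hv with rfl | rfl
  · obtain ⟨a, b, c, d⟩ := core_ax_00 n h k
    exact mul_red hZ0 hZ0' a b c d hZ (by linarith) (by linarith)
  · rcases le_total k h with hk | hk
    · rcases le_total k n with hn | hn
      · obtain ⟨s, rfl⟩ := Nat.exists_eq_add_of_le hk
        obtain ⟨e, rfl⟩ := Nat.exists_eq_add_of_le hn
        obtain ⟨a, b, c, d⟩ := core_ax_01_4 k e s
        push_cast at *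
        exact mul_red hZ0 hZ0' a b c d hZ (by linarith) (by linarith)
      · obtain ⟨e, rfl⟩ := Nat.exists_eq_add_of_le hk
        obtain ⟨s, rfl⟩ := Nat.exists_eq_add_of_le hn
        obtain ⟨a, b, c, d⟩ := core_ax_01_5 n e s
        push_cast at *
        exact mul_red hZ0 hZ0' a b c d hZ (by linarith) (by linarith)
    · rcases le_total n h with hn | hn
      · obtain ⟨s, rfl⟩ := Nat.exists_eq_add_of_le hk
        obtain ⟨e, rfl⟩ := Nat.exists_eq_add_of_le hn
        obtain ⟨a, b, c, d⟩ := core_ax_01_1 n e s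
        push_cast at *
        exact mul_red hZ0 hZ0' a b c d hZ (by linarith) (by linarith)
      · rcases le_total n k with hn2 | hn2
        · obtain ⟨s, rfl⟩ := Nat.exists_eq_add_of_le hn2
          obtain ⟨e, rfl⟩ := Nat.exists_eq_add_of_le hn
          obtain ⟨a, b, c, d⟩ := core_ax_01_2 h e s
          push_cast at *
          exact mul_red hZ0 hZ0' a b c d hZ (by linarith) (by linarith)
        · obtain ⟨e, rfl⟩ := Nat.exists_eq_add_of_le hn2
          obtain ⟨s, rfl⟩ := Nat.exists_eq_add_of_le hk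
          obtain ⟨a, b, c, d⟩ := core_ax_01_3 h e s
          push_cast at *
          exact mul_red hZ0 hZ0' a b c d hZ (by linarith) (by linarith)
  · obtain ⟨a, b, c, d⟩ := core_ax_10 n h k
    exact mul_red hZ0 hZ0' a b c d hZ (by linarith) (by linarith)
  · rcases le_total k h with hk | hk
    · rcases le_total k n with hn | hn
      · obtain ⟨s, rfl⟩ := Nat.exists_eq_add_of_le hk
        obtain ⟨e, rfl⟩ := Nat.exists_eq_add_of_le hn
        obtain ⟨a, b, c, d⟩ := core_ax_11_4 k e s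
        push_cast at *
        exact mul_red hZ0 hZ0' a b c d hZ (by linarith) (by linarith)
      · obtain ⟨e, rfl⟩ := Nat.exists_eq_add_of_le hk
        obtain ⟨s, rfl⟩ := Nat.exists_eq_add_of_le hn
        obtain ⟨a, b, c, d⟩ := core_ax_11_5 n e s
        push_cast at *
        exact mul_red hZ0 hZ0' a b c d hZ (by linarith) (by linarith)
    · rcases le_total n h with hn | hn
      · obtain ⟨s, rfl⟩ := Nat.exists_eq_add_of_le hk
        obtain ⟨e, rfl⟩ := Nat.exists_eq_add_of_le hn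
        obtain ⟨a, b, c, d⟩ := core_ax_11_1 n e s
        push_cast at *
        exact mul_red hZ0 hZ0' a b c d hZ (by linarith) (by linarith)
      · rcases le_total n k with hn2 | hn2
        · obtain ⟨s, rfl⟩ := Nat.exists_eq_add_of_le hn2
          obtain ⟨e, rfl⟩ := Nat.exists_eq_add_of_le hn
          obtain ⟨a, b, c, d⟩ := core_ax_11_2 h e s
          push_cast at *
          exact mul_red hZ0 hZ0' a b c d hZ (by linarith) (by linarith)
        · obtain ⟨e, rfl⟩ := Nat.exists_eq_add_of_le hn2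
          obtain ⟨s, rfl⟩ := Nat.exists_eq_add_of_le hk
          obtain ⟨a, b, c, d⟩ := core_ax_11_3 h e s
          push_cast at *
          exact mul_red hZ0 hZ0' a b c d hZ (by linarith) (by linarith)

theorem num_xx {u v : ℚ} (hu : u = 0 ∨ u = 1) (hv : v = 0 ∨ v = 1) (n h k : ℕ)
    {d1 d2 Zef Z0 : ℚ}
    (h1 : d1 ≤ n) (h1' : d1 ≤ k) (h2 : d2 ≤ n) (h2' : d2 ≤ k) (hZ0 : 0 ≤ Z0)
    (hZ0' : Z0 ≤ FF u v n h k)
    (hZ : Zef ≤ FF u v n (h+1+1) k - FF u v n (h+1) k - FF u v n (h+1) k + FF u v n h k) :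
    Zef * Z0 ≤ (FF u v n (h+1) k - FF u v n h k - v*d1) *
      (FF u v n (h+1) k - FF u v n h k - v*d2) := by
  rcases hu with rfl | rfl <;> rcases hv with rfl | rfl
  · obtain ⟨a, b, c, d⟩ := core_xx_00 n h k
    exact mul_red hZ0 hZ0' a b c d hZ (by linarith) (by linarith)
  · rcases le_total n k with hk | hk
    · obtain ⟨s, rfl⟩ := Nat.exists_eq_add_of_le hk
      obtain ⟨a, b, c, d⟩ := core_xx_01_1 n h s
      push_cast at *
      exact mul_red hZ0 hZ0' a b c d hZ (by linarith) (by linarith)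
    · obtain ⟨s, rfl⟩ := Nat.exists_eq_add_of_le hk
      obtain ⟨a, b, c, d⟩ := core_xx_01_2 k h s
      push_cast at *
      exact mul_red hZ0 hZ0' a b c d hZ (by linarith) (by linarith)
  · obtain ⟨a, b, c, d⟩ := core_xx_10 n h k
    exact mul_red hZ0 hZ0' a b c d hZ (by linarith) (by linarith)
  · rcases le_total n k with hk | hk
    · obtain ⟨s, rfl⟩ := Nat.exists_eq_add_of_le hk
      obtain ⟨a, b, c, d⟩ := core_xx_11_1 n h s
      push_cast at *
      exact mul_red hZ0 hZ0' a b c d hZ (by linarith) (by linarith)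
    · obtain ⟨s, rfl⟩ := Nat.exists_eq_add_of_le hk
      obtain ⟨a, b, c, d⟩ := core_xx_11_2 k h s
      push_cast at *
      exact mul_red hZ0 hZ0' a b c d hZ (by linarith) (by linarith)

theorem num_xy_le {u v : ℚ} (hu : u = 0 ∨ u = 1) (hv : v = 0 ∨ v = 1) (n h k : ℕ)
    {dx dy Zef Z0 : ℚ} (hk : h ≤ k)
    (h1 : dx ≤ n) (h1' : dx ≤ k) (h2 : dy ≤ n) (h2' : dy ≤ h) (hZ0 : 0 ≤ Z0)
    (hZ0' : Z0 ≤ FF u v n h k)
    (hZ : Zef ≤ FF u v n (h+1) (k+1) - FF u v n (h+1) k - FF u v n h (k+1) + FF u v n h k) :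
    Zef * Z0 ≤ (FF u v n (h+1) k - FF u v n h k - v*dx) *
      (FF u v n h (k+1) - FF u v n h k - v*dy) := by
  rcases hu with rfl | rfl <;> rcases hv with rfl | rfl
  · obtain ⟨a, b, c, d⟩ := core_xy_00 n h k
    exact mul_red hZ0 hZ0' a b c d hZ (by linarith) (by linarith)
  · rcases le_total n h with hn | hn
    · obtain ⟨s, rfl⟩ := Nat.exists_eq_add_of_le hk
      obtain ⟨e, rfl⟩ := Nat.exists_eq_add_of_le hn
      obtain ⟨a, b, c, d⟩ := core_xy_01_1 n e s
      push_cast at *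
      exact mul_red hZ0 hZ0' a b c d hZ (by linarith) (by linarith)
    · rcases le_total n k with hn2 | hn2
      · obtain ⟨s, rfl⟩ := Nat.exists_eq_add_of_le hn2
        obtain ⟨e, rfl⟩ := Nat.exists_eq_add_of_le hn
        obtain ⟨a, b, c, d⟩ := core_xy_01_2 h e s
        push_cast at *
        exact mul_red hZ0 hZ0' a b c d hZ (by linarith) (by linarith)
      · obtain ⟨e, rfl⟩ := Nat.exists_eq_add_of_le hn2
        obtain ⟨s, rfl⟩ := Nat.exists_eq_add_of_le hk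
        obtain ⟨a, b, c, d⟩ := core_xy_01_3 h e s
        push_cast at *
        exact mul_red hZ0 hZ0' a b c d hZ (by linarith) (by linarith)
  · obtain ⟨a, b, c, d⟩ := core_xy_10 n h k
    exact mul_red hZ0 hZ0' a b c d hZ (by linarith) (by linarith)
  · rcases le_total n h with hn | hn
    · obtain ⟨s, rfl⟩ := Nat.exists_eq_add_of_le hk
      obtain ⟨e, rfl⟩ := Nat.exists_eq_add_of_le hn
      obtain ⟨a, b, c, d⟩ := core_xy_11_1 n e s
      push_cast at *
      exact mul_red hZ0 hZ0' a b c d hZ (by linarith) (by linarith)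
    · rcases le_total n k with hn2 | hn2
      · obtain ⟨s, rfl⟩ := Nat.exists_eq_add_of_le hn2
        obtain ⟨e, rfl⟩ := Nat.exists_eq_add_of_le hn
        obtain ⟨a, b, c, d⟩ := core_xy_11_2 h e s
        push_cast at *
        exact mul_red hZ0 hZ0' a b c d hZ (by linarith) (by linarith)
      · obtain ⟨e, rfl⟩ := Nat.exists_eq_add_of_le hn2
        obtain ⟨s, rfl⟩ := Nat.exists_eq_add_of_le hk
        obtain ⟨a, b, c, d⟩ := core_xy_11_3 h e s
        push_cast at *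
        exact mul_red hZ0 hZ0' a b c d hZ (by linarith) (by linarith)

theorem num_xy {u v : ℚ} (hu : u = 0 ∨ u = 1) (hv : v = 0 ∨ v = 1) (n h k : ℕ)
    {dx dy Zef Z0 : ℚ}
    (h1 : dx ≤ n) (h1' : dx ≤ k) (h2 : dy ≤ n) (h2' : dy ≤ h) (hZ0 : 0 ≤ Z0)
    (hZ0' : Z0 ≤ FF u v n h k)
    (hZ : Zef ≤ FF u v n (h+1) (k+1) - FF u v n (h+1) k - FF u v n h (k+1) + FF u v n h k) :
    Zef * Z0 ≤ (FF u v n (h+1) k - FF u v n h k - v*dx) *
      (FF u v n h (k+1) - FF u v n h k - v*dy) := by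
  rcases le_total h k with hk | hk
  · exact num_xy_le hu hv n h k hk h1 h1' h2 h2' hZ0 hZ0' hZ
  · rw [FF_symm u v n (h+1) (k+1), FF_symm u v n (h+1) k, FF_symm u v n h (k+1),
      FF_symm u v n h k] at hZ
    rw [FF_symm u v n h k] at hZ0'
    rw [FF_symm u v n (h+1) k, FF_symm u v n h (k+1), FF_symm u v n h k, mul_comm (_ - _ - v*dx)]
    exact num_xy_le hu hv n k h hk h2 h2' h1 h1' hZ0 hZ0' (by linarith)

theorem num_ta {v : ℚ} (hv : v = 0 ∨ v = 1) (n h k : ℕ)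
    {d Zef Z0 : ℚ}
    (h1 : d ≤ h) (h1' : d ≤ k) (hZ0 : 0 ≤ Z0)
    (hZ0' : Z0 ≤ FF 0 v n h k)
    (hZ : Zef ≤ FF 1 v (n+1) h k - FF 1 v n h k - FF 0 v (n+1) h k + FF 0 v n h k) :
    Zef * Z0 ≤ (FF 1 v n h k - FF 0 v n h k) *
      (FF 0 v (n+1) h k - FF 0 v n h k - v*d) := by
  rcases hv with rfl | rfl
  · obtain ⟨a, b, c, d⟩ := core_ta_0 n h k
    exact mul_red hZ0 hZ0' a b c d hZ (by linarith) (by linarith)
  · rcases le_total h k with hk | hk
    · obtain ⟨s, rfl⟩ := Nat.exists_eq_add_of_le hk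
      obtain ⟨a, b, c, d⟩ := core_ta_1_1 n h s
      push_cast at *
      exact mul_red hZ0 hZ0' a b c d hZ (by linarith) (by linarith)
    · obtain ⟨s, rfl⟩ := Nat.exists_eq_add_of_le hk
      obtain ⟨a, b, c, d⟩ := core_ta_1_1 n k s
      rw [FF_symm 0 1 n k (k+s), FF_symm 0 1 (n+1) k (k+s)] at b
      rw [FF_symm 1 1 n k (k+s), FF_symm 0 1 n k (k+s), FF_symm 0 1 (n+1) k (k+s),
        FF_symm 1 1 (n+1) k (k+s)] at d
      rw [FF_symm 1 1 n k (k+s), FF_symm 0 1 n k (k+s)] at a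
      rw [FF_symm 1 1 n k (k+s), FF_symm 0 1 n k (k+s), FF_symm 0 1 (n+1) k (k+s),
        FF_symm 1 1 (n+1) k (k+s)] at c
      push_cast at *
      exact mul_red hZ0 hZ0' a b c d hZ (by linarith) (by linarith)

theorem num_tx {v : ℚ} (hv : v = 0 ∨ v = 1) (n h k : ℕ)
    {d Zef Z0 : ℚ}
    (h1 : d ≤ n) (h1' : d ≤ k) (hZ0 : 0 ≤ Z0)
    (hZ0' : Z0 ≤ FF 0 v n h k)
    (hZ : Zef ≤ FF 1 v n (h+1) k - FF 1 v n h k - FF 0 v n (h+1) k + FF 0 v n h k) :
    Zef * Z0 ≤ (FF 1 v n h k - FF 0 v n h k) *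
      (FF 0 v n (h+1) k - FF 0 v n h k - v*d) := by
  rcases hv with rfl | rfl
  · obtain ⟨a, b, c, d⟩ := core_tx_0 n h k
    exact mul_red hZ0 hZ0' a b c d hZ (by linarith) (by linarith)
  · rcases le_total n k with hk | hk
    · obtain ⟨s, rfl⟩ := Nat.exists_eq_add_of_le hk
      obtain ⟨a, b, c, d⟩ := core_tx_1_1 n h s
      push_cast at *
      exact mul_red hZ0 hZ0' a b c d hZ (by linarith) (by linarith)
    · obtain ⟨s, rfl⟩ := Nat.exists_eq_add_of_le hk
      obtain ⟨a, b, c, d⟩ := core_tx_1_2 k h s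
      push_cast at *
      exact mul_red hZ0 hZ0' a b c d hZ (by linarith) (by linarith)

theorem num_ca_le {u : ℚ} (hu : u = 0 ∨ u = 1) (n h k : ℕ)
    {c0 Zef Z0 : ℚ} (hk : h ≤ k)
    (h1 : c0 ≤ n * h) (h3 : c0 ≤ h * k) (hZ0 : 0 ≤ Z0)
    (hZ0' : Z0 ≤ FF u 0 n h k)
    (hZ : Zef ≤ FF u 1 (n+1) h k - FF u 1 n h k - FF u 0 (n+1) h k + FF u 0 n h k) :
    Zef * Z0 ≤ (FF u 1 n h k - FF u 0 n h k - c0) * (FF u 0 (n+1) h k - FF u 0 n h k) := by
  rcases hu with rfl | rfl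
  · rcases le_total n h with hn | hn
    · obtain ⟨s, rfl⟩ := Nat.exists_eq_add_of_le hk
      obtain ⟨e, rfl⟩ := Nat.exists_eq_add_of_le hn
      obtain ⟨a, b, c, d⟩ := core_ca_0_1 n e s
      push_cast at *
      exact mul_red hZ0 hZ0' a b c d hZ (by linarith) (by linarith)
    · rcases le_total n k with hn2 | hn2
      · obtain ⟨s, rfl⟩ := Nat.exists_eq_add_of_le hn2
        obtain ⟨e, rfl⟩ := Nat.exists_eq_add_of_le hn
        obtain ⟨a, b, c, d⟩ := core_ca_0_2 h e s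
        push_cast at *
        exact mul_red hZ0 hZ0' a b c d hZ (by linarith) (by linarith)
      · obtain ⟨e, rfl⟩ := Nat.exists_eq_add_of_le hn2
        obtain ⟨s, rfl⟩ := Nat.exists_eq_add_of_le hk
        obtain ⟨a, b, c, d⟩ := core_ca_0_3 h e s
        push_cast at *
        exact mul_red hZ0 hZ0' a b c d hZ (by linarith) (by linarith)
  · rcases le_total n h with hn | hn
    · obtain ⟨s, rfl⟩ := Nat.exists_eq_add_of_le hk
      obtain ⟨e, rfl⟩ := Nat.exists_eq_add_of_le hn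
      obtain ⟨a, b, c, d⟩ := core_ca_1_1 n e s
      push_cast at *
      exact mul_red hZ0 hZ0' a b c d hZ (by linarith) (by linarith)
    · rcases le_total n k with hn2 | hn2
      · obtain ⟨s, rfl⟩ := Nat.exists_eq_add_of_le hn2
        obtain ⟨e, rfl⟩ := Nat.exists_eq_add_of_le hn
        obtain ⟨a, b, c, d⟩ := core_ca_1_2 h e s
        push_cast at *
        exact mul_red hZ0 hZ0' a b c d hZ (by linarith) (by linarith)
      · obtain ⟨e, rfl⟩ := Nat.exists_eq_add_of_le hn2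
        obtain ⟨s, rfl⟩ := Nat.exists_eq_add_of_le hk
        obtain ⟨a, b, c, d⟩ := core_ca_1_3 h e s
        push_cast at *
        exact mul_red hZ0 hZ0' a b c d hZ (by linarith) (by linarith)

theorem num_ca {u : ℚ} (hu : u = 0 ∨ u = 1) (n h k : ℕ)
    {c0 Zef Z0 : ℚ}
    (h1 : c0 ≤ n * h) (h2 : c0 ≤ n * k) (h3 : c0 ≤ h * k) (hZ0 : 0 ≤ Z0)
    (hZ0' : Z0 ≤ FF u 0 n h k)
    (hZ : Zef ≤ FF u 1 (n+1) h k - FF u 1 n h k - FF u 0 (n+1) h k + FF u 0 n h k) :
    Zef * Z0 ≤ (FF u 1 n h k - FF u 0 n h k - c0) * (FF u 0 (n+1) h k - FF u 0 n h k) := by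
  rcases le_total h k with hk | hk
  · exact num_ca_le hu n h k hk h1 h3 hZ0 hZ0' hZ
  · rw [FF_symm u 1 (n+1) h k, FF_symm u 1 n h k, FF_symm u 0 (n+1) h k,
      FF_symm u 0 n h k] at hZ
    rw [FF_symm u 0 n h k] at hZ0'
    rw [FF_symm u 1 n h k, FF_symm u 0 (n+1) h k, FF_symm u 0 n h k]
    exact num_ca_le hu n k h hk h2 (by rw [mul_comm]; exact h3) hZ0 hZ0' hZ

theorem num_cx {u : ℚ} (hu : u = 0 ∨ u = 1) (n h k : ℕ)
    {c0 Zef Z0 : ℚ}
    (h1 : c0 ≤ n * h) (h2 : c0 ≤ n * k) (h3 : c0 ≤ h * k) (hZ0 : 0 ≤ Z0)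
    (hZ0' : Z0 ≤ FF u 0 n h k)
    (hZ : Zef ≤ FF u 1 n (h+1) k - FF u 1 n h k - FF u 0 n (h+1) k + FF u 0 n h k) :
    Zef * Z0 ≤ (FF u 1 n h k - FF u 0 n h k - c0) * (FF u 0 n (h+1) k - FF u 0 n h k) := by
  rcases hu with rfl | rfl
  · rcases le_total h k with hk | hk
    · rcases le_total n h with hn | hn
      · obtain ⟨s, rfl⟩ := Nat.exists_eq_add_of_le hk
        obtain ⟨e, rfl⟩ := Nat.exists_eq_add_of_le hn
        obtain ⟨a, b, c, d⟩ := core_cx_0_1 n e s
        push_cast at *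
        exact mul_red hZ0 hZ0' a b c d hZ (by linarith) (by linarith)
      · rcases le_total n k with hn2 | hn2
        · obtain ⟨s, rfl⟩ := Nat.exists_eq_add_of_le hn2
          obtain ⟨e, rfl⟩ := Nat.exists_eq_add_of_le hn
          obtain ⟨a, b, c, d⟩ := core_cx_0_2 h e s
          push_cast at *
          exact mul_red hZ0 hZ0' a b c d hZ (by linarith) (by linarith)
        · obtain ⟨e, rfl⟩ := Nat.exists_eq_add_of_le hn2
          obtain ⟨s, rfl⟩ := Nat.exists_eq_add_of_le hk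
          obtain ⟨a, b, c, d⟩ := core_cx_0_3 h e s
          push_cast at *
          exact mul_red hZ0 hZ0' a b c d hZ (by linarith) (by linarith)
    · rcases le_total n k with hn | hn
      · obtain ⟨e, rfl⟩ := Nat.exists_eq_add_of_le hk
        obtain ⟨s, rfl⟩ := Nat.exists_eq_add_of_le hn
        obtain ⟨a, b, c, d⟩ := core_cx_0_4 n e s
        push_cast at *
        exact mul_red hZ0 hZ0' a b c d hZ (by linarith) (by linarith)
      · rcases le_total n h with hn2 | hn2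
        · obtain ⟨e, rfl⟩ := Nat.exists_eq_add_of_le hn2
          obtain ⟨s, rfl⟩ := Nat.exists_eq_add_of_le hn
          obtain ⟨a, b, c, d⟩ := core_cx_0_5 k e s
          push_cast at *
          exact mul_red hZ0 hZ0' a b c d hZ (by linarith) (by linarith)
        · obtain ⟨e, rfl⟩ := Nat.exists_eq_add_of_le hn2
          obtain ⟨s, rfl⟩ := Nat.exists_eq_add_of_le hk
          obtain ⟨a, b, c, d⟩ := core_cx_0_6 k e s
          push_cast at *
          exact mul_red hZ0 hZ0' a b c d hZ (by linarith) (by linarith)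
  · rcases le_total h k with hk | hk
    · rcases le_total n h with hn | hn
      · obtain ⟨s, rfl⟩ := Nat.exists_eq_add_of_le hk
        obtain ⟨e, rfl⟩ := Nat.exists_eq_add_of_le hn
        obtain ⟨a, b, c, d⟩ := core_cx_1_1 n e s
        push_cast at *
        exact mul_red hZ0 hZ0' a b c d hZ (by linarith) (by linarith)
      · rcases le_total n k with hn2 | hn2
        · obtain ⟨s, rfl⟩ := Nat.exists_eq_add_of_le hn2
          obtain ⟨e, rfl⟩ := Nat.exists_eq_add_of_le hn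
          obtain ⟨a, b, c, d⟩ := core_cx_1_2 h e s
          push_cast at *
          exact mul_red hZ0 hZ0' a b c d hZ (by linarith) (by linarith)
        · obtain ⟨e, rfl⟩ := Nat.exists_eq_add_of_le hn2
          obtain ⟨s, rfl⟩ := Nat.exists_eq_add_of_le hk
          obtain ⟨a, b, c, d⟩ := core_cx_1_3 h e s
          push_cast at *
          exact mul_red hZ0 hZ0' a b c d hZ (by linarith) (by linarith)
    · rcases le_total n k with hn | hn
      · obtain ⟨e, rfl⟩ := Nat.exists_eq_add_of_le hk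
        obtain ⟨s, rfl⟩ := Nat.exists_eq_add_of_le hn
        obtain ⟨a, b, c, d⟩ := core_cx_1_4 n e s
        push_cast at *
        exact mul_red hZ0 hZ0' a b c d hZ (by linarith) (by linarith)
      · rcases le_total n h with hn2 | hn2
        · obtain ⟨e, rfl⟩ := Nat.exists_eq_add_of_le hn2
          obtain ⟨s, rfl⟩ := Nat.exists_eq_add_of_le hn
          obtain ⟨a, b, c, d⟩ := core_cx_1_5 k e s
          push_cast at *
          exact mul_red hZ0 hZ0' a b c d hZ (by linarith) (by linarith)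
        · obtain ⟨e, rfl⟩ := Nat.exists_eq_add_of_le hn2
          obtain ⟨s, rfl⟩ := Nat.exists_eq_add_of_le hk
          obtain ⟨a, b, c, d⟩ := core_cx_1_6 k e s
          push_cast at *
          exact mul_red hZ0 hZ0' a b c d hZ (by linarith) (by linarith)

end Pool.Agent.Work.MP_b989b4_co
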