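import Pool.Agent.Work.MP_b989b4_co.Count

/-!
Numerical inequalities (auto-generated case splits), part aa.
-/

set_option linter.unnecessarySeqFocus false
set_option linter.unusedTactic false

namespace Pool.Agent.Work.MP_b989b4_co

theorem core_aa_00 (n h k : ℕ) :
    (0 ≤ (FF 0 0 (n + 1) h k - FF 0 0 n h k)) ∧
    (0 ≤ (FF 0 0 (n + 1) h k - FF 0 0 n h k)) ∧
    (0 ≤ (FF 0 0 ((n + 1) + 1) h k - FF 0 0 (n + 1) h k - FF 0 0 (n + 1) h k + FF 0 0 n h k)) ∧
    ((FF 0 0 ((n + 1) + 1) h k - FF 0 0 (n + 1) h k - FF 0 0 (n + 1) h k + FF 0 0 n h k) * FF 0 0 n h k ≤ (FF 0 0 (n + 1) h k - FF 0 0 n h k) * (FF 0 0 (n + 1) h k - FF 0 0 n h k)) := by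
  refine ⟨?_, ?_, ?_, ?_⟩
  · rcases h with _ | h
    · rcases k with _ | k
      · exact le_of_sub_nonneg (le_of_eq (by unfold FF c2; push_cast; ring))
      · exact le_of_sub_nonneg (by unfold FF c2; push_cast; ring_nf <;> positivity)
    · rcases k with _ | k
      · exact le_of_sub_nonneg (by unfold FF c2; push_cast; ring_nf <;> positivity)
      · exact le_of_sub_nonneg (by unfold FF c2; push_cast; ring_nf <;> positivity)
  · rcases h with _ | h
    · rcases k with _ | k
      · exact le_of_sub_nonneg (le_of_eq (by unfold FF c2; push_cast; ring))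
      · exact le_of_sub_nonneg (by unfold FF c2; push_cast; ring_nf <;> positivity)
    · rcases k with _ | k
      · exact le_of_sub_nonneg (by unfold FF c2; push_cast; ring_nf <;> positivity)
      · exact le_of_sub_nonneg (by unfold FF c2; push_cast; ring_nf <;> positivity)
  · rcases h with _ | h
    · rcases k with _ | k
      · exact le_of_sub_nonneg (le_of_eq (by unfold FF c2; push_cast; ring))
      · exact le_of_sub_nonneg (by unfold FF c2; push_cast; ring_nf <;> positivity)
    · exact le_of_sub_nonneg (by unfold FF c2; push_cast; ring_nf <;> positivity)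
  · rcases h with _ | h
    · rcases k with _ | k
      · exact le_of_sub_nonneg (le_of_eq (by unfold FF c2; push_cast; ring))
      · exact le_of_sub_nonneg (by unfold FF c2; push_cast; ring_nf <;> positivity)
    · rcases k with _ | k
      · exact le_of_sub_nonneg (by unfold FF c2; push_cast; ring_nf <;> positivity)
      · exact le_of_sub_nonneg (by unfold FF c2; push_cast; ring_nf <;> positivity)

theorem core_aa_01 (n h d : ℕ) :
    (0 ≤ ((FF 0 1 (n + 1) h (h + d) - FF 0 1 n h (h + d)) - h)) ∧
    (0 ≤ ((FF 0 1 (n + 1) h (h + d) - FF 0 1 n h (h + d)) - h)) ∧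
    (0 ≤ (FF 0 1 ((n + 1) + 1) h (h + d) - FF 0 1 (n + 1) h (h + d) - FF 0 1 (n + 1) h (h + d) + FF 0 1 n h (h + d))) ∧
    ((FF 0 1 ((n + 1) + 1) h (h + d) - FF 0 1 (n + 1) h (h + d) - FF 0 1 (n + 1) h (h + d) + FF 0 1 n h (h + d)) * FF 0 1 n h (h + d) ≤ ((FF 0 1 (n + 1) h (h + d) - FF 0 1 n h (h + d)) - h) * ((FF 0 1 (n + 1) h (h + d) - FF 0 1 n h (h + d)) - h)) := by
  refine ⟨?_, ?_, ?_, ?_⟩
  · rcases h with _ | h
    · rcases d with _ | d
      · exact le_of_sub_nonneg (le_of_eq (by unfold FF c2; push_cast; ring))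
      · exact le_of_sub_nonneg (by unfold FF c2; push_cast; ring_nf <;> positivity)
    · exact le_of_sub_nonneg (by unfold FF c2; push_cast; ring_nf <;> positivity)
  · rcases h with _ | h
    · rcases d with _ | d
      · exact le_of_sub_nonneg (le_of_eq (by unfold FF c2; push_cast; ring))
      · exact le_of_sub_nonneg (by unfold FF c2; push_cast; ring_nf <;> positivity)
    · exact le_of_sub_nonneg (by unfold FF c2; push_cast; ring_nf <;> positivity)
  · exact le_of_sub_nonneg (by unfold FF c2; push_cast; ring_nf <;> positivity)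
  · rcases h with _ | h
    · rcases d with _ | d
      · exact le_of_sub_nonneg (le_of_eq (by unfold FF c2; push_cast; ring))
      · exact le_of_sub_nonneg (by unfold FF c2; push_cast; ring_nf <;> positivity)
    · rcases h with _ | h
      · rcases d with _ | d
        · exact le_of_sub_nonneg (by unfold FF c2; push_cast; ring_nf <;> positivity)
        · exact le_of_sub_nonneg (by unfold FF c2; push_cast; ring_nf <;> positivity)
      · exact le_of_sub_nonneg (by unfold FF c2; push_cast; ring_nf <;> positivity)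

theorem core_aa_10 (n h k : ℕ) :
    (0 ≤ (FF 1 0 (n + 1) h k - FF 1 0 n h k)) ∧
    (0 ≤ (FF 1 0 (n + 1) h k - FF 1 0 n h k)) ∧
    (0 ≤ (FF 1 0 ((n + 1) + 1) h k - FF 1 0 (n + 1) h k - FF 1 0 (n + 1) h k + FF 1 0 n h k)) ∧
    ((FF 1 0 ((n + 1) + 1) h k - FF 1 0 (n + 1) h k - FF 1 0 (n + 1) h k + FF 1 0 n h k) * FF 1 0 n h k ≤ (FF 1 0 (n + 1) h k - FF 1 0 n h k) * (FF 1 0 (n + 1) h k - FF 1 0 n h k)) := by
  refine ⟨?_, ?_, ?_, ?_⟩
  · rcases h with _ | h
    · rcases k with _ | k
      · exact le_of_sub_nonneg (le_of_eq (by unfold FF c2; push_cast; ring))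
      · exact le_of_sub_nonneg (by unfold FF c2; push_cast; ring_nf <;> positivity)
    · exact le_of_sub_nonneg (by unfold FF c2; push_cast; ring_nf <;> positivity)
  · rcases h with _ | h
    · rcases k with _ | k
      · exact le_of_sub_nonneg (le_of_eq (by unfold FF c2; push_cast; ring))
      · exact le_of_sub_nonneg (by unfold FF c2; push_cast; ring_nf <;> positivity)
    · exact le_of_sub_nonneg (by unfold FF c2; push_cast; ring_nf <;> positivity)
  · rcases h with _ | h
    · rcases k with _ | k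
      · exact le_of_sub_nonneg (le_of_eq (by unfold FF c2; push_cast; ring))
      · exact le_of_sub_nonneg (by unfold FF c2; push_cast; ring_nf <;> positivity)
    · exact le_of_sub_nonneg (by unfold FF c2; push_cast; ring_nf <;> positivity)
  · rcases h with _ | h
    · rcases k with _ | k
      · exact le_of_sub_nonneg (le_of_eq (by unfold FF c2; push_cast; ring))
      · exact le_of_sub_nonneg (by unfold FF c2; push_cast; ring_nf <;> positivity)
    · exact le_of_sub_nonneg (by unfold FF c2; push_cast; ring_nf <;> positivity)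

theorem core_aa_11 (n h d : ℕ) :
    (0 ≤ ((FF 1 1 (n + 1) h (h + d) - FF 1 1 n h (h + d)) - h)) ∧
    (0 ≤ ((FF 1 1 (n + 1) h (h + d) - FF 1 1 n h (h + d)) - h)) ∧
    (0 ≤ (FF 1 1 ((n + 1) + 1) h (h + d) - FF 1 1 (n + 1) h (h + d) - FF 1 1 (n + 1) h (h + d) + FF 1 1 n h (h + d))) ∧
    ((FF 1 1 ((n + 1) + 1) h (h + d) - FF 1 1 (n + 1) h (h + d) - FF 1 1 (n + 1) h (h + d) + FF 1 1 n h (h + d)) * FF 1 1 n h (h + d) ≤ ((FF 1 1 (n + 1) h (h + d) - FF 1 1 n h (h + d)) - h) * ((FF 1 1 (n + 1) h (h + d) - FF 1 1 n h (h + d)) - h)) := by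
  refine ⟨?_, ?_, ?_, ?_⟩
  · rcases h with _ | h
    · exact le_of_sub_nonneg (by unfold FF c2; push_cast; ring_nf <;> positivity)
    · exact le_of_sub_nonneg (by unfold FF c2; push_cast; ring_nf <;> positivity)
  · rcases h with _ | h
    · exact le_of_sub_nonneg (by unfold FF c2; push_cast; ring_nf <;> positivity)
    · exact le_of_sub_nonneg (by unfold FF c2; push_cast; ring_nf <;> positivity)
  · exact le_of_sub_nonneg (by unfold FF c2; push_cast; ring_nf <;> positivity)
  · rcases h with _ | h
    · exact le_of_sub_nonneg (by unfold FF c2; push_cast; ring_nf <;> positivity)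
    · exact le_of_sub_nonneg (by unfold FF c2; push_cast; ring_nf <;> positivity)

end Pool.Agent.Work.MP_b989b4_co
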