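import Pool.Agent.Work.MP_b989b4_co.Num

/-!
The correlation inequality for every pair of elements except `{t, c}`.
-/

namespace Pool.Agent.Work.MP_b989b4_co

open Finset
open scoped Classical

variable {Z : Type*} [AddCommGroup Z]

theorem sC_symm (S A B : Finset Z) : sC S A B = sC S B A := by
  unfold sC
  refine Finset.card_bij (fun p _ => (p.2, p.1)) ?_ ?_ ?_
  · rintro ⟨i, j⟩ h
    simp only [mem_filter, mem_product] at h ⊢
    exact ⟨⟨h.1.2, h.1.1⟩, by rw [add_comm]; exact h.2⟩
  · rintro ⟨i, j⟩ _ ⟨i', j'⟩ _ h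
    simp only [Prod.mk.injEq] at h ⊢
    exact ⟨h.2, h.1⟩
  · rintro ⟨i, j⟩ h
    simp only [mem_filter, mem_product] at h
    refine ⟨(j, i), ?_, rfl⟩
    simp only [mem_filter, mem_product]
    exact ⟨⟨h.1.2, h.1.1⟩, by rw [add_comm]; exact h.2⟩

theorem sC_le_AB (S A B : Finset Z) : sC S A B ≤ #A * #B := by
  unfold sC
  refine (card_filter_le _ _).trans ?_
  rw [card_product]

theorem sC_le_SA (S A B : Finset Z) : sC S A B ≤ #S * #A := by
  unfold sC
  rw [← card_product]
  refine Finset.card_le_card_of_injOn (fun p => (p.1 + p.2, p.1)) ?_ ?_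
  · rintro ⟨i, j⟩ h
    simp only [coe_filter, mem_product, Set.mem_ofPred_eq] at h
    simp only [coe_product, Set.mem_prod, mem_coe]
    exact ⟨h.2, h.1.1⟩
  · rintro ⟨i, j⟩ _ ⟨i', j'⟩ _ h
    simp only [Prod.mk.injEq] at h ⊢
    obtain ⟨h1, rfl⟩ := h
    exact ⟨rfl, add_left_cancel h1⟩

theorem sC_le_SB (S A B : Finset Z) : sC S A B ≤ #S * #B := by
  rw [sC_symm]; exact sC_le_SA S B A

theorem sC_insert_S (S A B : Finset Z) {s : Z} (hs : s ∉ S) :
    sC (insert s S) A B = sC S A B + sC {s} A B := by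
  unfold sC
  rw [← card_union_of_disjoint]
  · congr 1
    ext ⟨i, j⟩
    simp only [mem_filter, mem_product, mem_insert, mem_union, mem_singleton]
    tauto
  · rw [Finset.disjoint_left]
    rintro ⟨i, j⟩ h h'
    simp only [mem_filter, mem_product, mem_singleton] at h h'
    exact hs (h'.2 ▸ h.2)

theorem sC_insert_A (S A B : Finset Z) {i : Z} (hi : i ∉ A) :
    sC S (insert i A) B = sC S A B + sC S {i} B := by
  unfold sC
  rw [← card_union_of_disjoint]
  · congr 1
    ext ⟨i, j⟩
    simp only [mem_filter, mem_product, mem_insert, mem_union, mem_singleton]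
    tauto
  · rw [Finset.disjoint_left]
    rintro ⟨i', j⟩ h h'
    simp only [mem_filter, mem_product, mem_singleton] at h h'
    exact hi (h'.1.1 ▸ h.1.1)

theorem sC_insert_B (S A B : Finset Z) {i : Z} (hi : i ∉ B) :
    sC S A (insert i B) = sC S A B + sC S A {i} := by
  rw [sC_symm S A (insert i B), sC_insert_A S B A hi, sC_symm S B A, sC_symm S {i} A]

/-- the count of bases as a function of the parts -/
noncomputable def G (u v : ℚ) (S A B : Finset Z) : ℚ := FF u v #S #A #B - v * sC S A B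

theorem G_symm (u v : ℚ) (S A B : Finset Z) : G u v S A B = G u v S B A := by
  unfold G; rw [FF_symm, sC_symm]

theorem bM_eq (R : Finset (El Z)) :
    (bM R : ℚ) = G #(pT R) #(pC R) (pA R) (pX R) (pY R) := bM_formula R

theorem G_le {u v : ℚ} (hv : v = 0 ∨ v = 1) (S A B : Finset Z) :
    G u v S A B ≤ FF u v #S #A #B := by
  have h : (0 : ℚ) ≤ sC S A B := Nat.cast_nonneg _
  unfold G
  rcases hv with rfl | rfl <;> linarith

section pairs

variable {u v : ℚ} {S A B : Finset Z}

theorem gaa (hu : u = 0 ∨ u = 1) (hv : v = 0 ∨ v = 1) {s s' : Z} (hs : s ∉ S) (hs' : s' ∉ S)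
    (hne : s ≠ s') (h0 : 0 ≤ G u v S A B) :
    (G u v (insert s (insert s' S)) A B - G u v (insert s S) A B - G u v (insert s' S) A B
      + G u v S A B) * G u v S A B ≤
    (G u v (insert s S) A B - G u v S A B) * (G u v (insert s' S) A B - G u v S A B) := by
  have hs2 : s ∉ insert s' S := by simp [hne, hs]
  have b1 := sC_le_SA {s} A B
  have b2 := sC_le_SB {s} A B
  have b3 := sC_le_SA {s'} A B
  have b4 := sC_le_SB {s'} A B
  rw [card_singleton, one_mul] at b1 b2 b3 b4
  have key := num_aa hu hv #S #A #B (d1 := sC {s} A B) (d2 := sC {s'} A B)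
    (by exact_mod_cast b1) (by exact_mod_cast b2) (by exact_mod_cast b3) (by exact_mod_cast b4)
    h0 (G_le hv S A B) le_rfl
  unfold G at *
  rw [sC_insert_S _ _ _ hs2, sC_insert_S _ _ _ hs', sC_insert_S _ _ _ hs,
    card_insert_of_notMem hs2, card_insert_of_notMem hs', card_insert_of_notMem hs]
  push_cast
  calc _ = _ := by ring
    _ ≤ _ := key
    _ = _ := by ring

theorem gax (hu : u = 0 ∨ u = 1) (hv : v = 0 ∨ v = 1) {s i : Z} (hs : s ∉ S) (hi : i ∉ A)
    (h0 : 0 ≤ G u v S A B) :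
    (G u v (insert s S) (insert i A) B - G u v (insert s S) A B - G u v S (insert i A) B
      + G u v S A B) * G u v S A B ≤
    (G u v (insert s S) A B - G u v S A B) * (G u v S (insert i A) B - G u v S A B) := by
  have b1 := sC_le_SA {s} A B
  have b2 := sC_le_SB {s} A B
  have b3 := sC_le_SA S {i} B
  have b4 := sC_le_AB S {i} B
  have b5 : (0 : ℚ) ≤ sC {s} {i} B := Nat.cast_nonneg _
  rw [card_singleton, one_mul] at b1 b2
  rw [card_singleton, mul_one] at b3
  rw [card_singleton, one_mul] at b4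
  have e : 0 ≤ v * sC {s} {i} B := by rcases hv with rfl | rfl <;> simp
  have key := num_ax hu hv #S #A #B (da := sC {s} A B) (dx := sC S {i} B)
    (Zef := FF u v (#S+1) (#A+1) #B - FF u v (#S+1) #A #B - FF u v #S (#A+1) #B + FF u v #S #A #B
      - v * sC {s} {i} B)
    (by exact_mod_cast b1) (by exact_mod_cast b2) (by exact_mod_cast b3) (by exact_mod_cast b4)
    h0 (G_le hv S A B) (by linarith)
  unfold G at *
  rw [sC_insert_S _ _ _ hs, sC_insert_S _ _ _ hs, sC_insert_A _ _ _ hi, sC_insert_A _ _ _ hi,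
    card_insert_of_notMem hs, card_insert_of_notMem hi]
  push_cast
  calc _ = _ := by ring
    _ ≤ _ := key
    _ = _ := by ring

theorem gay (hu : u = 0 ∨ u = 1) (hv : v = 0 ∨ v = 1) {s i : Z} (hs : s ∉ S) (hi : i ∉ B)
    (h0 : 0 ≤ G u v S A B) :
    (G u v (insert s S) A (insert i B) - G u v (insert s S) A B - G u v S A (insert i B)
      + G u v S A B) * G u v S A B ≤
    (G u v (insert s S) A B - G u v S A B) * (G u v S A (insert i B) - G u v S A B) := by
  rw [G_symm u v S A B] at h0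
  rw [G_symm u v (insert s S) A (insert i B), G_symm u v (insert s S) A B,
    G_symm u v S A (insert i B), G_symm u v S A B]
  exact gax hu hv hs hi h0

theorem gxx (hu : u = 0 ∨ u = 1) (hv : v = 0 ∨ v = 1) {s s' : Z} (hs : s ∉ A) (hs' : s' ∉ A)
    (hne : s ≠ s') (h0 : 0 ≤ G u v S A B) :
    (G u v S (insert s (insert s' A)) B - G u v S (insert s A) B - G u v S (insert s' A) B
      + G u v S A B) * G u v S A B ≤
    (G u v S (insert s A) B - G u v S A B) * (G u v S (insert s' A) B - G u v S A B) := by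
  have hs2 : s ∉ insert s' A := by simp [hne, hs]
  have b1 := sC_le_SA S {s} B
  have b2 := sC_le_AB S {s} B
  have b3 := sC_le_SA S {s'} B
  have b4 := sC_le_AB S {s'} B
  rw [card_singleton, mul_one] at b1 b3
  rw [card_singleton, one_mul] at b2 b4
  have key := num_xx hu hv #S #A #B (d1 := sC S {s} B) (d2 := sC S {s'} B)
    (by exact_mod_cast b1) (by exact_mod_cast b2) (by exact_mod_cast b3) (by exact_mod_cast b4)
    h0 (G_le hv S A B) le_rfl
  unfold G at *
  rw [sC_insert_A _ _ _ hs2, sC_insert_A _ _ _ hs', sC_insert_A _ _ _ hs,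
    card_insert_of_notMem hs2, card_insert_of_notMem hs', card_insert_of_notMem hs]
  push_cast
  calc _ = _ := by ring
    _ ≤ _ := key
    _ = _ := by ring

theorem gyy (hu : u = 0 ∨ u = 1) (hv : v = 0 ∨ v = 1) {s s' : Z} (hs : s ∉ B) (hs' : s' ∉ B)
    (hne : s ≠ s') (h0 : 0 ≤ G u v S A B) :
    (G u v S A (insert s (insert s' B)) - G u v S A (insert s B) - G u v S A (insert s' B)
      + G u v S A B) * G u v S A B ≤
    (G u v S A (insert s B) - G u v S A B) * (G u v S A (insert s' B) - G u v S A B) := by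
  rw [G_symm u v S A B] at h0
  rw [G_symm u v S A (insert s (insert s' B)), G_symm u v S A (insert s B),
    G_symm u v S A (insert s' B), G_symm u v S A B]
  exact gxx hu hv hs hs' hne h0

theorem gxy (hu : u = 0 ∨ u = 1) (hv : v = 0 ∨ v = 1) {s i : Z} (hs : s ∉ A) (hi : i ∉ B)
    (h0 : 0 ≤ G u v S A B) :
    (G u v S (insert s A) (insert i B) - G u v S (insert s A) B - G u v S A (insert i B)
      + G u v S A B) * G u v S A B ≤
    (G u v S (insert s A) B - G u v S A B) * (G u v S A (insert i B) - G u v S A B) := by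
  have b1 := sC_le_SA S {s} B
  have b2 := sC_le_AB S {s} B
  have b3 := sC_le_SB S A {i}
  have b4 := sC_le_AB S A {i}
  have b5 : (0 : ℚ) ≤ sC S {s} {i} := Nat.cast_nonneg _
  rw [card_singleton, mul_one] at b1 b3 b4
  rw [card_singleton, one_mul] at b2
  have e : 0 ≤ v * sC S {s} {i} := by rcases hv with rfl | rfl <;> simp
  have key := num_xy hu hv #S #A #B (dx := sC S {s} B) (dy := sC S A {i})
    (Zef := FF u v #S (#A+1) (#B+1) - FF u v #S (#A+1) #B - FF u v #S #A (#B+1) + FF u v #S #A #B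
      - v * sC S {s} {i})
    (by exact_mod_cast b1) (by exact_mod_cast b2) (by exact_mod_cast b3) (by exact_mod_cast b4)
    h0 (G_le hv S A B) (by linarith)
  unfold G at *
  rw [sC_insert_A _ _ _ hs, sC_insert_A _ _ _ hs, sC_insert_B _ _ _ hi, sC_insert_B _ _ _ hi,
    card_insert_of_notMem hs, card_insert_of_notMem hi]
  push_cast
  calc _ = _ := by ring
    _ ≤ _ := key
    _ = _ := by ring

theorem gta (hv : v = 0 ∨ v = 1) {s : Z} (hs : s ∉ S) (h0 : 0 ≤ G 0 v S A B) :
    (G 1 v (insert s S) A B - G 1 v S A B - G 0 v (insert s S) A B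
      + G 0 v S A B) * G 0 v S A B ≤
    (G 1 v S A B - G 0 v S A B) * (G 0 v (insert s S) A B - G 0 v S A B) := by
  have b1 := sC_le_SA {s} A B
  have b2 := sC_le_SB {s} A B
  rw [card_singleton, one_mul] at b1 b2
  have key := num_ta hv #S #A #B (d := sC {s} A B)
    (by exact_mod_cast b1) (by exact_mod_cast b2)
    h0 (G_le hv S A B) le_rfl
  unfold G at *
  rw [sC_insert_S _ _ _ hs, card_insert_of_notMem hs]
  push_cast
  calc _ = _ := by ring
    _ ≤ _ := key
    _ = _ := by ring

theorem gtx (hv : v = 0 ∨ v = 1) {s : Z} (hs : s ∉ A) (h0 : 0 ≤ G 0 v S A B) :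
    (G 1 v S (insert s A) B - G 1 v S A B - G 0 v S (insert s A) B
      + G 0 v S A B) * G 0 v S A B ≤
    (G 1 v S A B - G 0 v S A B) * (G 0 v S (insert s A) B - G 0 v S A B) := by
  have b1 := sC_le_SA S {s} B
  have b2 := sC_le_AB S {s} B
  rw [card_singleton, mul_one] at b1
  rw [card_singleton, one_mul] at b2
  have key := num_tx hv #S #A #B (d := sC S {s} B)
    (by exact_mod_cast b1) (by exact_mod_cast b2)
    h0 (G_le hv S A B) le_rfl
  unfold G at *
  rw [sC_insert_A _ _ _ hs, card_insert_of_notMem hs]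
  push_cast
  calc _ = _ := by ring
    _ ≤ _ := key
    _ = _ := by ring

theorem gty (hv : v = 0 ∨ v = 1) {s : Z} (hs : s ∉ B) (h0 : 0 ≤ G 0 v S A B) :
    (G 1 v S A (insert s B) - G 1 v S A B - G 0 v S A (insert s B)
      + G 0 v S A B) * G 0 v S A B ≤
    (G 1 v S A B - G 0 v S A B) * (G 0 v S A (insert s B) - G 0 v S A B) := by
  rw [G_symm 0 v S A B] at h0
  rw [G_symm 1 v S A (insert s B), G_symm 1 v S A B, G_symm 0 v S A (insert s B),
    G_symm 0 v S A B]
  exact gtx hv hs h0

theorem gca (hu : u = 0 ∨ u = 1) {s : Z} (hs : s ∉ S) (h0 : 0 ≤ G u 0 S A B) :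
    (G u 1 (insert s S) A B - G u 1 S A B - G u 0 (insert s S) A B
      + G u 0 S A B) * G u 0 S A B ≤
    (G u 1 S A B - G u 0 S A B) * (G u 0 (insert s S) A B - G u 0 S A B) := by
  have b1 := sC_le_SA S A B
  have b2 := sC_le_SB S A B
  have b3 := sC_le_AB S A B
  have b5 : (0 : ℚ) ≤ sC {s} A B := Nat.cast_nonneg _
  have key := num_ca hu #S #A #B (c0 := sC S A B)
    (Zef := FF u 1 (#S+1) #A #B - FF u 1 #S #A #B - FF u 0 (#S+1) #A #B + FF u 0 #S #A #B
      - sC {s} A B)
    (by exact_mod_cast b1) (by exact_mod_cast b2) (by exact_mod_cast b3)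
    h0 (G_le (Or.inl rfl) S A B) (by linarith)
  unfold G at *
  rw [sC_insert_S _ _ _ hs, card_insert_of_notMem hs]
  push_cast
  calc _ = _ := by ring
    _ ≤ _ := key
    _ = _ := by ring

theorem gcx (hu : u = 0 ∨ u = 1) {s : Z} (hs : s ∉ A) (h0 : 0 ≤ G u 0 S A B) :
    (G u 1 S (insert s A) B - G u 1 S A B - G u 0 S (insert s A) B
      + G u 0 S A B) * G u 0 S A B ≤
    (G u 1 S A B - G u 0 S A B) * (G u 0 S (insert s A) B - G u 0 S A B) := by
  have b1 := sC_le_SA S A B
  have b2 := sC_le_SB S A B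
  have b3 := sC_le_AB S A B
  have b5 : (0 : ℚ) ≤ sC S {s} B := Nat.cast_nonneg _
  have key := num_cx hu #S #A #B (c0 := sC S A B)
    (Zef := FF u 1 #S (#A+1) #B - FF u 1 #S #A #B - FF u 0 #S (#A+1) #B + FF u 0 #S #A #B
      - sC S {s} B)
    (by exact_mod_cast b1) (by exact_mod_cast b2) (by exact_mod_cast b3)
    h0 (G_le (Or.inl rfl) S A B) (by linarith)
  unfold G at *
  rw [sC_insert_A _ _ _ hs, card_insert_of_notMem hs]
  push_cast
  calc _ = _ := by ring
    _ ≤ _ := key
    _ = _ := by ring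

theorem gcy (hu : u = 0 ∨ u = 1) {s : Z} (hs : s ∉ B) (h0 : 0 ≤ G u 0 S A B) :
    (G u 1 S A (insert s B) - G u 1 S A B - G u 0 S A (insert s B)
      + G u 0 S A B) * G u 0 S A B ≤
    (G u 1 S A B - G u 0 S A B) * (G u 0 S A (insert s B) - G u 0 S A B) := by
  rw [G_symm u 0 S A B] at h0
  rw [G_symm u 1 S A (insert s B), G_symm u 1 S A B, G_symm u 0 S A (insert s B),
    G_symm u 0 S A B]
  exact gcx hu hs h0

end pairs

end Pool.Agent.Work.MP_b989b4_co
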