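import Pool.Agent.Work.MP_b989b4_co.Final

/-!
The excluded minors have rank four and between `p` and `3 p + 2` elements.
-/

namespace Pool.Agent.Work.MP_b989b4_co

open Finset
open scoped Classical

section transport

variable {k : ℕ} {Z : Type*} [AddCommGroup Z]

theorem transport_four (R : Finset (El Z)) (hR : Bad R) (hmin : ∀ R' ⊂ R, ¬ Bad R') :
    ∃ M : Matroid (Fin #R), M.E = Set.univ ∧ (∀ B, M.IsBase B → B.ncard = 4) ∧
      (∃ e f, e ≠ f ∧ ¬ Four M e f) ∧
      ∀ N : Matroid (Fin #R), N.IsStrictMinor M → ∀ e ∈ N.E, ∀ f ∈ N.E, e ≠ f → Four N e f := by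
  set φ : Fin #R ↪ El Z := R.equivFin.symm.toEmbedding.trans (Function.Embedding.subtype _) with hφ
  have hmem : ∀ i, φ i ∈ R := fun i => (R.equivFin.symm i).2
  have hsurj : ∀ x ∈ R, ∃ i, φ i = x := fun x hx => ⟨R.equivFin ⟨x, hx⟩, by simp [hφ]⟩
  have huniv : (univ : Finset (Fin #R)).map φ = R := by
    ext x
    rw [mem_map]
    constructor
    · rintro ⟨i, _, rfl⟩; exact hmem i
    · intro hx
      obtain ⟨i, hi⟩ := hsurj x hx
      exact ⟨i, mem_univ _, hi⟩
  have hpre : ∀ Q ⊆ R, ∃ W : Finset (Fin #R), W.map φ = Q := by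
    intro Q hQ
    refine ⟨univ.filter (fun i => φ i ∈ Q), ?_⟩
    ext x
    rw [mem_map]
    constructor
    · rintro ⟨i, hi, rfl⟩; exact (mem_filter.1 hi).2
    · intro hx
      obtain ⟨i, rfl⟩ := hsurj x (hQ hx)
      exact ⟨i, mem_filter.2 ⟨mem_univ _, hx⟩, rfl⟩
  have hex : ∃ B, IB φ B := by
    obtain ⟨B, hB, hBM⟩ := bad_pos hR
    obtain ⟨W, rfl⟩ := hpre B hB
    exact ⟨W, W, rfl, hBM⟩
  have hM := Mat_base φ hex
  have hME : (Mat φ hex).E = Set.univ := rfl
  have hM4 : ∀ B, (Mat φ hex).IsBase B → B.ncard = 4 := by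
    rintro B ⟨F, rfl, hF⟩
    rw [Set.ncard_coe_finset, ← card_map φ]
    exact baseM_card hF
  refine ⟨Mat φ hex, hME, hM4, ?_, ?_⟩
  · obtain ⟨Q, e, f, he, hf, hne, hQR, hP⟩ := hR
    have hQ : Q ⊆ R := by
      rw [← hQR]; exact (subset_insert _ _).trans (subset_insert _ _)
    have heR : e ∈ R := by rw [← hQR]; exact mem_insert_self _ _
    have hfR : f ∈ R := by rw [← hQR]; exact mem_insert_of_mem (mem_insert_self _ _)
    obtain ⟨W, rfl⟩ := hpre Q hQ
    obtain ⟨e', rfl⟩ := hsurj e heR
    obtain ⟨f', rfl⟩ := hsurj f hfR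
    have he' : e' ∉ W := fun h => he (mem_map_of_mem φ h)
    have hf' : f' ∉ W := fun h => hf (mem_map_of_mem φ h)
    have hne' : e' ≠ f' := fun h => hne (by rw [h])
    refine ⟨e', f', hne', fun hF => hP ?_⟩
    rw [← pair_iff φ hM he' hf' hne']
    have hu : insert e' (insert f' W) = univ := by
      apply map_injective φ
      rw [map_insert, map_insert, huniv]
      exact hQR
    rw [hu]
    exact hF
  · intro N hN e he f hf hne
    rcases minor_cases hM4 hN.isMinor with ⟨r, hr, hall⟩ | hres
    · exact four_low N hne r hr hall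
    · -- a proper restriction
      have hss := hN.ssubset
      rw [hME] at hss
      set W : Finset (Fin #R) := N.E.toFinite.toFinset with hW
      have hWmem : ∀ x, x ∈ W ↔ x ∈ N.E := by intro x; rw [hW, Set.Finite.mem_toFinset]
      have hWne : W ≠ univ := by
        intro h
        apply hss.2
        intro x _
        rw [← hWmem, h]; exact mem_univ _
      set V : Finset (Fin #R) := (W.erase e).erase f with hV
      have heV : e ∉ V := by simp [hV]
      have hfV : f ∉ V := by simp [hV]
      have hins : insert e (insert f V) = W := by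
        ext x
        simp only [hV, mem_insert, mem_erase]
        constructor
        · rintro (rfl | rfl | h)
          · exact (hWmem _).2 he
          · exact (hWmem _).2 hf
          · exact h.2.2
        · intro hx
          tauto
      have hpair : Pair (V.map φ) (φ e) (φ f) := by
        by_contra hP
        refine hmin (W.map φ) ?_ ⟨V.map φ, φ e, φ f, ?_, ?_, ?_, ?_, hP⟩
        · rw [Finset.ssubset_iff_subset_ne]
          refine ⟨fun x hx => ?_, fun h => hWne ?_⟩
          · obtain ⟨i, _, rfl⟩ := mem_map.1 hx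
            exact hmem i
          · apply map_injective φ
            rw [huniv]; exact h
        · rw [mem_map' φ]; exact heV
        · rw [mem_map' φ]; exact hfV
        · exact fun h => hne (φ.injective h)
        · rw [← hins, map_insert, map_insert]
      rw [← pair_iff φ hM heV hfV hne, hins] at hpair
      have hfam : ∀ P : Finset (Fin #R) → Prop, fam N univ P = fam (Mat φ hex) W P := by
        intro P
        ext B
        rw [mem_fam, mem_fam, hres]
        constructor
        · rintro ⟨_, ⟨h1, h2⟩, h3⟩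
          exact ⟨fun x hx => (hWmem x).2 (h2 hx), h1, h3⟩
        · rintro ⟨h1, h2, h3⟩
          exact ⟨subset_univ _, ⟨h2, fun x hx => (hWmem x).1 (h1 hx)⟩, h3⟩
      unfold Four
      rw [hfam, hfam, hfam, hfam]
      exact hpair

end transport

theorem main_four {p : ℕ} (hp : p.Prime) : ∃ k : ℕ, p ≤ k ∧ k ≤ 3 * p + 2 ∧
    ∃ M : Matroid (Fin k), M.E = Set.univ ∧ (∀ B, M.IsBase B → B.ncard = 4) ∧
      (∃ e f, e ≠ f ∧ ¬ Four M e f) ∧
      ∀ N : Matroid (Fin k), N.IsStrictMinor M → ∀ e ∈ N.E, ∀ f ∈ N.E, e ≠ f → Four N e f := by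
  obtain ⟨R, hR, hmin⟩ := exists_min_bad (exists_bad hp)
  have : NeZero p := ⟨hp.ne_zero⟩
  have : Fintype (ZMod p) := ZMod.fintype p
  refine ⟨#R, bad_card hp hR, ?_, transport_four R hR hmin⟩
  calc #R ≤ Fintype.card (El (ZMod p)) := card_le_univ R
    _ = 3 * p + 2 := by
      simp only [El, Fintype.card_sum, Fintype.card_unit, ZMod.card]
      ring

end Pool.Agent.Work.MP_b989b4_co
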