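import Mathlib
import Pool.Agent.Work.MP_b989b4_co.Grid

/-!
Rank three matroids are negatively correlated.
-/

namespace Pool.Agent.Work.MP_b989b4_co

open Finset
open scoped Classical

variable {α : Type*}

/-- bases contained in `Y` with a property -/
noncomputable def fam (N : Matroid α) (Y : Finset α) (P : Finset α → Prop) : Finset (Finset α) :=
  {B ∈ Y.powerset | N.IsBase (B : Set α) ∧ P B}

theorem mem_fam {N : Matroid α} {Y : Finset α} {P : Finset α → Prop} {B : Finset α} :
    B ∈ fam N Y P ↔ B ⊆ Y ∧ N.IsBase (B : Set α) ∧ P B := by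
  simp [fam]

section rank3

variable {N : Matroid α} (h3 : ∀ B, N.IsBase B → B.ncard = 3)
include h3

theorem base_of_indep {I : Set α} (hI : N.Indep I) (hc : I.ncard = 3) : N.IsBase I := by
  obtain ⟨B, hB, hIB⟩ := hI.exists_isBase_superset
  have hBc := h3 B hB
  have hfin : B.Finite := Set.finite_of_ncard_ne_zero (by omega)
  have := Set.eq_of_subset_of_ncard_le hIB (by omega) hfin
  rwa [this]

theorem ne_of_base {x y z : α} (h : N.IsBase {x, y, z}) : x ≠ y ∧ x ≠ z ∧ y ≠ z := by
  have hc := h3 _ h
  refine ⟨?_, ?_, ?_⟩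
  · rintro rfl
    have : ({x, x, z} : Set α) = {x, z} := by simp
    rw [this] at hc
    have := Set.ncard_insert_le x {z}
    simp at this
    omega
  · rintro rfl
    have : ({x, y, x} : Set α) = {x, y} := by ext; simp; tauto
    rw [this] at hc
    have := Set.ncard_insert_le x {y}
    simp at this
    omega
  · rintro rfl
    have : ({x, y, y} : Set α) = {x, y} := by simp
    rw [this] at hc
    have := Set.ncard_insert_le x {y}
    simp at this
    omega

/-- If `{e,f,x}` and `{e,f,y}` are bases then `{e,x,y}` is a base iff the lines `ex`, `ey`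
differ. -/
theorem base_iff_closure_ne {e f x y : α} (hx : N.IsBase {e, f, x}) (hy : N.IsBase {e, f, y}) :
    N.IsBase {e, x, y} ↔ N.closure {e, x} ≠ N.closure {e, y} := by
  obtain ⟨hef, hex, hfx⟩ := ne_of_base h3 hx
  obtain ⟨-, hey, hfy⟩ := ne_of_base h3 hy
  have ix : N.Indep {e, x} := hx.indep.subset (by intro z; simp; tauto)
  have iy : N.Indep {e, y} := hy.indep.subset (by intro z; simp; tauto)
  have hyE : y ∈ N.E := iy.subset_ground (by simp)
  constructor
  · intro h heq
    obtain ⟨-, -, hxy⟩ := ne_of_base h3 h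
    have h1 : y ∈ N.closure {e, y} := N.mem_closure_of_mem (by simp) iy.subset_ground
    rw [← heq] at h1
    have h2 : N.Indep (insert y {e, x}) := h.indep.subset (by intro z; simp; tauto)
    have h4 : y ∉ ({e, x} : Set α) := by simp [hey.symm, hxy.symm]
    exact ((ix.insert_indep_iff_of_notMem h4).1 h2).2 h1
  · intro hne
    by_contra hb
    apply hne
    by_cases hxy : x = y
    · rw [hxy]
    have h4 : y ∉ ({e, x} : Set α) := by simp [hey.symm, Ne.symm hxy]
    have h5 : ¬ N.Indep (insert y {e, x}) := by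
      intro h
      apply hb
      have h' : ({e, x, y} : Set α) = insert y {e, x} := by ext z; simp; tauto
      rw [h']
      apply base_of_indep h3 h
      rw [Set.ncard_insert_of_notMem h4, Set.ncard_pair hex]
    have h6 : y ∈ N.closure {e, x} := by
      by_contra h7
      exact h5 ((ix.insert_indep_iff_of_notMem h4).2 ⟨hyE, h7⟩)
    have h8 : y ∉ N.closure {e} := by
      have : N.Indep (insert y {e}) := iy.subset (by intro z; simp; tauto)
      have ie : N.Indep {e} := ix.subset (by simp)
      exact ((ie.insert_indep_iff_of_notMem (by simp [hey.symm])).1 this).2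
    have h9 : y ∈ N.closure (insert x {e}) \ N.closure {e} := by
      refine ⟨?_, h8⟩
      have : (insert x {e} : Set α) = {e, x} := Set.pair_comm x e
      rwa [this]
    have := N.closure_insert_congr h9
    rw [Set.pair_comm x e, Set.pair_comm y e] at this
    exact this.symm

omit h3 in
/-- if `{x,y}` is independent and `y` lies on the line `ex` then the lines `xy` and `ex` agree -/
theorem closure_pair_of_mem {e x y : α} (ixy : N.Indep {x, y}) (hxy : x ≠ y)
    (hy : y ∈ N.closure {e, x}) : N.closure {x, y} = N.closure {e, x} := by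
  have hyE : y ∈ N.E := ixy.subset_ground (by simp)
  have ix : N.Indep {x} := ixy.subset (by simp)
  have h8 : y ∉ N.closure {x} := by
    have : N.Indep (insert y {x}) := ixy.subset (by intro z; simp; tauto)
    exact ((ix.insert_indep_iff_of_notMem (by simp [hxy.symm])).1 this).2
  have h9 : y ∈ N.closure (insert e {x}) \ N.closure {x} := ⟨hy, h8⟩
  have := N.closure_insert_congr h9
  rw [Set.pair_comm x y]
  exact this

/-- three points of a base are never on one line through `e` -/
theorem not_same_row {e x y z : α} (hb : N.IsBase {x, y, z})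
    (hxy : N.closure {e, x} = N.closure {e, y}) (hyz : N.closure {e, y} = N.closure {e, z})
    (heE : e ∈ N.E) : False := by
  obtain ⟨nxy, nxz, nyz⟩ := ne_of_base h3 hb
  have ixy : N.Indep {x, y} := hb.indep.subset (by intro z; simp; tauto)
  have hyE : y ∈ N.E := ixy.subset_ground (by simp)
  have hzE : z ∈ N.E := hb.subset_ground (by simp)
  have hy : y ∈ N.closure {e, x} := by
    rw [hxy]
    exact N.mem_closure_of_mem (by simp) (by intro w; simp; rintro (rfl | rfl) <;> assumption)
  have hz : z ∈ N.closure {e, x} := by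
    rw [hxy, hyz]
    exact N.mem_closure_of_mem (by simp) (by intro w; simp; rintro (rfl | rfl) <;> assumption)
  rw [← closure_pair_of_mem ixy nxy hy] at hz
  have h2 : N.Indep (insert z {x, y}) := hb.indep.subset (by intro w; simp; tauto)
  have h4 : z ∉ ({x, y} : Set α) := by simp [nxz.symm, nyz.symm]
  exact ((ixy.insert_indep_iff_of_notMem h4).1 h2).2 hz

/-- two points of a base are never in the same cell -/
theorem not_same_cell {e f x y : α} {B : Set α} (hb : N.IsBase B) (hxB : x ∈ B) (hyB : y ∈ B)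
    (nxy : x ≠ y) (hx : N.IsBase {e, f, x})
    (h1 : N.closure {e, x} = N.closure {e, y}) (h2 : N.closure {f, x} = N.closure {f, y}) :
    False := by
  obtain ⟨hef, hex, hfx⟩ := ne_of_base h3 hx
  have ixy : N.Indep {x, y} := hb.indep.subset (by
    intro z hz
    rcases hz with rfl | rfl <;> assumption)
  have hyE : y ∈ N.E := ixy.subset_ground (by simp)
  have heE : e ∈ N.E := hx.subset_ground (by simp)
  have hfE : f ∈ N.E := hx.subset_ground (by simp)
  have hxE : x ∈ N.E := hx.subset_ground (by simp)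
  have hy1 : y ∈ N.closure {e, x} := by
    rw [h1]
    exact N.mem_closure_of_mem (by simp) (by intro w; simp; rintro (rfl | rfl) <;> assumption)
  have hy2 : y ∈ N.closure {f, x} := by
    rw [h2]
    exact N.mem_closure_of_mem (by simp) (by intro w; simp; rintro (rfl | rfl) <;> assumption)
  have e1 := closure_pair_of_mem ixy nxy hy1
  have e2 := closure_pair_of_mem ixy nxy hy2
  have hf : f ∈ N.closure {e, x} := by
    rw [← e1, e2]
    exact N.mem_closure_of_mem (by simp) (by intro w; simp; rintro (rfl | rfl) <;> assumption)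
  have iex : N.Indep {e, x} := hx.indep.subset (by intro z; simp; tauto)
  have h5 : N.Indep (insert f {e, x}) := hx.indep.subset (by intro w; simp; tauto)
  have h4 : f ∉ ({e, x} : Set α) := by simp [hef.symm, hfx]
  exact ((iex.insert_indep_iff_of_notMem h4).1 h5).2 hf

/-- rows and columns: a base inside `X` satisfies `TC`. -/
theorem TC_of_base {e f x y z : α} (hx : N.IsBase {e, f, x}) (hy : N.IsBase {e, f, y})
    (hb : N.IsBase {x, y, z}) :
    TC (fun x => N.closure {e, x}) (fun x => N.closure {f, x}) x y z := by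
  obtain ⟨nxy, nxz, nyz⟩ := ne_of_base h3 hb
  have heE : e ∈ N.E := hx.subset_ground (by simp)
  have hfE : f ∈ N.E := hx.subset_ground (by simp)
  refine ⟨?_, ?_, ?_, ?_, ?_⟩
  · rintro ⟨h1, h2⟩
    exact not_same_cell h3 hb (by simp) (by simp) nxy hx h1 h2
  · rintro ⟨h1, h2⟩
    exact not_same_cell h3 hb (by simp) (by simp) nxz hx h1 h2
  · rintro ⟨h1, h2⟩
    exact not_same_cell h3 hb (by simp) (by simp) nyz hy h1 h2
  · rintro ⟨h1, h2⟩
    exact not_same_row h3 hb h1 h2 heE
  · rintro ⟨h1, h2⟩
    exact not_same_row h3 hb h1 h2 hfE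

theorem card_of_base {B : Finset α} (hB : N.IsBase (B : Set α)) : #B = 3 := by
  have := h3 _ hB
  rwa [Set.ncard_coe_finset] at this

theorem card_ef_le {e f : α} (hef : e ≠ f) (X : Finset α) :
    #(fam N (insert e (insert f X)) (fun B => e ∈ B ∧ f ∈ B)) ≤ #X := by
  refine (Finset.card_le_card (t := X.image (fun x => ({e, f, x} : Finset α))) ?_).trans
    Finset.card_image_le
  intro B hB
  rw [mem_fam] at hB
  obtain ⟨hBY, hB, heB, hfB⟩ := hB
  have hc := card_of_base h3 hB
  have h1 : #((B.erase e).erase f) = 1 := by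
    rw [Finset.card_erase_of_mem (by simp [hef.symm, hfB]), Finset.card_erase_of_mem heB, hc]
  obtain ⟨x, hx⟩ := Finset.card_eq_one.1 h1
  have hxm : x ∈ (B.erase e).erase f := by rw [hx]; simp
  simp only [Finset.mem_erase] at hxm
  rw [Finset.mem_image]
  refine ⟨x, ?_, ?_⟩
  · have := hBY hxm.2.2
    simp only [Finset.mem_insert] at this
    tauto
  · rw [← Finset.insert_erase heB,
      ← Finset.insert_erase (a := f) (s := B.erase e) (by simp [hef.symm, hfB]), hx]

theorem card_row_le {e f : α} (X : Finset α) (heX : e ∉ X) (hfX : f ∉ X)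
    (hX : ∀ x ∈ X, N.IsBase {e, f, x}) :
    (#X : ℤ) ^ 2 - ∑ x ∈ X, rowc X (fun x => N.closure {e, x}) x ≤
      2 * (#(fam N (insert e (insert f X)) (fun B => e ∈ B ∧ f ∉ B)) : ℤ) := by
  set ρ : α → Set α := fun x => N.closure {e, x} with hρ
  have h1 : (#X : ℤ) ^ 2 - ∑ x ∈ X, rowc X ρ x =
      ((#{p ∈ X ×ˢ X | ρ p.1 ≠ ρ p.2} : ℕ) : ℤ) := by
    have h2 : ∑ x ∈ X, rowc X ρ x = ((#{p ∈ X ×ˢ X | ρ p.1 = ρ p.2} : ℕ) : ℤ) := by
      rw [← sum_ind, Finset.sum_product]
      refine Finset.sum_congr rfl fun x _ => ?_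
      rw [rowc, sum_ind]
      congr 2
      ext y
      simp [eq_comm]
    have h3 := Finset.card_filter_add_card_filter_not (s := X ×ˢ X) (fun p => ρ p.1 = ρ p.2)
    rw [Finset.card_product] at h3
    rw [h2]
    have h4 : ((#{p ∈ X ×ˢ X | ρ p.1 = ρ p.2} : ℕ) : ℤ) + ((#{p ∈ X ×ˢ X | ¬ ρ p.1 = ρ p.2} : ℕ) : ℤ)
      = (#X : ℤ) * (#X : ℤ) := by exact_mod_cast h3
    have h5 : ((#{p ∈ X ×ˢ X | ρ p.1 ≠ ρ p.2} : ℕ) : ℤ) = ((#{p ∈ X ×ˢ X | ¬ ρ p.1 = ρ p.2} : ℕ) : ℤ) := rfl
    rw [h5]
    linarith
  rw [h1]
  have h2 : #{p ∈ X ×ˢ X | ρ p.1 ≠ ρ p.2} ≤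
      2 * #(fam N (insert e (insert f X)) (fun B => e ∈ B ∧ f ∉ B)) := by
    refine Finset.card_le_mul_card_image_of_maps_to
      (f := fun p : α × α => ({e, p.1, p.2} : Finset α)) ?_ 2 ?_
    · rintro ⟨x, y⟩ hp
      simp only [Finset.mem_filter, Finset.mem_product] at hp
      obtain ⟨⟨hx, hy⟩, hne⟩ := hp
      rw [mem_fam]
      refine ⟨?_, ?_, ?_, ?_⟩
      · intro z
        simp only [Finset.mem_insert, Finset.mem_singleton]
        rintro (rfl | rfl | rfl) <;> simp [hx, hy]
      · have := (base_iff_closure_ne h3 (hX x hx) (hX y hy)).2 hne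
        simpa using this
      · simp
      · simp only [Finset.mem_insert, Finset.mem_singleton, not_or]
        have hef := (ne_of_base h3 (hX x hx)).1
        refine ⟨hef.symm, ?_, ?_⟩
        · rintro rfl; exact hfX hx
        · rintro rfl; exact hfX hy
    · intro B _
      by_cases hemp : ({p ∈ {p ∈ X ×ˢ X | ρ p.1 ≠ ρ p.2} | ({e, p.1, p.2} : Finset α) = B}) = ∅
      · rw [hemp]; simp
      obtain ⟨⟨x, y⟩, hxy⟩ := Finset.nonempty_iff_ne_empty.2 hemp
      simp only [Finset.mem_filter, Finset.mem_product] at hxy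
      obtain ⟨⟨⟨hx, hy⟩, hne⟩, hB⟩ := hxy
      refine (Finset.card_le_card (t := {(x, y), (y, x)}) ?_).trans Finset.card_le_two
      rintro ⟨u, v⟩ huv
      simp only [Finset.mem_filter, Finset.mem_product] at huv
      obtain ⟨⟨⟨hu, hv⟩, hne'⟩, hB'⟩ := huv
      have hu' : u ∈ ({e, x, y} : Finset α) := by rw [hB, ← hB']; simp
      have hv' : v ∈ ({e, x, y} : Finset α) := by rw [hB, ← hB']; simp
      simp only [Finset.mem_insert, Finset.mem_singleton] at hu' hv' ⊢
      have hue : u ≠ e := by rintro rfl; exact heX hu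
      have hve : v ≠ e := by rintro rfl; exact heX hv
      have huvne : u ≠ v := by rintro rfl; exact hne' rfl
      simp only [Prod.mk.injEq]
      rcases hu' with h | rfl | rfl
      · exact absurd h hue
      · rcases hv' with h | rfl | rfl
        · exact absurd h hve
        · exact absurd rfl huvne
        · simp
      · rcases hv' with h | rfl | rfl
        · exact absurd h hve
        · simp
        · exact absurd rfl huvne
  exact_mod_cast h2

omit h3 in
theorem perm_xzy (x y z : α) : ({x, z, y} : Finset α) = {x, y, z} := by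
  ext w; simp only [Finset.mem_insert, Finset.mem_singleton]; tauto
omit h3 in
theorem perm_yxz (x y z : α) : ({y, x, z} : Finset α) = {x, y, z} := by
  ext w; simp only [Finset.mem_insert, Finset.mem_singleton]; tauto
omit h3 in
theorem perm_yzx (x y z : α) : ({y, z, x} : Finset α) = {x, y, z} := by
  ext w; simp only [Finset.mem_insert, Finset.mem_singleton]; tauto
omit h3 in
theorem perm_zxy (x y z : α) : ({z, x, y} : Finset α) = {x, y, z} := by
  ext w; simp only [Finset.mem_insert, Finset.mem_singleton]; tauto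
omit h3 in
theorem perm_zyx (x y z : α) : ({z, y, x} : Finset α) = {x, y, z} := by
  ext w; simp only [Finset.mem_insert, Finset.mem_singleton]; tauto

omit h3 in
theorem six_card {x y z : α} (hxy : x ≠ y) (hxz : x ≠ z) (hyz : y ≠ z) :
    #({(x, y, z), (x, z, y), (y, x, z), (y, z, x), (z, x, y), (z, y, x)} :
          Finset (α × α × α)) = 6 := by
  have := hxy.symm
  have := hxz.symm
  have := hyz.symm
  rw [Finset.card_insert_of_notMem, Finset.card_insert_of_notMem,
    Finset.card_insert_of_notMem, Finset.card_insert_of_notMem,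
    Finset.card_insert_of_notMem, Finset.card_singleton] <;> simp [*]

omit h3 in
theorem six_le_fiber (X : Finset α) (Q : Finset α → Prop) {x y z : α} (hxy : x ≠ y) (hxz : x ≠ z)
    (hyz : y ≠ z) (hx : x ∈ X) (hy : y ∈ X) (hz : z ∈ X) (hQ : Q {x, y, z}) :
    6 ≤ #{p ∈ {p ∈ X ×ˢ (X ×ˢ X) | Q {p.1, p.2.1, p.2.2}} |
      ({p.1, p.2.1, p.2.2} : Finset α) = {x, y, z}} := by
  rw [← six_card hxy hxz hyz]
  refine Finset.card_le_card ?_
  intro p hp
  simp only [Finset.mem_insert, Finset.mem_singleton] at hp
  simp only [Finset.mem_filter, Finset.mem_product]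
  rcases hp with rfl | rfl | rfl | rfl | rfl | rfl
  · exact ⟨⟨⟨hx, hy, hz⟩, hQ⟩, rfl⟩
  · exact ⟨⟨⟨hx, hz, hy⟩, (perm_xzy x y z).symm ▸ hQ⟩, perm_xzy x y z⟩
  · exact ⟨⟨⟨hy, hx, hz⟩, (perm_yxz x y z).symm ▸ hQ⟩, perm_yxz x y z⟩
  · exact ⟨⟨⟨hy, hz, hx⟩, (perm_yzx x y z).symm ▸ hQ⟩, perm_yzx x y z⟩
  · exact ⟨⟨⟨hz, hx, hy⟩, (perm_zxy x y z).symm ▸ hQ⟩, perm_zxy x y z⟩
  · exact ⟨⟨⟨hz, hy, hx⟩, (perm_zyx x y z).symm ▸ hQ⟩, perm_zyx x y z⟩

theorem card_none_le {e f : α} (X : Finset α) (heX : e ∉ X) (hfX : f ∉ X)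
    (hX : ∀ x ∈ X, N.IsBase {e, f, x}) :
    6 * (#(fam N (insert e (insert f X)) (fun B => e ∉ B ∧ f ∉ B)) : ℤ) ≤
      ∑ x ∈ X, ∑ y ∈ X, ∑ z ∈ X,
        ind (TC (fun x => N.closure {e, x}) (fun x => N.closure {f, x}) x y z) := by
  set ρ : α → Set α := fun x => N.closure {e, x} with hρ
  set σ : α → Set α := fun x => N.closure {f, x} with hσ
  have h1 : ∑ x ∈ X, ∑ y ∈ X, ∑ z ∈ X, ind (TC ρ σ x y z) =
      ((#{p ∈ X ×ˢ (X ×ˢ X) | TC ρ σ p.1 p.2.1 p.2.2} : ℕ) : ℤ) := by
    rw [← sum_ind, Finset.sum_product]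
    refine Finset.sum_congr rfl fun x _ => ?_
    rw [Finset.sum_product]
  rw [h1]
  have h2 : 6 * #(fam N (insert e (insert f X)) (fun B => e ∉ B ∧ f ∉ B)) ≤
      #{p ∈ X ×ˢ (X ×ˢ X) | N.IsBase (({p.1, p.2.1, p.2.2} : Finset α) : Set α)} := by
    refine Finset.mul_card_image_le_card_of_maps_to
      (f := fun p : α × α × α => ({p.1, p.2.1, p.2.2} : Finset α)) ?_ 6 ?_
    · rintro ⟨x, y, z⟩ hp
      simp only [Finset.mem_filter, Finset.mem_product] at hp
      obtain ⟨⟨hx, hy, hz⟩, hb⟩ := hp
      rw [mem_fam]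
      refine ⟨?_, hb, ?_, ?_⟩
      · intro w
        simp only [Finset.mem_insert, Finset.mem_singleton]
        rintro (rfl | rfl | rfl) <;> simp [hx, hy, hz]
      · simp only [Finset.mem_insert, Finset.mem_singleton, not_or]
        refine ⟨?_, ?_, ?_⟩ <;> rintro rfl <;> exact heX (by assumption)
      · simp only [Finset.mem_insert, Finset.mem_singleton, not_or]
        refine ⟨?_, ?_, ?_⟩ <;> rintro rfl <;> exact hfX (by assumption)
    · intro B hB
      rw [mem_fam] at hB
      obtain ⟨hBY, hB, heB, hfB⟩ := hB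
      have hBX : B ⊆ X := by
        intro w hw
        have := hBY hw
        simp only [Finset.mem_insert] at this
        rcases this with rfl | rfl | h
        · exact absurd hw heB
        · exact absurd hw hfB
        · exact h
      obtain ⟨x, y, z, hxy, hxz, hyz, rfl⟩ := Finset.card_eq_three.1 (card_of_base h3 hB)
      exact six_le_fiber X (fun B => N.IsBase (B : Set α)) hxy hxz hyz (hBX (by simp))
        (hBX (by simp)) (hBX (by simp)) hB
  have h4 : #{p ∈ X ×ˢ (X ×ˢ X) | N.IsBase (({p.1, p.2.1, p.2.2} : Finset α) : Set α)} ≤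
      #{p ∈ X ×ˢ (X ×ˢ X) | TC ρ σ p.1 p.2.1 p.2.2} := by
    refine Finset.card_le_card fun p hp => ?_
    simp only [Finset.mem_filter, Finset.mem_product] at hp ⊢
    refine ⟨hp.1, TC_of_base h3 (hX _ hp.1.1) (hX _ hp.1.2.1) ?_⟩
    simpa using hp.2
  exact_mod_cast h2.trans h4

omit h3 in
theorem fam_swap {e f : α} {Y : Finset α} :
    fam N Y (fun B => f ∈ B ∧ e ∉ B) = fam N Y (fun B => e ∉ B ∧ f ∈ B) := by
  ext B
  simp only [mem_fam]
  tauto

theorem grid_case {e f : α} (hef : e ≠ f) (X : Finset α) (heX : e ∉ X) (hfX : f ∉ X)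
    (hX : ∀ x ∈ X, N.IsBase {e, f, x}) :
    #(fam N (insert e (insert f X)) (fun B => e ∈ B ∧ f ∈ B)) *
      #(fam N (insert e (insert f X)) (fun B => e ∉ B ∧ f ∉ B)) ≤
    #(fam N (insert e (insert f X)) (fun B => e ∈ B ∧ f ∉ B)) *
      #(fam N (insert e (insert f X)) (fun B => e ∉ B ∧ f ∈ B)) := by
  have h1 := card_ef_le h3 hef X
  have h2 := card_row_le h3 X heX hfX hX
  have hX' : ∀ x ∈ X, N.IsBase {f, e, x} := by
    intro x hx
    have := hX x hx
    convert this using 1
    ext w; simp; tauto
  have h4 := card_row_le h3 X hfX heX hX'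
  rw [Finset.insert_comm f e, fam_swap] at h4
  have h5 := card_none_le h3 X heX hfX hX
  have h6 := grid_final X _ _ _ _ _ h2 h4 h5
  have h7 := Nat.mul_le_mul_right
    (#(fam N (insert e (insert f X)) (fun B => e ∉ B ∧ f ∉ B))) h1
  refine h7.trans ?_
  exact_mod_cast h6

omit h3 in
theorem fam_erase_add (Y : Finset α) (z : α) (P : Finset α → Prop) :
    #(fam N Y P) = #(fam N (Y.erase z) P) + #(fam N Y (fun B => z ∈ B ∧ P B)) := by
  rw [← Finset.card_union_of_disjoint]
  · congr 1
    ext B
    simp only [mem_fam, Finset.mem_union, Finset.subset_erase]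
    tauto
  · rw [Finset.disjoint_left]
    intro B hB hB'
    rw [mem_fam, Finset.subset_erase] at hB
    rw [mem_fam] at hB'
    exact hB.1.2 hB'.2.2.1

omit h3 in
/-- replacing `z` by `e`. -/
theorem sub_image {Y : Finset α} {z e f : α} (heY : e ∈ Y) (hez : e ≠ z) (hef : e ≠ f)
    {B : Finset α} (hB : B ∈ fam N Y (fun B => z ∈ B ∧ e ∉ B ∧ f ∉ B))
    (hb : N.IsBase (insert e ((B : Set α) \ {z}))) :
    B ∈ (fam N (Y.erase z) (fun B => e ∈ B ∧ f ∉ B)).image (fun C => insert z (C.erase e)) := by
  rw [mem_fam] at hB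
  obtain ⟨hBY, _, hzB, heB, hfB⟩ := hB
  rw [Finset.mem_image]
  refine ⟨insert e (B.erase z), ?_, ?_⟩
  · rw [mem_fam]
    refine ⟨?_, ?_, ?_, ?_⟩
    · intro w hw
      simp only [Finset.mem_insert, Finset.mem_erase] at hw ⊢
      rcases hw with rfl | ⟨h1, h2⟩
      · exact ⟨hez, heY⟩
      · exact ⟨h1, hBY h2⟩
    · rw [Finset.coe_insert, Finset.coe_erase]
      exact hb
    · simp
    · simp only [Finset.mem_insert, Finset.mem_erase, not_or, not_and]
      exact ⟨hef.symm, fun _ => hfB⟩
  · rw [Finset.erase_insert (by simp [heB]), Finset.insert_erase hzB]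

omit h3 in
theorem s_le_both {Y : Finset α} {z e f : α} (heY : e ∈ Y) (hfY : f ∈ Y) (hez : e ≠ z)
    (hfz : f ≠ z) (hef : e ≠ f)
    (h : ∀ B : Finset α, N.IsBase (B : Set α) → z ∈ B → N.IsBase (insert e ((B : Set α) \ {z})) ∨
      N.IsBase (insert f ((B : Set α) \ {z}))) :
    #(fam N Y (fun B => z ∈ B ∧ e ∉ B ∧ f ∉ B)) ≤
      #(fam N (Y.erase z) (fun B => e ∈ B ∧ f ∉ B)) +
      #(fam N (Y.erase z) (fun B => e ∉ B ∧ f ∈ B)) := by
  rw [← fam_swap (e := e) (f := f)]
  refine (Finset.card_le_card (t :=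
    (fam N (Y.erase z) (fun B => e ∈ B ∧ f ∉ B)).image (fun C => insert z (C.erase e)) ∪
    (fam N (Y.erase z) (fun B => f ∈ B ∧ e ∉ B)).image (fun C => insert z (C.erase f))) ?_).trans
    ((Finset.card_union_le _ _).trans (add_le_add Finset.card_image_le Finset.card_image_le))
  intro B hB
  have hB' := mem_fam.1 hB
  rw [Finset.mem_union]
  rcases h B hB'.2.1 hB'.2.2.1 with h1 | h1
  · exact Or.inl (sub_image heY hez hef hB h1)
  · refine Or.inr (sub_image hfY hfz hef.symm ?_ h1)
    rw [mem_fam] at hB ⊢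
    tauto

omit h3 in
theorem s_le_one {Y : Finset α} {z e f : α} (heY : e ∈ Y) (hez : e ≠ z) (hef : e ≠ f)
    (h : ∀ B : Finset α, N.IsBase (B : Set α) → z ∈ B →
      N.IsBase (insert e ((B : Set α) \ {z}))) :
    #(fam N Y (fun B => z ∈ B ∧ e ∉ B ∧ f ∉ B)) ≤
      #(fam N (Y.erase z) (fun B => e ∈ B ∧ f ∉ B)) := by
  refine (Finset.card_le_card (t :=
    (fam N (Y.erase z) (fun B => e ∈ B ∧ f ∉ B)).image (fun C => insert z (C.erase e))) ?_).trans
    Finset.card_image_le
  intro B hB
  have hB' := mem_fam.1 hB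
  exact sub_image heY hez hef hB (h B hB'.2.1 hB'.2.2.1)

omit h3 in
theorem notMem_of_closure {B : Set α} {z e f : α} (hB : N.IsBase B) (he : e ∈ B) (hf : f ∈ B)
    (hez : e ≠ z) (hfz : f ≠ z) (hz : z ∈ N.closure {e, f}) : z ∉ B := by
  intro hzB
  refine hB.indep.notMem_closure_sdiff_of_mem hzB (N.closure_subset_closure ?_ hz)
  rintro w (rfl | rfl)
  · exact ⟨he, hez⟩
  · exact ⟨hf, hfz⟩

/-- bases through `e, f` turn into bases through `z, f` -/
theorem ef_le_zf {Y : Finset α} {z e f : α} (hzY : z ∈ Y) (hez : e ≠ z) (hfz : f ≠ z)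
    (hef : e ≠ f) (hzf : N.Indep {f, z}) (hz : z ∈ N.closure {e, f}) :
    #(fam N Y (fun B => e ∈ B ∧ f ∈ B)) ≤ #(fam N Y (fun B => z ∈ B ∧ e ∉ B ∧ f ∈ B)) := by
  refine Finset.card_le_card_of_injOn (fun B => insert z (B.erase e)) ?_ ?_
  · intro B hB
    rw [Finset.mem_coe, mem_fam] at hB
    obtain ⟨hBY, hBb, heB, hfB⟩ := hB
    have hc := card_of_base h3 hBb
    have h1 : #((B.erase e).erase f) = 1 := by
      rw [Finset.card_erase_of_mem (by simp [hef.symm, hfB]), Finset.card_erase_of_mem heB, hc]
    obtain ⟨x, hx⟩ := Finset.card_eq_one.1 h1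
    have hxm : x ∈ (B.erase e).erase f := by rw [hx]; simp
    simp only [Finset.mem_erase] at hxm
    have hBeq : B = {e, f, x} := by
      rw [← Finset.insert_erase heB,
        ← Finset.insert_erase (a := f) (s := B.erase e) (by simp [hef.symm, hfB]), hx]
    have hBe : ((B : Set α) \ {e}) = {f, x} := by
      rw [hBeq]
      ext w
      simp only [Finset.coe_insert, Finset.coe_singleton, Set.mem_sdiff, Set.mem_insert_iff,
        Set.mem_singleton_iff]
      constructor
      · tauto
      · rintro (rfl | rfl)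
        · exact ⟨by tauto, hef.symm⟩
        · exact ⟨by tauto, hxm.2.1⟩
    have hind : N.Indep {f, x} := by
      rw [← hBe]; exact hBb.indep.subset Set.sdiff_subset
    rw [Finset.mem_coe, mem_fam]
    refine ⟨?_, ?_, ?_, ?_, ?_⟩
    · intro w hw
      simp only [Finset.mem_insert, Finset.mem_erase] at hw
      rcases hw with rfl | ⟨-, h⟩
      · exact hzY
      · exact hBY h
    · rw [Finset.coe_insert, Finset.coe_erase]
      refine hBb.exchange_base_of_notMem_closure heB ?_ ?_
      · rw [hBe]
        intro hcl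
        have e1 := closure_pair_of_mem (e := e) hzf hfz hz
        have hcl' : z ∈ N.closure {x, f} := by rwa [Set.pair_comm x f]
        have e2 := closure_pair_of_mem (e := x) hzf hfz hcl'
        have h5 : x ∈ N.closure {e, f} := by
          rw [← e1, e2]
          exact N.mem_closure_of_mem (by simp) (by rw [Set.pair_comm]; exact hind.subset_ground)
        have h6 : N.Indep {e, f} := hBb.indep.subset (by
          rw [hBeq]; intro w; simp; tauto)
        have h7 : N.Indep (insert x {e, f}) := hBb.indep.subset (by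
          rw [hBeq]; intro w; simp; tauto)
        have h8 : x ∉ ({e, f} : Set α) := by simp [hxm.1, hxm.2.1]
        exact ((h6.insert_indep_iff_of_notMem h8).1 h7).2 h5
      · exact hzf.subset_ground (by simp)
    · simp
    · simp only [Finset.mem_insert, Finset.mem_erase, not_or]
      exact ⟨hez, by simp⟩
    · simp only [Finset.mem_insert, Finset.mem_erase]
      exact Or.inr ⟨hef.symm, hfB⟩
  · intro B hB C hC hBC
    rw [Finset.mem_coe, mem_fam] at hB hC
    simp only at hBC
    have hzB : z ∉ B := fun h => notMem_of_closure hB.2.1 (by exact_mod_cast hB.2.2.1)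
      (by exact_mod_cast hB.2.2.2) hez hfz hz (by exact_mod_cast h)
    have hzC : z ∉ C := fun h => notMem_of_closure hC.2.1 (by exact_mod_cast hC.2.2.1)
      (by exact_mod_cast hC.2.2.2) hez hfz hz (by exact_mod_cast h)
    have h1 : (insert z (B.erase e)).erase z = (insert z (C.erase e)).erase z := by rw [hBC]
    rw [Finset.erase_insert (by simp [hzB]), Finset.erase_insert (by simp [hzC])] at h1
    rw [← Finset.insert_erase hB.2.2.1, ← Finset.insert_erase hC.2.2.1, h1]

theorem rank3_aux {e f : α} (hef : e ≠ f) : ∀ (n : ℕ) (Y : Finset α), #Y = n → e ∈ Y → f ∈ Y →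
    #(fam N Y (fun B => e ∈ B ∧ f ∈ B)) * #(fam N Y (fun B => e ∉ B ∧ f ∉ B)) ≤
    #(fam N Y (fun B => e ∈ B ∧ f ∉ B)) * #(fam N Y (fun B => e ∉ B ∧ f ∈ B)) := by
  intro n
  induction n with
  | zero =>
    intro Y hY heY
    rw [Finset.card_eq_zero] at hY
    subst hY
    simp at heY
  | succ n ih =>
    intro Y hY heY hfY
    by_cases hall : ∀ x ∈ (Y.erase e).erase f, N.IsBase {e, f, x}
    · have hYeq : Y = insert e (insert f ((Y.erase e).erase f)) := by
        rw [Finset.insert_erase (by simp [hef.symm, hfY]), Finset.insert_erase heY]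
      rw [hYeq]
      exact grid_case h3 hef _ (by simp) (by simp) hall
    push Not at hall
    obtain ⟨z, hz, hzb⟩ := hall
    simp only [Finset.mem_erase] at hz
    obtain ⟨hzf, hze, hzY⟩ := hz
    have hez : e ≠ z := hze.symm
    have hfz : f ≠ z := hzf.symm
    have IH := ih (Y.erase z) (by rw [Finset.card_erase_of_mem hzY, hY]; rfl)
      (by simp [hez, heY]) (by simp [hfz, hfY])
    by_cases hemp : fam N Y (fun B => e ∈ B ∧ f ∈ B) = ∅
    · rw [hemp]; simp
    obtain ⟨B0, hB0⟩ := Finset.nonempty_iff_ne_empty.2 hemp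
    rw [mem_fam] at hB0
    obtain ⟨-, hB0, heB0, hfB0⟩ := hB0
    have hief : N.Indep {e, f} := hB0.indep.subset (by
      rintro w (rfl | rfl)
      · exact_mod_cast heB0
      · exact_mod_cast hfB0)
    -- no base contains e, f, z
    have hnone : ∀ B : Finset α, N.IsBase (B : Set α) → e ∈ B → f ∈ B → z ∉ B := by
      intro B hB he hf hz
      apply hzb
      have hc := card_of_base h3 hB
      have : ({e, f, z} : Finset α) = B := by
        refine Finset.eq_of_subset_of_card_le ?_ ?_
        · intro w hw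
          simp only [Finset.mem_insert, Finset.mem_singleton] at hw
          rcases hw with rfl | rfl | rfl <;> assumption
        · rw [hc, Finset.card_insert_of_notMem, Finset.card_insert_of_notMem,
            Finset.card_singleton]
          · simp [hfz]
          · simp [hef, hez]
      rw [← this] at hB
      simpa using hB
    have hZef : #(fam N Y (fun B => z ∈ B ∧ e ∈ B ∧ f ∈ B)) = 0 := by
      rw [Finset.card_eq_zero, Finset.eq_empty_iff_forall_notMem]
      intro B hB
      rw [mem_fam] at hB
      exact hnone B hB.2.1 hB.2.2.2.1 hB.2.2.2.2 hB.2.2.1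
    have d1 := fam_erase_add (N := N) Y z (fun B => e ∈ B ∧ f ∈ B)
    have d2 := fam_erase_add (N := N) Y z (fun B => e ∉ B ∧ f ∉ B)
    have d3 := fam_erase_add (N := N) Y z (fun B => e ∈ B ∧ f ∉ B)
    have d4 := fam_erase_add (N := N) Y z (fun B => e ∉ B ∧ f ∈ B)
    rw [hZef, add_zero] at d1
    -- the case where `z` is a loop
    by_cases hzi : N.Indep {z}
    swap
    · have : #(fam N Y (fun B => z ∈ B ∧ e ∉ B ∧ f ∉ B)) = 0 := by
        rw [Finset.card_eq_zero, Finset.eq_empty_iff_forall_notMem]
        intro B hB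
        rw [mem_fam] at hB
        exact hzi (hB.2.1.indep.subset (by
          rintro w rfl
          exact_mod_cast hB.2.2.1))
      rw [this, add_zero] at d2
      rw [d1, d2, d3, d4]
      exact IH.trans (Nat.mul_le_mul (Nat.le_add_right _ _) (Nat.le_add_right _ _))
    have hzE : z ∈ N.E := hzi.subset_ground (by simp)
    have heE : e ∈ N.E := hief.subset_ground (by simp)
    have hfE : f ∈ N.E := hief.subset_ground (by simp)
    have hzcl : z ∈ N.closure {e, f} := by
      by_contra hcl
      apply hzb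
      have h4 : z ∉ ({e, f} : Set α) := by simp [hze, hzf]
      have h5 : N.Indep (insert z {e, f}) := (hief.insert_indep_iff_of_notMem h4).2 ⟨hzE, hcl⟩
      have h6 : ({e, f, z} : Set α) = insert z {e, f} := by ext w; simp; tauto
      rw [h6]
      refine base_of_indep h3 h5 ?_
      rw [Set.ncard_insert_of_notMem h4, Set.ncard_pair hef]
    -- exchange facts
    have exch : ∀ (B : Finset α) (w : α), N.IsBase (B : Set α) → z ∈ B → w ∈ N.E →
        ¬ N.IsBase (insert w ((B : Set α) \ {z})) → w ∈ N.closure ((B : Set α) \ {z}) := by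
      intro B w hB hz hwE hw
      by_contra hcl
      exact hw (hB.exchange_base_of_notMem_closure (by exact_mod_cast hz) hcl hwE)
    have zout : ∀ (B : Finset α), N.IsBase (B : Set α) → z ∈ B →
        z ∉ N.closure ((B : Set α) \ {z}) := by
      intro B hB hz
      exact hB.indep.notMem_closure_sdiff_of_mem (by exact_mod_cast hz)
    by_cases hze' : N.Indep {e, z}
    · by_cases hzf' : N.Indep {f, z}
      · -- general position on the line
        have hq := ef_le_zf h3 hzY hez hfz hef hzf' hzcl
        have hp := ef_le_zf h3 hzY hfz hez hef.symm hze' (by rwa [Set.pair_comm])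
        have hp' : #(fam N Y (fun B => e ∈ B ∧ f ∈ B)) ≤
            #(fam N Y (fun B => z ∈ B ∧ e ∈ B ∧ f ∉ B)) := by
          convert hp using 2
          · ext B; simp only [mem_fam]; tauto
          · ext B; simp only [mem_fam]; tauto
        have hs := s_le_both (N := N) (Y := Y) (z := z) heY hfY hez hfz hef (by
          intro B hB hz
          by_contra hcon
          push Not at hcon
          refine zout B hB hz ?_
          have he' := exch B e hB hz heE hcon.1
          have hf' := exch B f hB hz hfE hcon.2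
          refine N.closure_subset_closure_of_subset_closure ?_ hzcl
          rintro w (rfl | rfl) <;> assumption)
        rw [d2, d3, d4]
        rw [d1] at hq hp' ⊢
        nlinarith [Nat.zero_le (#(fam N Y (fun B => z ∈ B ∧ e ∈ B ∧ f ∉ B))),
          Nat.mul_le_mul_left (#(fam N (Y.erase z) (fun B => e ∈ B ∧ f ∈ B))) hs,
          Nat.mul_le_mul_right (#(fam N (Y.erase z) (fun B => e ∈ B ∧ f ∉ B))) hq,
          Nat.mul_le_mul_right (#(fam N (Y.erase z) (fun B => e ∉ B ∧ f ∈ B))) hp']
      · -- `z` parallel to `f`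
        have hp := ef_le_zf h3 hzY hfz hez hef.symm hze' (by rwa [Set.pair_comm])
        have hp' : #(fam N Y (fun B => e ∈ B ∧ f ∈ B)) ≤
            #(fam N Y (fun B => z ∈ B ∧ e ∈ B ∧ f ∉ B)) := by
          convert hp using 2
          · ext B; simp only [mem_fam]; tauto
          · ext B; simp only [mem_fam]; tauto
        have hif : N.Indep {f} := hief.subset (by simp)
        have hzclf : z ∈ N.closure {f} := by
          by_contra hcl
          apply hzf'
          have := (hif.insert_indep_iff_of_notMem (e := z) (by simp [hzf])).2 ⟨hzE, hcl⟩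
          rwa [Set.pair_comm] at this
        have hs := s_le_one (N := N) (Y := Y) (z := z) hfY hfz hef.symm (by
          intro B hB hz
          by_contra hcon
          refine zout B hB hz ?_
          have hf' := exch B f hB hz hfE hcon
          refine N.closure_subset_closure_of_subset_closure ?_ hzclf
          rintro w rfl; assumption)
        have hs' : #(fam N Y (fun B => z ∈ B ∧ e ∉ B ∧ f ∉ B)) ≤
            #(fam N (Y.erase z) (fun B => e ∉ B ∧ f ∈ B)) := by
          convert hs using 2
          · ext B; simp only [mem_fam]; tauto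
          · ext B; simp only [mem_fam]; tauto
        rw [d2, d3, d4]
        rw [d1] at hp' ⊢
        nlinarith [Nat.mul_le_mul_left (#(fam N (Y.erase z) (fun B => e ∈ B ∧ f ∈ B))) hs',
          Nat.mul_le_mul_right (#(fam N (Y.erase z) (fun B => e ∉ B ∧ f ∈ B))) hp']
    · -- `z` parallel to `e`
      have hie : N.Indep {e} := hief.subset (by simp)
      have hzcle : z ∈ N.closure {e} := by
        by_contra hcl
        apply hze'
        have := (hie.insert_indep_iff_of_notMem (e := z) (by simp [hze])).2 ⟨hzE, hcl⟩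
        rwa [Set.pair_comm] at this
      have hzf' : N.Indep {f, z} := by
        by_contra hcon
        have hif : N.Indep {f} := hief.subset (by simp)
        have hzclf : z ∈ N.closure {f} := by
          by_contra hcl
          apply hcon
          have := (hif.insert_indep_iff_of_notMem (e := z) (by simp [hzf])).2 ⟨hzE, hcl⟩
          rwa [Set.pair_comm] at this
        have h8 : z ∉ N.closure ∅ := by
          have := (N.empty_indep.insert_indep_iff_of_notMem (e := z) (by simp)).1 (by simpa using hzi)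
          exact this.2
        have h9 : z ∈ N.closure (insert e ∅) \ N.closure ∅ := ⟨by simpa using hzcle, h8⟩
        have h10 : z ∈ N.closure (insert f ∅) \ N.closure ∅ := ⟨by simpa using hzclf, h8⟩
        have e1 := N.closure_insert_congr h9
        have e2 := N.closure_insert_congr h10
        have h11 : f ∈ N.closure {e} := by
          have : f ∈ N.closure (insert f ∅) := N.mem_closure_of_mem (by simp) (by simpa using hfE)
          rw [← e2, e1] at this
          simpa using this
        have h12 : N.Indep (insert f {e}) := by rw [Set.pair_comm]; exact hief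
        exact ((hie.insert_indep_iff_of_notMem (by simp [hef.symm])).1 h12).2 h11
      have hq := ef_le_zf h3 hzY hez hfz hef hzf' hzcl
      have hs := s_le_one (N := N) (Y := Y) (z := z) heY hez hef (by
        intro B hB hz
        by_contra hcon
        refine zout B hB hz ?_
        have he' := exch B e hB hz heE hcon
        refine N.closure_subset_closure_of_subset_closure ?_ hzcle
        rintro w rfl; assumption)
      rw [d2, d3, d4]
      rw [d1] at hq ⊢
      nlinarith [Nat.mul_le_mul_left (#(fam N (Y.erase z) (fun B => e ∈ B ∧ f ∈ B))) hs,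
          Nat.mul_le_mul_right (#(fam N (Y.erase z) (fun B => e ∈ B ∧ f ∉ B))) hq]

end rank3

end Pool.Agent.Work.MP_b989b4_co
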