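import Mathlib
import Pool.Agent.Work.MP_b989b4_co.RankThree

/-!
Matroids of rank at most three are negatively correlated.
-/

namespace Pool.Agent.Work.MP_b989b4_co

open Finset
open scoped Classical

variable {α : Type*}

theorem closure_singleton_eq {N : Matroid α} {u w : α} (hu : N.Indep {u})
    (h : u ∈ N.closure {w}) : N.closure {u} = N.closure {w} := by
  have h8 : u ∉ N.closure ∅ := by
    have := (N.empty_indep.insert_indep_iff_of_notMem (e := u) (by simp)).1 (by simpa using hu)
    exact this.2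
  have h9 : u ∈ N.closure (insert w ∅) \ N.closure ∅ := ⟨by simpa using h, h8⟩
  have := N.closure_insert_congr h9
  simpa using this

section rank2

variable {N : Matroid α} (h2 : ∀ B, N.IsBase B → B.ncard = 2)
include h2

theorem card_of_base2 {B : Finset α} (hB : N.IsBase (B : Set α)) : #B = 2 := by
  have := h2 _ hB
  rwa [Set.ncard_coe_finset] at this

omit h2 in
/-- in a base `{x,y}` and a base `{e,f}` : some matching gives two bases. -/
theorem rank2_exch {e f x y : α} (hef : e ≠ f) (hxy : x ≠ y) (hb : N.IsBase {x, y})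
    (hb' : N.IsBase {e, f}) :
    (N.IsBase {e, y} ∧ N.IsBase {f, x}) ∨ (N.IsBase {e, x} ∧ N.IsBase {f, y}) := by
  have ie : N.Indep {e} := hb'.indep.subset (by simp)
  have jf : N.Indep {f} := hb'.indep.subset (by simp)
  have ix : N.Indep {x} := hb.indep.subset (by simp)
  have iy : N.Indep {y} := hb.indep.subset (by simp)
  have heE : e ∈ N.E := ie.subset_ground (by simp)
  have hfE : f ∈ N.E := jf.subset_ground (by simp)
  have hxE : x ∈ N.E := ix.subset_ground (by simp)
  have hyE : y ∈ N.E := iy.subset_ground (by simp)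
  have dx : ({x, y} : Set α) \ {x} = {y} := by
    ext w; simp only [Set.mem_sdiff, Set.mem_insert_iff, Set.mem_singleton_iff]
    constructor
    · tauto
    · rintro rfl; exact ⟨by tauto, hxy.symm⟩
  have dy : ({x, y} : Set α) \ {y} = {x} := by
    ext w; simp only [Set.mem_sdiff, Set.mem_insert_iff, Set.mem_singleton_iff]
    constructor
    · tauto
    · rintro rfl; exact ⟨by tauto, hxy⟩
  have bx : ∀ w ∈ N.E, w ∉ N.closure {y} → N.IsBase {w, y} := by
    intro w hw hcl
    have := hb.exchange_base_of_notMem_closure (e := x) (f := w) (by simp) (by rwa [dx]) hw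
    rwa [dx] at this
  have by' : ∀ w ∈ N.E, w ∉ N.closure {x} → N.IsBase {w, x} := by
    intro w hw hcl
    have := hb.exchange_base_of_notMem_closure (e := y) (f := w) (by simp) (by rwa [dy]) hw
    rwa [dy] at this
  have nxy : N.closure {x} ≠ N.closure {y} := by
    intro h
    have h1 : x ∈ N.closure {y} := by
      rw [← h]; exact N.mem_closure_of_mem (by simp) (by simpa using hxE)
    have h3 : N.Indep (insert x {y}) := hb.indep
    exact ((iy.insert_indep_iff_of_notMem (by simp [hxy])).1 h3).2 h1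
  have nef : N.closure {e} ≠ N.closure {f} := by
    intro h
    have h1 : e ∈ N.closure {f} := by
      rw [← h]; exact N.mem_closure_of_mem (by simp) (by simpa using heE)
    have h3 : N.Indep (insert e {f}) := hb'.indep
    exact ((jf.insert_indep_iff_of_notMem (by simp [hef])).1 h3).2 h1
  by_cases h1 : e ∈ N.closure {y}
  · have e1 := closure_singleton_eq ie h1
    right
    refine ⟨by' e heE ?_, bx f hfE ?_⟩
    · intro h
      have e2 := closure_singleton_eq ie h
      exact nxy (e2.symm.trans e1)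
    · intro h
      have e2 := closure_singleton_eq jf h
      exact nef (e1.trans e2.symm)
  · by_cases h3 : f ∈ N.closure {x}
    · have e1 := closure_singleton_eq jf h3
      right
      refine ⟨by' e heE ?_, bx f hfE ?_⟩
      · intro h
        have e2 := closure_singleton_eq ie h
        exact nef (e2.trans e1.symm)
      · intro h
        have e2 := closure_singleton_eq jf h
        exact nxy (e1.symm.trans e2)
    · left
      exact ⟨bx e heE h1, by' f hfE h3⟩

theorem rank2_aux {e f : α} (hef : e ≠ f) (Y : Finset α) (heY : e ∈ Y) (hfY : f ∈ Y) :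
    #(fam N Y (fun B => e ∈ B ∧ f ∈ B)) * #(fam N Y (fun B => e ∉ B ∧ f ∉ B)) ≤
    #(fam N Y (fun B => e ∈ B ∧ f ∉ B)) * #(fam N Y (fun B => e ∉ B ∧ f ∈ B)) := by
  by_cases hemp : fam N Y (fun B => e ∈ B ∧ f ∈ B) = ∅
  · rw [hemp]; simp
  obtain ⟨B0, hB0⟩ := Finset.nonempty_iff_ne_empty.2 hemp
  rw [mem_fam] at hB0
  obtain ⟨-, hB0, heB0, hfB0⟩ := hB0
  have huniq : ∀ B : Finset α, N.IsBase (B : Set α) → e ∈ B → f ∈ B → B = {e, f} := by
    intro B hB he hf
    symm
    refine Finset.eq_of_subset_of_card_le ?_ ?_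
    · intro w hw
      simp only [Finset.mem_insert, Finset.mem_singleton] at hw
      rcases hw with rfl | rfl <;> assumption
    · rw [card_of_base2 h2 hB, Finset.card_pair hef]
  have hefb : N.IsBase {e, f} := by
    have := huniq B0 hB0 heB0 hfB0
    rw [this] at hB0
    simpa using hB0
  have h1 : #(fam N Y (fun B => e ∈ B ∧ f ∈ B)) ≤ 1 := by
    rw [Finset.card_le_one]
    intro B hB C hC
    rw [mem_fam] at hB hC
    rw [huniq B hB.2.1 hB.2.2.1 hB.2.2.2, huniq C hC.2.1 hC.2.2.1 hC.2.2.2]
  have h3 : #(fam N Y (fun B => e ∉ B ∧ f ∉ B)) ≤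
      #(fam N Y (fun B => e ∈ B ∧ f ∉ B)) * #(fam N Y (fun B => e ∉ B ∧ f ∈ B)) := by
    rw [← Finset.card_product]
    refine (Finset.card_le_card (t := ((fam N Y (fun B => e ∈ B ∧ f ∉ B)) ×ˢ
      (fam N Y (fun B => e ∉ B ∧ f ∈ B))).image
        (fun p => (p.1.erase e) ∪ (p.2.erase f))) ?_).trans Finset.card_image_le
    intro B hB
    rw [mem_fam] at hB
    obtain ⟨hBY, hBb, heB, hfB⟩ := hB
    obtain ⟨x, y, hxy, rfl⟩ := Finset.card_eq_two.1 (card_of_base2 h2 hBb)
    have hxY : x ∈ Y := hBY (by simp)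
    have hyY : y ∈ Y := hBY (by simp)
    simp only [Finset.mem_insert, Finset.mem_singleton, not_or] at heB hfB
    obtain ⟨hex, hey⟩ := heB
    obtain ⟨hfx, hfy⟩ := hfB
    have hBb' : N.IsBase {x, y} := by simpa using hBb
    rw [Finset.mem_image]
    have hdisj : ∀ a b : α, N.IsBase {e, a} → N.IsBase {f, b} → a ∈ Y → b ∈ Y → e ≠ a → e ≠ b →
        f ≠ a → f ≠ b → (({e, a} : Finset α), ({f, b} : Finset α)) ∈
        (fam N Y (fun B => e ∈ B ∧ f ∉ B)) ×ˢ (fam N Y (fun B => e ∉ B ∧ f ∈ B)) := by
      intro a b h1 h2 haY hbY h3 h4 h5 h6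
      rw [Finset.mem_product, mem_fam, mem_fam]
      refine ⟨⟨?_, by simpa using h1, by simp, by simp [hef.symm, h5]⟩,
        ⟨?_, by simpa using h2, by simp [hef, h4], by simp⟩⟩
      · intro w hw
        simp only [Finset.mem_insert, Finset.mem_singleton] at hw
        rcases hw with rfl | rfl <;> assumption
      · intro w hw
        simp only [Finset.mem_insert, Finset.mem_singleton] at hw
        rcases hw with rfl | rfl <;> assumption
    rcases rank2_exch hef hxy hBb' hefb with ⟨h4, h5⟩ | ⟨h4, h5⟩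
    · refine ⟨({e, y}, {f, x}), hdisj y x h4 h5 hyY hxY hey hex hfy hfx, ?_⟩
      ext w
      simp only [Finset.mem_union, Finset.mem_erase, Finset.mem_insert, Finset.mem_singleton]
      constructor
      · tauto
      · rintro (rfl | rfl)
        · exact Or.inr ⟨Ne.symm hfx, by tauto⟩
        · exact Or.inl ⟨Ne.symm hey, by tauto⟩
    · refine ⟨({e, x}, {f, y}), hdisj x y h4 h5 hxY hyY hex hey hfx hfy, ?_⟩
      ext w
      simp only [Finset.mem_union, Finset.mem_erase, Finset.mem_insert, Finset.mem_singleton]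
      constructor
      · tauto
      · rintro (rfl | rfl)
        · exact Or.inl ⟨Ne.symm hex, by tauto⟩
        · exact Or.inr ⟨Ne.symm hfy, by tauto⟩
  calc _ ≤ 1 * #(fam N Y (fun B => e ∉ B ∧ f ∉ B)) := Nat.mul_le_mul_right _ h1
    _ ≤ _ := by rw [one_mul]; exact h3

end rank2

theorem rank_low_aux {N : Matroid α} {e f : α} (hef : e ≠ f) (r : ℕ) (hr : r ≤ 3)
    (h : ∀ B, N.IsBase B → B.ncard = r) (Y : Finset α) (heY : e ∈ Y) (hfY : f ∈ Y) :
    #(fam N Y (fun B => e ∈ B ∧ f ∈ B)) * #(fam N Y (fun B => e ∉ B ∧ f ∉ B)) ≤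
    #(fam N Y (fun B => e ∈ B ∧ f ∉ B)) * #(fam N Y (fun B => e ∉ B ∧ f ∈ B)) := by
  rcases Nat.lt_or_ge r 2 with h2 | h2
  · have : #(fam N Y (fun B => e ∈ B ∧ f ∈ B)) = 0 := by
      rw [Finset.card_eq_zero, Finset.eq_empty_iff_forall_notMem]
      intro B hB
      rw [mem_fam] at hB
      have hc := h _ hB.2.1
      rw [Set.ncard_coe_finset] at hc
      have : ({e, f} : Finset α) ⊆ B := by
        intro w hw
        simp only [Finset.mem_insert, Finset.mem_singleton] at hw
        rcases hw with rfl | rfl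
        · exact hB.2.2.1
        · exact hB.2.2.2
      have := Finset.card_le_card this
      rw [Finset.card_pair hef] at this
      omega
    rw [this]; simp
  · have : r = 2 ∨ r = 3 := by omega
    rcases this with rfl | rfl
    · exact rank2_aux h hef Y heY hfY
    · exact rank3_aux h hef _ Y rfl heY hfY

end Pool.Agent.Work.MP_b989b4_co
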